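import Mathlib

/-!
Boundary operator of a finite multigraph `(V, E, a, b)` (end maps `a b : E → V`, loops allowed)
in characteristic two, joins, reachability.
-/

set_option autoImplicit false
set_option linter.all false

open Finset

namespace Pool.Agent.Helper45.CCD

variable {V E : Type*} [Fintype V] [DecidableEq V] [Fintype E] [DecidableEq E]

/-- boundary -/
def bd {M : Type*} [AddCommMonoid M] (a b : E → V) (x : E → M) (v : V) : M :=
  ∑ e, ((if a e = v then x e else 0) + (if b e = v then x e else 0))

/-- indicator of the pair `u, v` mod 2 -/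
def dl (u v : V) : V → ZMod 2 := fun w => (if w = u then 1 else 0) + (if w = v then 1 else 0)

/-- `e` crosses `K` -/
def cr (a b : E → V) (K : Finset V) (e : E) : Prop := ¬ (a e ∈ K ↔ b e ∈ K)

/-- reachability through the edges satisfying `A` -/
def Rch (a b : E → V) (A : E → Prop) : V → V → Prop :=
  Relation.ReflTransGen (fun u v => ∃ e, A e ∧ ((a e = u ∧ b e = v) ∨ (a e = v ∧ b e = u)))

section basic
variable (a b : E → V)

theorem bd_zero {M : Type*} [AddCommMonoid M] : bd a b (0 : E → M) = 0 := by
  funext v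
  show ∑ e, ((if a e = v then (0 : M) else 0) + (if b e = v then (0 : M) else 0)) = 0
  simp

theorem bd_add {M : Type*} [AddCommMonoid M] (x y : E → M) :
    bd a b (x + y) = bd a b x + bd a b y := by
  funext v
  simp only [bd, Pi.add_apply]
  rw [← Finset.sum_add_distrib]
  refine Finset.sum_congr rfl fun e _ => ?_
  split_ifs <;> first | abel | simp

theorem bd_smul {M : Type*} [AddCommGroup M] [Module (ZMod 2) M] (D : E → ZMod 2) (c : M) :
    bd a b (fun e => D e • c) = fun v => bd a b D v • c := by
  funext v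
  simp only [bd]
  rw [Finset.sum_smul]
  refine Finset.sum_congr rfl fun e _ => ?_
  split_ifs <;> simp [add_smul]

theorem bd_single (e : E) : bd a b (Pi.single e (1 : ZMod 2)) = dl (a e) (b e) := by
  funext v
  simp only [bd, dl]
  rw [Finset.sum_eq_single e]
  · simp [eq_comm]
  · intro f _ hf
    simp [Pi.single_eq_of_ne hf]
  · simp

theorem dl_self (u : V) : dl u u = 0 := by
  funext w
  simp only [dl, Pi.zero_apply]
  split_ifs
  · decide
  · simp

theorem dl_add (u v w : V) : dl u v + dl v w = dl u w := by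
  funext t
  simp only [dl, Pi.add_apply]
  have h2 : (1 : ZMod 2) + 1 = 0 := by decide
  split_ifs <;> simp [h2] <;> decide

theorem dl_comm (u v : V) : dl u v = dl v u := by
  funext t
  simp only [dl]
  rw [add_comm]

theorem zmod2_add_self (x : ZMod 2) : x + x = 0 := by
  revert x; decide

theorem add_self_module {M : Type*} [AddCommGroup M] [Module (ZMod 2) M] (x : M) : x + x = 0 := by
  have : (1 : ZMod 2) • x + (1 : ZMod 2) • x = 0 := by
    rw [← add_smul]
    have : (1 : ZMod 2) + 1 = 0 := by decide
    rw [this, zero_smul]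
  simpa using this

theorem sum_bd {M : Type*} [AddCommMonoid M] (x : E → M) (K : Finset V) :
    ∑ v ∈ K, bd a b x v = ∑ e, ((if a e ∈ K then x e else 0) + (if b e ∈ K then x e else 0)) := by
  simp only [bd]
  rw [Finset.sum_comm]
  refine Finset.sum_congr rfl fun e _ => ?_
  rw [Finset.sum_add_distrib, Finset.sum_ite_eq, Finset.sum_ite_eq]

/-- the sum of a function with zero boundary over a cut vanishes -/
theorem sum_cut {M : Type*} [AddCommGroup M] [Module (ZMod 2) M] (x : E → M) (K : Finset V)
    [DecidablePred (cr a b K)] :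
    ∑ v ∈ K, bd a b x v = ∑ e ∈ univ.filter (cr a b K), x e := by
  rw [sum_bd, Finset.sum_filter]
  refine Finset.sum_congr rfl fun e _ => ?_
  by_cases h1 : a e ∈ K <;> by_cases h2 : b e ∈ K
  · rw [if_pos h1, if_pos h2, if_neg (by simp [cr, h1, h2])]
    exact add_self_module _
  · rw [if_pos h1, if_neg h2, if_pos (by simp [cr, h1, h2])]; simp
  · rw [if_neg h1, if_pos h2, if_pos (by simp [cr, h1, h2])]; simp
  · rw [if_neg h1, if_neg h2, if_neg (by simp [cr, h1, h2])]; simp

theorem Rch.symm {A : E → Prop} {u v : V} (h : Rch a b A u v) : Rch a b A v u := by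
  induction h with
  | refl => exact Relation.ReflTransGen.refl
  | tail _ h2 ih =>
    obtain ⟨e, he, h3⟩ := h2
    exact Relation.ReflTransGen.head ⟨e, he, h3.symm⟩ ih

theorem Rch.mono {A A' : E → Prop} (hA : ∀ e, A e → A' e) {u v : V} (h : Rch a b A u v) :
    Rch a b A' u v := by
  induction h with
  | refl => exact Relation.ReflTransGen.refl
  | tail _ h2 ih =>
    obtain ⟨e, he, h3⟩ := h2
    exact Relation.ReflTransGen.tail ih ⟨e, hA e he, h3⟩

theorem Rch.trans' {A : E → Prop} {u v w : V} (h : Rch a b A u v) (h' : Rch a b A v w) :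
    Rch a b A u w := Relation.ReflTransGen.trans h h'

theorem Rch.edge {A : E → Prop} {e : E} (he : A e) : Rch a b A (a e) (b e) :=
  Relation.ReflTransGen.single ⟨e, he, Or.inl ⟨rfl, rfl⟩⟩

theorem join_of_reach {A : E → Prop} {u v : V} (h : Rch a b A u v) :
    ∃ D : E → ZMod 2, (∀ e, D e ≠ 0 → A e) ∧ bd a b D = dl u v := by
  induction h with
  | refl => exact ⟨0, fun e he => absurd rfl he, by rw [bd_zero, dl_self]⟩
  | @tail v w _ h2 ih =>
    obtain ⟨D, hD, hb⟩ := ih
    obtain ⟨e, he, h3⟩ := h2
    refine ⟨D + Pi.single e 1, ?_, ?_⟩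
    · intro f hf
      by_cases hfe : f = e
      · rw [hfe]; exact he
      · rw [Pi.add_apply, Pi.single_eq_of_ne hfe, add_zero] at hf
        exact hD f hf
    · rw [bd_add, hb, bd_single]
      rcases h3 with ⟨h3, h4⟩ | ⟨h3, h4⟩
      · rw [h3, h4, dl_add]
      · rw [h3, h4, dl_comm w v, dl_add]

/-- restriction of a join to the component of `x`. -/
theorem good_join {D : E → ZMod 2} {x y : V} (hD : bd a b D = dl x y) :
    ∃ D' : E → ZMod 2, (∀ e, D' e ≠ 0 → D e ≠ 0) ∧ bd a b D' = dl x y ∧
      Rch a b (fun e => D' e ≠ 0) x y ∧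
      ∀ e, D' e ≠ 0 → Rch a b (fun e => D' e ≠ 0) x (a e) ∧ Rch a b (fun e => D' e ≠ 0) x (b e) := by
  classical
  set K : Finset V := univ.filter (fun v => Rch a b (fun e => D e ≠ 0) x v) with hK
  have hmemK : ∀ v, v ∈ K ↔ Rch a b (fun e => D e ≠ 0) x v := fun v => by simp [hK]
  have hcl : ∀ e, D e ≠ 0 → (a e ∈ K ↔ b e ∈ K) := by
    intro e he
    rw [hmemK, hmemK]
    exact ⟨fun h => h.trans' a b (Rch.edge a b he), fun h => h.trans' a b (Rch.edge a b he).symm⟩
  have hxK : x ∈ K := (hmemK x).2 Relation.ReflTransGen.refl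
  have hyK : y ∈ K := by
    have h1 := sum_cut a b D K
    have h2 : univ.filter (cr a b K) = univ.filter (fun e => cr a b K e) := rfl
    have h3 : ∑ e ∈ univ.filter (cr a b K), D e = 0 := by
      refine Finset.sum_eq_zero fun e he => ?_
      by_contra hne
      exact (Finset.mem_filter.1 he).2 (hcl e hne)
    rw [h3, hD] at h1
    simp only [dl, Finset.sum_add_distrib, Finset.sum_ite_eq', hxK, if_true] at h1
    by_contra hy
    rw [if_neg hy] at h1
    exact absurd h1 (by decide)
  set D' : E → ZMod 2 := fun e => if a e ∈ K then D e else 0 with hD'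
  have hne : ∀ e, D' e ≠ 0 → a e ∈ K ∧ D e ≠ 0 := by
    intro e he
    simp only [hD'] at he
    split_ifs at he with h
    · exact ⟨h, he⟩
    · exact absurd rfl he
  have hpos : ∀ e, a e ∈ K → D' e = D e := fun e h => if_pos h
  have hneg : ∀ e, a e ∉ K → D' e = 0 := fun e h => if_neg h
  have hreach : ∀ v, Rch a b (fun e => D e ≠ 0) x v → Rch a b (fun e => D' e ≠ 0) x v := by
    intro v hv
    induction hv with
    | refl => exact Relation.ReflTransGen.refl
    | @tail v w h1 h2 ih =>
      obtain ⟨e, he, h3⟩ := h2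
      have hvK : v ∈ K := (hmemK v).2 h1
      have haK : a e ∈ K := by
        rcases h3 with ⟨h3, h4⟩ | ⟨h3, h4⟩
        · rw [h3]; exact hvK
        · rw [hcl e he, h4]; exact hvK
      exact Relation.ReflTransGen.tail ih ⟨e, by show D' e ≠ 0; rw [hpos e haK]; exact he, h3⟩
  refine ⟨D', fun e he => (hne e he).2, ?_, hreach _ ((hmemK y).1 hyK), ?_⟩
  · funext v
    by_cases hv : v ∈ K
    · rw [← hD]
      simp only [bd]
      refine Finset.sum_congr rfl fun e _ => ?_
      by_cases he : D e = 0
      · have : D' e = 0 := by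
          by_cases h : a e ∈ K
          · rw [hpos e h, he]
          · exact hneg e h
        rw [this, he]
      · by_cases h : a e ∈ K
        · rw [hpos e h]
        · rw [hneg e h]
          have h' : b e ∉ K := by rwa [← hcl e he]
          have c1 : a e ≠ v := fun h1 => h (by rw [h1]; exact hv)
          have c2 : b e ≠ v := fun h1 => h' (by rw [h1]; exact hv)
          rw [if_neg c1, if_neg c2, if_neg c1, if_neg c2]
    · have h1 : dl x y v = 0 := by
        simp only [dl]
        have c1 : v ≠ x := fun h1 => hv (by rw [h1]; exact hxK)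
        have c2 : v ≠ y := fun h1 => hv (by rw [h1]; exact hyK)
        rw [if_neg c1, if_neg c2, add_zero]
      rw [h1]
      simp only [bd]
      refine Finset.sum_eq_zero fun e _ => ?_
      by_cases he : D' e = 0
      · rw [he]; simp
      · obtain ⟨h2, h3⟩ := hne e he
        have h4 : b e ∈ K := (hcl e h3).1 h2
        have c1 : a e ≠ v := fun h1 => hv (by rw [← h1]; exact h2)
        have c2 : b e ≠ v := fun h1 => hv (by rw [← h1]; exact h4)
        rw [if_neg c1, if_neg c2, add_zero]
  · intro e he
    obtain ⟨h2, h3⟩ := hne e he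
    exact ⟨hreach _ ((hmemK _).1 h2), hreach _ ((hmemK _).1 ((hcl e h3).1 h2))⟩

end basic

end Pool.Agent.Helper45.CCD
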