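import Mathlib

set_option autoImplicit false
set_option linter.all false

open Finset

namespace Pool.Agent.Helper45.CCD

section
variable {V E L : Type*} [Fintype V] [DecidableEq V] [Fintype E] [DecidableEq E]

/-- circuits from a transition relation -/
theorem circ (ends : E → Sym2 V) (T : V → E → E → Prop)
    (hsym : ∀ v e f, T v e f → T v f e) (hinc : ∀ v e f, T v e f → v ∈ ends e ∧ e ≠ f)
    (hex : ∀ v e, v ∈ ends e → ∃ f, T v e f) (huniq : ∀ v e f f', T v e f → T v e f' → f = f')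
    (c : E → L) (hc : ∀ v e f, T v e f → c e = c f)
    (hsep : ∀ v e f, v ∈ ends e → v ∈ ends f → c e = c f → e = f ∨ T v e f) :
    ∃ 𝒞 : Finset (Finset E),
      (∀ S ∈ 𝒞, S.Nonempty ∧ (∀ v : V, Even (S.filter (fun e => v ∈ ends e)).card) ∧
        ∀ T' ⊆ S, T'.Nonempty → (∀ v : V, Even (T'.filter (fun e => v ∈ ends e)).card) → T' = S) ∧
      (∀ e : E, ∃! S, S ∈ 𝒞 ∧ e ∈ S) ∧
      ∀ S ∈ 𝒞, ∀ v : V, ∀ e ∈ S, ∀ f ∈ S, v ∈ ends e → v ∈ ends f → e = f ∨ T v e f := by
  classical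
  let r : E → E → Prop := Relation.ReflTransGen (fun e f => ∃ v, T v e f)
  have hrsym : ∀ e f, r e f → r f e := by
    intro e f h
    induction h with
    | refl => exact Relation.ReflTransGen.refl
    | tail _ h2 ih =>
      obtain ⟨v, hv⟩ := h2
      exact Relation.ReflTransGen.head ⟨v, hsym _ _ _ hv⟩ ih
  have hrc : ∀ e f, r e f → c e = c f := by
    intro e f h
    induction h with
    | refl => rfl
    | tail _ h2 ih =>
      obtain ⟨v, hv⟩ := h2
      rw [ih]; exact hc _ _ _ hv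
  let cls : E → Finset E := fun e => univ.filter (fun f => r e f)
  have hcls : ∀ e f, f ∈ cls e ↔ r e f := fun e f => by simp [cls]
  have hclseq : ∀ e f, r e f → cls e = cls f := by
    intro e f h
    ext g
    rw [hcls, hcls]
    exact ⟨fun h' => Relation.ReflTransGen.trans (hrsym _ _ h) h', fun h' => Relation.ReflTransGen.trans h h'⟩
  -- structure at a vertex
  have hstr : ∀ e0 v e f, e ∈ cls e0 → v ∈ ends e → T v e f →
      (cls e0).filter (fun g => v ∈ ends g) = {e, f} := by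
    intro e0 v e f he hv hT
    ext g
    rw [Finset.mem_filter, Finset.mem_insert, Finset.mem_singleton]
    constructor
    · rintro ⟨hg, hvg⟩
      have h1 : c e = c g := by
        rw [← hrc _ _ ((hcls _ _).1 he), ← hrc _ _ ((hcls _ _).1 hg)]
      rcases hsep v e g hv hvg h1 with h2 | h2
      · exact Or.inl h2.symm
      · exact Or.inr (huniq v e g f h2 hT)
    · rintro (rfl | rfl)
      · exact ⟨he, hv⟩
      · exact ⟨(hcls _ _).2 (Relation.ReflTransGen.tail ((hcls _ _).1 he) ⟨v, hT⟩),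
          (hinc v g e (hsym _ _ _ hT)).1⟩
  refine ⟨univ.image cls, ?_, ?_, ?_⟩
  · intro S hS
    obtain ⟨e0, _, rfl⟩ := Finset.mem_image.1 hS
    refine ⟨⟨e0, (hcls _ _).2 Relation.ReflTransGen.refl⟩, ?_, ?_⟩
    · intro v
      rcases Finset.eq_empty_or_nonempty ((cls e0).filter (fun g => v ∈ ends g)) with h | ⟨e, he⟩
      · rw [h]; simp
      · obtain ⟨he1, he2⟩ := Finset.mem_filter.1 he
        obtain ⟨f, hf⟩ := hex v e he2
        rw [hstr e0 v e f he1 he2 hf, Finset.card_pair (hinc _ _ _ hf).2]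
        exact even_two
    · intro T' hT' ⟨e, he⟩ hev
      apply Finset.Subset.antisymm hT'
      have hstep : ∀ g, r e g → g ∈ T' := by
        intro g hg
        induction hg with
        | refl => exact he
        | @tail g h _ h2 ih =>
          obtain ⟨v, hv⟩ := h2
          have hvg := (hinc _ _ _ hv).1
          have h3 := hstr e0 v g h (hT' ih) hvg hv
          have h4 : T'.filter (fun k => v ∈ ends k) ⊆ {g, h} := by
            rw [← h3]
            exact Finset.filter_subset_filter _ hT'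
          have h5 : g ∈ T'.filter (fun k => v ∈ ends k) := Finset.mem_filter.2 ⟨ih, hvg⟩
          have h6 := hev v
          by_contra hh
          have h7 : T'.filter (fun k => v ∈ ends k) = {g} := by
            apply Finset.eq_singleton_iff_unique_mem.2
            refine ⟨h5, fun k hk => ?_⟩
            have := h4 hk
            rw [Finset.mem_insert, Finset.mem_singleton] at this
            rcases this with h8 | h8
            · exact h8
            · exfalso; apply hh
              rw [← h8]; exact (Finset.mem_filter.1 hk).1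
          rw [h7, Finset.card_singleton] at h6
          exact absurd h6 (by decide)
      intro g hg
      apply hstep
      exact Relation.ReflTransGen.trans (hrsym _ _ ((hcls _ _).1 (hT' he))) ((hcls _ _).1 hg)
  · intro e
    refine ⟨cls e, ⟨Finset.mem_image_of_mem _ (Finset.mem_univ _), (hcls _ _).2 Relation.ReflTransGen.refl⟩, ?_⟩
    rintro S ⟨hS, heS⟩
    obtain ⟨e0, _, rfl⟩ := Finset.mem_image.1 hS
    exact hclseq _ _ ((hcls _ _).1 heS)
  · intro S hS v e he f hf hve hvf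
    obtain ⟨e0, _, rfl⟩ := Finset.mem_image.1 hS
    apply hsep v e f hve hvf
    rw [← hrc _ _ ((hcls _ _).1 he), ← hrc _ _ ((hcls _ _).1 hf)]

/-- compatible pair of circuit decompositions from two disjoint transition relations -/
theorem pair {L' : Type*} (ends : E → Sym2 V) (T : V → E → E → Prop)
    (hsym : ∀ v e f, T v e f → T v f e) (hinc : ∀ v e f, T v e f → v ∈ ends e ∧ e ≠ f)
    (hex : ∀ v e, v ∈ ends e → ∃ f, T v e f) (huniq : ∀ v e f f', T v e f → T v e f' → f = f')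
    (c : E → L) (hc : ∀ v e f, T v e f → c e = c f)
    (hsep : ∀ v e f, v ∈ ends e → v ∈ ends f → c e = c f → e = f ∨ T v e f)
    (T' : V → E → E → Prop)
    (hsym' : ∀ v e f, T' v e f → T' v f e) (hinc' : ∀ v e f, T' v e f → v ∈ ends e ∧ e ≠ f)
    (hex' : ∀ v e, v ∈ ends e → ∃ f, T' v e f) (huniq' : ∀ v e f f', T' v e f → T' v e f' → f = f')
    (c' : E → L') (hc' : ∀ v e f, T' v e f → c' e = c' f)
    (hsep' : ∀ v e f, v ∈ ends e → v ∈ ends f → c' e = c' f → e = f ∨ T' v e f)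
    (hdisj : ∀ v e f, T v e f → ¬ T' v e f) :
    ∃ C₁ C₂ : Finset (Finset E),
        (∀ S ∈ C₁, S.Nonempty ∧ (∀ v : V, Even (S.filter (fun e => v ∈ ends e)).card) ∧
            ∀ T ⊆ S, T.Nonempty → (∀ v : V, Even (T.filter (fun e => v ∈ ends e)).card) → T = S) ∧
        (∀ e : E, ∃! S, S ∈ C₁ ∧ e ∈ S) ∧
        (∀ S ∈ C₂, S.Nonempty ∧ (∀ v : V, Even (S.filter (fun e => v ∈ ends e)).card) ∧
            ∀ T ⊆ S, T.Nonempty → (∀ v : V, Even (T.filter (fun e => v ∈ ends e)).card) → T = S) ∧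
        (∀ e : E, ∃! S, S ∈ C₂ ∧ e ∈ S) ∧
        (∀ v : V, ∀ S₁ ∈ C₁, ∀ S₂ ∈ C₂,
            ((S₁ ∩ S₂).filter (fun e => v ∈ ends e)).card ≤ 1) := by
  obtain ⟨C₁, h1, h2, h3⟩ := circ ends T hsym hinc hex huniq c hc hsep
  obtain ⟨C₂, h4, h5, h6⟩ := circ ends T' hsym' hinc' hex' huniq' c' hc' hsep'
  refine ⟨C₁, C₂, h1, h2, h4, h5, ?_⟩
  intro v S₁ hS₁ S₂ hS₂
  rw [Finset.card_le_one]
  intro e he f hf
  obtain ⟨he1, he2⟩ := Finset.mem_filter.1 he
  obtain ⟨hf1, hf2⟩ := Finset.mem_filter.1 hf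
  rw [Finset.mem_inter] at he1 hf1
  rcases h3 S₁ hS₁ v e he1.1 f hf1.1 he2 hf2 with h | h
  · exact h
  · rcases h6 S₂ hS₂ v e he1.2 f hf1.2 he2 hf2 with h' | h'
    · exact h'
    · exact absurd h' (hdisj v e f h)

/-- the properties of a transition relation with separating labels -/
def Trans (ends : E → Sym2 V) (T : V → E → E → Prop) (c : E → L) : Prop :=
  (∀ v e f, T v e f → T v f e) ∧ (∀ v e f, T v e f → v ∈ ends e ∧ e ≠ f) ∧
  (∀ v e, v ∈ ends e → ∃ f, T v e f) ∧ (∀ v e f f', T v e f → T v e f' → f = f') ∧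
  (∀ v e f, T v e f → c e = c f) ∧
  (∀ v e f, v ∈ ends e → v ∈ ends f → c e = c f → e = f ∨ T v e f)

theorem Trans.transport {E' : Type*} {ends : E → Sym2 V} {T : V → E → E → Prop} {c : E → L}
    (h : Trans ends T c) (g : E' ≃ E) (ends' : E' → Sym2 V) (hg : ∀ e, ends' e = ends (g e)) :
    Trans ends' (fun v e f => T v (g e) (g f)) (fun e => c (g e)) := by
  obtain ⟨h1, h2, h3, h4, h5, h6⟩ := h
  refine ⟨fun v e f h => h1 v _ _ h, ?_, ?_, ?_, fun v e f h => h5 v _ _ h, ?_⟩
  · intro v e f h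
    refine ⟨by rw [hg]; exact (h2 v _ _ h).1, fun hef => (h2 v _ _ h).2 (by rw [hef])⟩
  · intro v e he
    rw [hg] at he
    obtain ⟨f, hf⟩ := h3 v _ he
    exact ⟨g.symm f, by simpa using hf⟩
  · intro v e f f' h h'
    exact g.injective (h4 v _ _ _ h h')
  · intro v e f he hf hc
    rw [hg] at he hf
    rcases h6 v _ _ he hf hc with h | h
    · exact Or.inl (g.injective h)
    · exact Or.inr h

end

/-- compatible pair of circuit decompositions -/
theorem pair' {V E L L' : Type*} [Fintype V] [DecidableEq V] [Fintype E] [DecidableEq E]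
    (ends : E → Sym2 V) (T T' : V → E → E → Prop) (c : E → L) (c' : E → L')
    (h : Trans ends T c) (h' : Trans ends T' c') (hdisj : ∀ v e f, T v e f → ¬ T' v e f) :
    ∃ C₁ C₂ : Finset (Finset E),
        (∀ S ∈ C₁, S.Nonempty ∧ (∀ v : V, Even (S.filter (fun e => v ∈ ends e)).card) ∧
            ∀ T ⊆ S, T.Nonempty → (∀ v : V, Even (T.filter (fun e => v ∈ ends e)).card) → T = S) ∧
        (∀ e : E, ∃! S, S ∈ C₁ ∧ e ∈ S) ∧
        (∀ S ∈ C₂, S.Nonempty ∧ (∀ v : V, Even (S.filter (fun e => v ∈ ends e)).card) ∧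
            ∀ T ⊆ S, T.Nonempty → (∀ v : V, Even (T.filter (fun e => v ∈ ends e)).card) → T = S) ∧
        (∀ e : E, ∃! S, S ∈ C₂ ∧ e ∈ S) ∧
        (∀ v : V, ∀ S₁ ∈ C₁, ∀ S₂ ∈ C₂,
            ((S₁ ∩ S₂).filter (fun e => v ∈ ends e)).card ≤ 1) := by
  obtain ⟨h1, h2, h3, h4, h5, h6⟩ := h
  obtain ⟨g1, g2, g3, g4, g5, g6⟩ := h'
  exact pair ends T h1 h2 h3 h4 c h5 h6 T' g1 g2 g3 g4 c' g5 g6 hdisj

end Pool.Agent.Helper45.CCD
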