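import Mathlib

set_option autoImplicit false
set_option linter.all false

open Finset

namespace Pool.Agent.Helper45.CCD

section perm
variable {E : Type*} [Fintype E] [DecidableEq E]

theorem sameCycle_nat {σ : Equiv.Perm E} {x y : E} (h : σ.SameCycle x y) : ∃ n : ℕ, (σ ^ n) x = y :=
  h.exists_nat_pow_eq

/-- multiplying by a swap of two elements in the same cycle: same cycle pairs do not increase -/
theorem swap_le (σ : Equiv.Perm E) (e e' : E) (h : σ.SameCycle e e') (f g : E)
    (hfg : (σ * Equiv.swap e e').SameCycle f g) : σ.SameCycle f g := by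
  obtain ⟨n, hn⟩ := sameCycle_nat hfg
  have step : ∀ f, σ.SameCycle f ((σ * Equiv.swap e e') f) := by
    intro f
    rw [Equiv.Perm.mul_apply]
    by_cases h1 : f = e
    · rw [h1, Equiv.swap_apply_left]
      exact h.trans ⟨1, by simp⟩
    · by_cases h2 : f = e'
      · rw [h2, Equiv.swap_apply_right]
        exact h.symm.trans ⟨1, by simp⟩
      · rw [Equiv.swap_apply_of_ne_of_ne h1 h2]
        exact ⟨1, by simp⟩
  have all : ∀ n : ℕ, σ.SameCycle f (((σ * Equiv.swap e e') ^ n) f) := by
    intro n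
    induction n with
    | zero => exact Equiv.Perm.SameCycle.refl σ f
    | succ n ih =>
      rw [pow_succ', Equiv.Perm.mul_apply]
      exact ih.trans (step _)
  rw [← hn]
  exact all n

theorem swap_not (σ : Equiv.Perm E) (e e' : E) (h : σ.SameCycle e e') (hne : e ≠ e') :
    ¬ (σ * Equiv.swap e e').SameCycle e' e := by
  classical
  set τ := σ * Equiv.swap e e' with hτ
  have hex : ∃ n : ℕ, 0 < n ∧ (σ ^ n) e = e' := by
    obtain ⟨n, hn⟩ := sameCycle_nat h
    refine ⟨n, ?_, hn⟩
    rcases Nat.eq_zero_or_pos n with h0 | h0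
    · subst h0
      exact absurd (by simpa using hn) hne
    · exact h0
  set k := Nat.find hex with hk
  obtain ⟨hk0, hke⟩ := Nat.find_spec hex
  have hmin : ∀ j, 0 < j → j < k → (σ ^ j) e ≠ e' := by
    intro j h1 h2 h3
    exact Nat.find_min hex h2 ⟨h1, h3⟩
  have hmin2 : ∀ j, 0 < j → j < k → (σ ^ j) e ≠ e := by
    intro j h1 h2 h3
    apply hmin (k - j) (by omega) (by omega)
    have : (σ ^ k) e = (σ ^ (k - j)) ((σ ^ j) e) := by
      rw [← Equiv.Perm.mul_apply, ← pow_add]
      congr 2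
      omega
    rw [h3] at this
    rw [← this]; exact hke
  have horb : ∀ j, 0 < j → j ≤ k → (τ ^ j) e' = (σ ^ j) e := by
    intro j
    induction j with
    | zero => intro h1 _; omega
    | succ j ih =>
      intro _ h2
      rw [pow_succ' τ, Equiv.Perm.mul_apply, pow_succ' σ, Equiv.Perm.mul_apply, hτ,
        Equiv.Perm.mul_apply, ← hτ]
      rcases Nat.eq_zero_or_pos j with h0 | h0
      · subst h0
        simp
      · rw [ih h0 (by omega),
          Equiv.swap_apply_of_ne_of_ne (hmin2 j h0 (by omega)) (hmin j h0 (by omega))]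
  have hkk : (τ ^ k) e' = e' := by
    rw [horb k hk0 le_rfl]; exact hke
  intro hs
  obtain ⟨n, hn⟩ := sameCycle_nat hs
  have hmod : (τ ^ n) e' = (τ ^ (n % k)) e' := by
    have h1 : n = n % k + k * (n / k) := (Nat.mod_add_div n k).symm
    have h2 : ∀ q : ℕ, (τ ^ (k * q)) e' = e' := by
      intro q
      induction q with
      | zero => simp
      | succ q ih => rw [Nat.mul_succ, pow_add, Equiv.Perm.mul_apply, hkk, ih]
    calc (τ ^ n) e' = (τ ^ (n % k + k * (n / k))) e' := by rw [← h1]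
      _ = (τ ^ (n % k)) e' := by rw [pow_add, Equiv.Perm.mul_apply, h2]
  rw [hmod] at hn
  have hlt : n % k < k := Nat.mod_lt _ hk0
  rcases Nat.eq_zero_or_pos (n % k) with h0 | h0
  · rw [h0] at hn
    exact hne (by simpa using hn.symm)
  · rw [horb _ h0 hlt.le] at hn
    exact hmin2 _ h0 hlt hn

end perm

/-- the directed splitting theorem -/
theorem dir {V E L : Type*} [DecidableEq V] [Fintype E] [DecidableEq E] (tl hd : E → V) (s : E → L)
    (hloop : ∀ e, tl e ≠ hd e) (σ0 : Equiv.Perm E) (hσ0 : ∀ e, tl (σ0 e) = hd e ∧ s (σ0 e) = s e) :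
    ∃ (T : V → E → E → Prop) (c : E → Set E),
      (∀ v e f, T v e f → T v f e) ∧
      (∀ v e f, T v e f → (v = tl e ∨ v = hd e) ∧ e ≠ f) ∧
      (∀ v e, (v = tl e ∨ v = hd e) → ∃ f, T v e f) ∧
      (∀ v e f f', T v e f → T v e f' → f = f') ∧
      (∀ v e f, T v e f → c e = c f) ∧
      (∀ v e f, (v = tl e ∨ v = hd e) → (v = tl f ∨ v = hd f) → c e = c f → e = f ∨ T v e f) ∧
      (∀ v e f, T v e f → (hd e = v ∧ tl f = v ∧ s e = s f) ∨ (tl e = v ∧ hd f = v ∧ s e = s f)) := by
  classical
  let Φ : Equiv.Perm E → ℕ := fun σ => ((univ : Finset (E × E)).filter (fun p => σ.SameCycle p.1 p.2)).card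
  have hne : ((univ : Finset (Equiv.Perm E)).filter
      (fun σ => ∀ e, tl (σ e) = hd e ∧ s (σ e) = s e)).Nonempty :=
    ⟨σ0, Finset.mem_filter.2 ⟨Finset.mem_univ _, hσ0⟩⟩
  obtain ⟨σ, hσm, hmin⟩ := Finset.exists_min_image _ Φ hne
  have hσ := (Finset.mem_filter.1 hσm).2
  -- labels are invariant
  have hlab : ∀ e f, σ.SameCycle e f → s e = s f := by
    intro e f h
    obtain ⟨n, hn⟩ := sameCycle_nat h
    rw [← hn]
    clear hn
    induction n with
    | zero => simp
    | succ n ih => rw [pow_succ', Equiv.Perm.mul_apply, (hσ _).2]; exact ih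
  have key : ∀ e e', e ≠ e' → hd e = hd e' → ¬ σ.SameCycle e e' := by
    intro e e' hee' hh hsc
    have hs : s e = s e' := hlab _ _ hsc
    have hval : ∀ f, tl ((σ * Equiv.swap e e') f) = hd f ∧ s ((σ * Equiv.swap e e') f) = s f := by
      intro f
      rw [Equiv.Perm.mul_apply]
      by_cases h1 : f = e
      · subst h1
        rw [Equiv.swap_apply_left, (hσ _).1, (hσ _).2, hh, hs]
        exact ⟨rfl, rfl⟩
      · by_cases h2 : f = e'
        · subst h2
          rw [Equiv.swap_apply_right, (hσ _).1, (hσ _).2, hh, hs]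
          exact ⟨rfl, rfl⟩
        · rw [Equiv.swap_apply_of_ne_of_ne h1 h2]
          exact hσ f
    have h1 := hmin _ (Finset.mem_filter.2 ⟨Finset.mem_univ _, hval⟩)
    have h2 : Φ (σ * Equiv.swap e e') < Φ σ := by
      apply Finset.card_lt_card
      refine Finset.ssubset_iff_subset_ne.2 ⟨?_, ?_⟩
      · rintro ⟨f, g⟩ hfg
        have := (Finset.mem_filter.1 hfg).2
        exact Finset.mem_filter.2 ⟨Finset.mem_univ _, swap_le σ e e' hsc f g this⟩
      · intro heq
        have : (e', e) ∈ univ.filter (fun p : E × E => (σ * Equiv.swap e e').SameCycle p.1 p.2) := by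
          rw [heq]
          exact Finset.mem_filter.2 ⟨Finset.mem_univ _, hsc.symm⟩
        exact swap_not σ e e' hsc hee' (Finset.mem_filter.1 this).2
    omega
  have hσne : ∀ e, σ e ≠ e := by
    intro e h
    have := (hσ e).1
    rw [h] at this
    exact hloop e this
  refine ⟨fun v e f => (hd e = v ∧ f = σ e) ∨ (tl e = v ∧ e = σ f), fun e => {f | σ.SameCycle e f},
    ?_, ?_, ?_, ?_, ?_, ?_, ?_⟩
  · rintro v e f (⟨h1, h2⟩ | ⟨h1, h2⟩)
    · right
      refine ⟨?_, h2⟩
      rw [h2, (hσ e).1, h1]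
    · left
      refine ⟨?_, h2⟩
      rw [← (hσ f).1, ← h2, h1]
  · rintro v e f (⟨h1, h2⟩ | ⟨h1, h2⟩)
    · exact ⟨Or.inr h1.symm, fun h => hσne e (by rw [← h2, h])⟩
    · exact ⟨Or.inl h1.symm, fun h => hσne f (by rw [← h2, h])⟩
  · rintro v e (h | h)
    · exact ⟨σ.symm e, Or.inr ⟨h.symm, by simp⟩⟩
    · exact ⟨σ e, Or.inl ⟨h.symm, rfl⟩⟩
  · rintro v e f f' (⟨h1, h2⟩ | ⟨h1, h2⟩) (⟨h3, h4⟩ | ⟨h3, h4⟩)
    · rw [h2, h4]
    · exact absurd (h3.trans h1.symm) (hloop e)
    · exact absurd (h1.trans h3.symm) (hloop e)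
    · exact σ.injective (h2.symm.trans h4)
  · rintro v e f h
    have : σ.SameCycle e f := by
      rcases h with ⟨h1, h2⟩ | ⟨h1, h2⟩
      · rw [h2]; exact ⟨1, by simp⟩
      · rw [h2]; exact Equiv.Perm.SameCycle.symm ⟨1, by simp⟩
    ext g
    exact ⟨fun h => this.symm.trans h, fun h => this.trans h⟩
  · intro v e f he hf hc
    have hsc : σ.SameCycle e f := by
      have h1 : f ∈ {g | σ.SameCycle f g} := Equiv.Perm.SameCycle.refl σ f
      have h2 : {g | σ.SameCycle e g} = {g | σ.SameCycle f g} := hc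
      rw [← h2] at h1
      exact h1
    have hss : ∀ x, σ.SameCycle x (σ x) := fun x => ⟨1, by simp⟩
    have hsi : ∀ x, σ.SameCycle (σ.symm x) x := fun x => ⟨1, by simp⟩
    have hhd : ∀ x, hd (σ.symm x) = tl x := by
      intro x
      rw [← (hσ (σ.symm x)).1]; simp
    rcases he with he | he <;> rcases hf with hf | hf
    · -- both tails
      by_cases h : σ.symm e = σ.symm f
      · left; exact σ.symm.injective h
      · exfalso
        refine key _ _ h ?_ (((hsi e).trans hsc).trans (hsi f).symm)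
        rw [hhd, hhd, ← he, ← hf]
    · -- e tail, f head: f = σ.symm e
      by_cases h : σ.symm e = f
      · right; right
        exact ⟨he.symm, by rw [← h]; simp⟩
      · exfalso
        refine key _ _ h ?_ ((hsi e).trans hsc)
        rw [hhd, ← he, ← hf]
    · by_cases h : σ.symm f = e
      · right; left
        exact ⟨he.symm, by rw [← h]; simp⟩
      · exfalso
        refine key _ _ h ?_ ((hsi f).trans hsc.symm)
        rw [hhd, ← he, ← hf]
    · by_cases h : e = f
      · left; exact h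
      · exact absurd hsc (key _ _ h (by rw [← he, ← hf]))
  · rintro v e f (⟨h1, h2⟩ | ⟨h1, h2⟩)
    · left
      refine ⟨h1, ?_, ?_⟩
      · rw [h2, (hσ e).1, h1]
      · rw [h2, (hσ e).2]
    · right
      refine ⟨h1, ?_, ?_⟩
      · rw [← (hσ f).1, ← h2, h1]
      · rw [h2, (hσ f).2]

end Pool.Agent.Helper45.CCD
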