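import Mathlib

set_option autoImplicit false
set_option linter.all false
set_option synthInstance.maxSize 4000

namespace Pool.Agent.Helper45.CCD

abbrev G4 : Type := ZMod 2 × ZMod 2

/-- rotation of the three nonzero elements -/
def rho (x : G4) : G4 := (x.2, x.1 + x.2)

def tri (p0 p1 p2 : G4) (j : Fin 3) : G4 := if j = 0 then p0 else if j = 1 then p1 else p2

/-- class of the line graph edge opposite to `j` -/
def kap (p0 p1 p2 g : G4) (j : Fin 3) : G4 :=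
  if p0 ≠ 0 ∧ p1 ≠ 0 then tri p0 p1 p2 j else if tri p0 p1 p2 j = 0 then g + p2 else g

/-- sign of the direct track -/
def sgn (p0 p1 p2 g : G4) : Bool :=
  if p0 ≠ 0 then decide (kap p0 p1 p2 g 2 = rho (rho p0)) else decide (kap p0 p1 p2 g 2 = rho p1)

theorem LK : ∀ p0 p1 p2 g : G4, p0 + p1 + p2 = 0 → p2 ≠ 0 → g ≠ 0 → g ≠ p2 →
    ∀ i j : Fin 3, tri p0 p1 p2 i ≠ 0 → j ≠ i →
      kap p0 p1 p2 g j ≠ 0 ∧ kap p0 p1 p2 g j ≠ tri p0 p1 p2 i ∧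
      ∀ k : Fin 3, k ≠ i → k ≠ j → kap p0 p1 p2 g j ≠ kap p0 p1 p2 g k := by
  decide +kernel

theorem LZ : ∀ p0 p1 p2 g : G4, p0 + p1 + p2 = 0 → p2 ≠ 0 → g ≠ 0 → g ≠ p2 →
    ∀ i j k : Fin 3, tri p0 p1 p2 i = 0 → j ≠ i → k ≠ i →
      kap p0 p1 p2 g j = kap p0 p1 p2 g k := by
  decide +kernel

theorem LN : ∀ p0 p1 p2 g : G4, p0 + p1 + p2 = 0 → p2 ≠ 0 → g ≠ 0 → g ≠ p2 →
    ∀ j : Fin 3, kap p0 p1 p2 g j ≠ 0 := by
  decide +kernel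

/-- arriving at the out dart -/
theorem LA : ∀ p0 p1 p2 g : G4, p0 + p1 + p2 = 0 → p2 ≠ 0 → g ≠ 0 → g ≠ p2 → p1 ≠ 0 →
    ∀ j : Fin 3, j ≠ 1 → (if j = 2 then sgn p0 p1 p2 g else !sgn p0 p1 p2 g) =
      decide (kap p0 p1 p2 g j = rho p1) := by
  decide +kernel

/-- leaving the in dart -/
theorem LL : ∀ p0 p1 p2 g : G4, p0 + p1 + p2 = 0 → p2 ≠ 0 → g ≠ 0 → g ≠ p2 → p0 ≠ 0 →
    ∀ j : Fin 3, j ≠ 0 → (if j = 2 then sgn p0 p1 p2 g else !sgn p0 p1 p2 g) =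
      decide (kap p0 p1 p2 g j = rho (rho p0)) := by
  decide +kernel

theorem LDreg : ∀ p0 p1 p2 g : G4, p0 + p1 + p2 = 0 → p2 ≠ 0 → g ≠ 0 → g ≠ p2 →
    (p0 ≠ 0 ∧ p1 ≠ 0) → (!sgn p0 p1 p2 g) = decide (kap p0 p1 p2 g 1 = rho p2) := by
  decide +kernel

theorem LDirr : ∀ p0 p1 p2 g : G4, p0 + p1 + p2 = 0 → p2 ≠ 0 → g ≠ 0 → g ≠ p2 →
    ¬ (p0 ≠ 0 ∧ p1 ≠ 0) → sgn p0 p1 p2 g = decide (kap p0 p1 p2 g 1 = rho p2) := by
  decide +kernel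

/-- the two classes -/
theorem two_classes : ∀ x α : G4, α ≠ 0 → x ≠ 0 → x ≠ α → x = rho α ∨ x = rho (rho α) := by
  decide +kernel

theorem rho_ne : ∀ α : G4, α ≠ 0 → rho α ≠ rho (rho α) := by decide +kernel

theorem pigeon : ∀ α x y z : G4, α ≠ 0 → x ≠ 0 → x ≠ α → y ≠ 0 → y ≠ α → z ≠ 0 → z ≠ α →
    y ≠ z → x = y ∨ x = z := by decide +kernel

/-- sign of a regular vertex -/
def sreg (p0 p2 : G4) : Bool := decide (p2 = rho (rho p0))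

theorem sgn_reg : ∀ p0 p1 p2 g : G4, (p0 ≠ 0 ∧ p1 ≠ 0) → sgn p0 p1 p2 g = sreg p0 p2 := by
  decide +kernel

/-- choice of the free class at an irregular vertex -/
def gam (p0 p2 : G4) (D : Bool) : G4 :=
  if p0 ≠ 0 then (if D then rho (rho p2) else rho p2) else (if D then rho p2 else rho (rho p2))

theorem gam_ok : ∀ p0 p2 : G4, ∀ D : Bool, p2 ≠ 0 → gam p0 p2 D ≠ 0 ∧ gam p0 p2 D ≠ p2 := by
  decide +kernel

theorem sgn_irr : ∀ p0 p1 p2 : G4, ∀ D : Bool, p0 + p1 + p2 = 0 → p2 ≠ 0 →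
    ¬ (p0 ≠ 0 ∧ p1 ≠ 0) → sgn p0 p1 p2 (gam p0 p2 D) = D := by
  decide +kernel

theorem tri_eq {α : Type*} (f : α → G4) (x : Fin 3 → α) (i : Fin 3) :
    tri (f (x 0)) (f (x 1)) (f (x 2)) i = f (x i) := by
  fin_cases i <;> rfl

end Pool.Agent.Helper45.CCD
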