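import Mathlib
import Pool.Agent.Helper45.CCD.Local
import Pool.Agent.Helper45.CCD.Dir
import Pool.Agent.Helper45.CCD.Circ

set_option autoImplicit false
set_option linter.all false

open Finset

namespace Pool.Agent.Helper45.CCD

theorem fin3_third : ∀ i j : Fin 3, i ≠ j → ∃ k : Fin 3, k ≠ i ∧ k ≠ j := by decide
theorem fin3_uniq : ∀ i j k l : Fin 3, i ≠ j → k ≠ i → k ≠ j → l ≠ i → l ≠ j → k = l := by decide
theorem fin3_other : ∀ i : Fin 3, i + 1 ≠ i ∧ i + 2 ≠ i ∧ i + 1 ≠ i + 2 := by decide
theorem fin3_ne : ∀ i j : Fin 3, i ≠ j → i = j + 1 ∨ i = j + 2 := by decide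

/-- the transition relation of the three colour classes -/
def T2 {W X : Type*} (inc : W → Fin 3 → X) (θ : W × Fin 3 → W × Fin 3) (φ : X → G4)
    (κ : W → Fin 3 → G4) (v : X) (e f : W × Fin 3) : Prop :=
  ∃ i i' : Fin 3, i ≠ e.2 ∧ i' ≠ f.2 ∧ inc e.1 i = v ∧ inc f.1 i' = v ∧
    ((φ v = 0 ∧ f.1 = e.1 ∧ i' = i ∧ f.2 ≠ e.2) ∨
      (φ v ≠ 0 ∧ (f.1, i') = θ (e.1, i) ∧ κ f.1 f.2 = κ e.1 e.2))

/-- tail darts -/
def tld {W : Type*} (KV : W → Bool) (e : W × Fin 3) : Fin 3 :=
  if KV e.1 then (if e.2 = 0 then 2 else 0) else e.2 + 1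

/-- head darts -/
def hdd {W : Type*} (KV : W → Bool) (e : W × Fin 3) : Fin 3 :=
  if KV e.1 then (if e.2 = 1 then 2 else 1) else e.2 + 2

theorem tld_aux : ∀ (b : Bool) (j : Fin 3),
    (if b = true then (if j = 0 then 2 else 0) else j + 1 : Fin 3) ≠ j := by decide
theorem hdd_aux : ∀ (b : Bool) (j : Fin 3),
    (if b = true then (if j = 1 then 2 else 1) else j + 2 : Fin 3) ≠ j := by decide
theorem th_aux : ∀ (b : Bool) (j : Fin 3),
    (if b = true then (if j = 0 then 2 else 0) else j + 1 : Fin 3) ≠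
    (if b = true then (if j = 1 then 2 else 1) else j + 2 : Fin 3) := by decide

theorem tld_ne {W : Type*} (KV : W → Bool) (e : W × Fin 3) : tld KV e ≠ e.2 :=
  tld_aux (KV e.1) e.2

theorem hdd_ne {W : Type*} (KV : W → Bool) (e : W × Fin 3) : hdd KV e ≠ e.2 :=
  hdd_aux (KV e.1) e.2

theorem tld_hdd {W : Type*} (KV : W → Bool) (e : W × Fin 3) : tld KV e ≠ hdd KV e :=
  th_aux (KV e.1) e.2

section core

variable {W X : Type*} [Fintype W] [DecidableEq W] [Fintype X] [DecidableEq X]

theorem core (inc : W → Fin 3 → X) (hinj : ∀ w, Function.Injective (inc w))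
    (θ : W × Fin 3 → W × Fin 3) (hθθ : ∀ d, θ (θ d) = d)
    (hθinc : ∀ d, inc (θ d).1 (θ d).2 = inc d.1 d.2) (hθne : ∀ d, (θ d).1 ≠ d.1)
    (hθ2 : ∀ d d' : W × Fin 3, inc d.1 d.2 = inc d'.1 d'.2 → d' = d ∨ d' = θ d)
    (K : X → Bool) (hK2 : ∀ w, K (inc w 2) = false) (hK01 : ∀ w, K (inc w 0) = K (inc w 1))
    (hθ0 : ∀ w, K (inc w 0) = true → (θ (w, 0)).2 = 1)
    (hθ1 : ∀ w, K (inc w 0) = true → (θ (w, 1)).2 = 0)
    (φ : X → G4) (hφ : ∀ w, φ (inc w 0) + φ (inc w 1) + φ (inc w 2) = 0)
    (hφK : ∀ x, φ x = 0 → K x = true)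
    (hmin : ∀ (w : W) (i : Fin 3), φ (inc w i) = 0 → ∀ γ : G4, γ ≠ 0 →
      ¬ Relation.ReflTransGen (fun u v => ∃ i, φ (inc u i) ≠ 0 ∧ φ (inc u i) ≠ γ ∧ v = (θ (u, i)).1)
        w (θ (w, i)).1)
    (ends : W × Fin 3 → Sym2 X)
    (hends : ∀ w j, ends (w, j) = s(inc w (j + 1), inc w (j + 2))) :
    ∃ (T₁ T₂ : X → W × Fin 3 → W × Fin 3 → Prop) (c₁ : W × Fin 3 → Set (W × Fin 3))
      (c₂ : W × Fin 3 → G4 × Set W), Trans ends T₁ c₁ ∧ Trans ends T₂ c₂ ∧
        ∀ v e f, T₁ v e f → ¬ T₂ v e f := by
  classical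
  -- membership in ends
  have hmem : ∀ (v : X) (e : W × Fin 3), v ∈ ends e ↔ ∃ i, i ≠ e.2 ∧ inc e.1 i = v := by
    rintro v ⟨w, j⟩
    rw [hends, Sym2.mem_iff]
    constructor
    · rintro (h | h)
      · exact ⟨j + 1, (fin3_other j).1, h.symm⟩
      · exact ⟨j + 2, (fin3_other j).2.1, h.symm⟩
    · rintro ⟨i, hi, h⟩
      rcases fin3_ne i j hi with h1 | h1
      · left; rw [← h, h1]
      · right; rw [← h, h1]
  -- basic quantities
  have hp2 : ∀ w, φ (inc w 2) ≠ 0 := by
    intro w h
    have := hφK _ h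
    rw [hK2] at this
    exact absurd this (by decide)
  let reg : W → Prop := fun w => φ (inc w 0) ≠ 0 ∧ φ (inc w 1) ≠ 0
  let Sr : W → Bool := fun w => sreg (φ (inc w 0)) (φ (inc w 2))
  let D : W → Bool := fun w => !(Sr (θ (w, 2)).1)
  let g : W → G4 := fun w => gam (φ (inc w 0)) (φ (inc w 2)) (D w)
  have hg : ∀ w, g w ≠ 0 ∧ g w ≠ φ (inc w 2) := fun w => gam_ok _ _ _ (hp2 w)
  let κ : W → Fin 3 → G4 := fun w j => kap (φ (inc w 0)) (φ (inc w 1)) (φ (inc w 2)) (g w) j
  let Sg : W → Bool := fun w => sgn (φ (inc w 0)) (φ (inc w 1)) (φ (inc w 2)) (g w)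
  have hSgreg : ∀ w, reg w → Sg w = Sr w := fun w h => sgn_reg _ _ _ _ h
  have hSgirr : ∀ w, ¬ reg w → Sg w = D w := fun w h => sgn_irr _ _ _ _ (hφ w) (hp2 w) h
  have κK : ∀ w i j, φ (inc w i) ≠ 0 → j ≠ i → κ w j ≠ 0 ∧ κ w j ≠ φ (inc w i) ∧
      ∀ k, k ≠ i → k ≠ j → κ w j ≠ κ w k := by
    intro w i j h1 h2
    have := LK _ _ _ _ (hφ w) (hp2 w) (hg w).1 (hg w).2 i j
    rw [tri_eq φ (inc w) i] at this
    exact this h1 h2
  have κZ : ∀ w i j k, φ (inc w i) = 0 → j ≠ i → k ≠ i → κ w j = κ w k := by
    intro w i j k h1 h2 h3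
    have := LZ _ _ _ _ (hφ w) (hp2 w) (hg w).1 (hg w).2 i j k
    rw [tri_eq φ (inc w) i] at this
    exact this h1 h2 h3
  have κN : ∀ w j, κ w j ≠ 0 := fun w j => LN _ _ _ _ (hφ w) (hp2 w) (hg w).1 (hg w).2 j
  let KV : W → Bool := fun w => K (inc w 0)
  have hKVi : ∀ w i, K (inc w i) = true → KV w = true ∧ (i = 0 ∨ i = 1) := by
    intro w i h
    fin_cases i
    · exact ⟨h, Or.inl rfl⟩
    · refine ⟨?_, Or.inr rfl⟩
      show K (inc w 0) = true
      rw [hK01]; exact h
    · have h' : K (inc w 2) = true := h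
      rw [hK2] at h'
      exact absurd h' (by decide)
  -- the other dart
  have hdart : ∀ (v : X) (w w' : W) (i i' : Fin 3), inc w i = v → inc w' i' = v →
      ((w', i') = (w, i)) ∨ ((w', i') = θ (w, i)) := by
    intro v w w' i i' h h'
    exact hθ2 (w, i) (w', i') (by rw [h, h'])
  -- T2
  let T := T2 inc θ φ κ
  have T_sym : ∀ v e f, T v e f → T v f e := by
    rintro v e f ⟨i, i', h1, h2, h3, h4, h5⟩
    refine ⟨i', i, h2, h1, h4, h3, ?_⟩
    rcases h5 with ⟨h5, h6, h7, h8⟩ | ⟨h5, h6, h7⟩
    · exact Or.inl ⟨h5, h6.symm, h7.symm, h8.symm⟩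
    · refine Or.inr ⟨h5, ?_, h7.symm⟩
      rw [h6, hθθ]
  have T_inc : ∀ v e f, T v e f → v ∈ ends e ∧ e ≠ f := by
    rintro v e f ⟨i, i', h1, h2, h3, h4, h5⟩
    refine ⟨(hmem v e).2 ⟨i, h1, h3⟩, ?_⟩
    rcases h5 with ⟨h5, h6, h7, h8⟩ | ⟨h5, h6, h7⟩
    · intro h; exact h8 (by rw [h])
    · intro h
      have h8 := hθne (e.1, i)
      rw [← h6] at h8
      exact h8 (by rw [h])
  have T_ex : ∀ v e, v ∈ ends e → ∃ f, T v e f := by
    intro v e hv
    obtain ⟨i, hi, hiv⟩ := (hmem v e).1 hv
    by_cases hz : φ v = 0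
    · obtain ⟨k, hk1, hk2⟩ := fin3_third i e.2 hi
      exact ⟨(e.1, k), i, i, hi, hk1.symm, hiv, hiv, Or.inl ⟨hz, rfl, rfl, hk2⟩⟩
    · obtain ⟨w', i'⟩ : W × Fin 3 := θ (e.1, i)
      have hd : ((θ (e.1, i)).1, (θ (e.1, i)).2) = θ (e.1, i) := rfl
      set w' := (θ (e.1, i)).1 with hw'
      set i' := (θ (e.1, i)).2 with hi'
      have hiv' : inc w' i' = v := by
        rw [← hiv]; exact hθinc (e.1, i)
      have hz1 : φ (inc e.1 i) ≠ 0 := by rw [hiv]; exact hz
      have hz2 : φ (inc w' i') ≠ 0 := by rw [hiv']; exact hz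
      obtain ⟨a1, a2, _⟩ := κK e.1 i e.2 hz1 hi.symm
      obtain ⟨b1, b2, b3⟩ := κK w' i' (i' + 1) hz2 (fin3_other i').1
      obtain ⟨c1, c2, _⟩ := κK w' i' (i' + 2) hz2 (fin3_other i').2.1
      have b4 := b3 (i' + 2) (fin3_other i').2.1 (fin3_other i').2.2.symm
      rw [hiv] at a2
      rw [hiv'] at b2 c2
      rcases pigeon (φ v) _ _ _ hz a1 a2 b1 b2 c1 c2 b4 with h | h
      · exact ⟨(w', i' + 1), i, i', hi, (fin3_other i').1.symm, hiv, hiv', Or.inr ⟨hz, hd, h.symm⟩⟩
      · exact ⟨(w', i' + 2), i, i', hi, (fin3_other i').2.1.symm, hiv, hiv', Or.inr ⟨hz, hd, h.symm⟩⟩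
  have T_uniq : ∀ v e f f', T v e f → T v e f' → f = f' := by
    rintro v e f f' ⟨i, i', h1, h2, h3, h4, h5⟩ ⟨k, k', g1, g2, g3, g4, g5⟩
    have hik : i = k := hinj e.1 (by rw [h3, g3])
    subst hik
    rcases h5 with ⟨h5, h6, h7, h8⟩ | ⟨h5, h6, h7⟩ <;> rcases g5 with ⟨g5, g6, g7, g8⟩ | ⟨g5, g6, g7⟩
    · refine Prod.ext (by rw [h6, g6]) ?_
      subst h7; subst g7
      exact fin3_uniq _ _ _ _ h1 h2.symm h8 g2.symm g8
    · exact absurd h5 g5
    · exact absurd g5 h5
    · have h8 : (f.1, i') = (f'.1, k') := by rw [h6, g6]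
      have h9 : f.1 = f'.1 := (Prod.ext_iff.1 h8).1
      have h10 : i' = k' := (Prod.ext_iff.1 h8).2
      refine Prod.ext h9 ?_
      by_contra hne
      have hz : φ (inc f.1 i') ≠ 0 := by rw [h4]; exact h5
      have := (κK f.1 i' f.2 hz h2.symm).2.2 f'.2 (by rw [h10]; exact g2.symm) (fun h => hne h.symm)
      apply this
      rw [h7]
      have : κ f.1 f'.2 = κ f'.1 f'.2 := by rw [h9]
      rw [this, g7]
  -- components
  let RW : G4 → W → W → Prop := fun γ => Relation.ReflTransGen
    (fun u v => ∃ i, φ (inc u i) ≠ 0 ∧ φ (inc u i) ≠ γ ∧ v = (θ (u, i)).1)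
  have RWstep : ∀ γ u i, φ (inc u i) ≠ 0 → φ (inc u i) ≠ γ → RW γ u (θ (u, i)).1 :=
    fun γ u i h1 h2 => Relation.ReflTransGen.single ⟨i, h1, h2, rfl⟩
  have RWsym : ∀ γ u v, RW γ u v → RW γ v u := by
    intro γ u v h
    induction h with
    | refl => exact Relation.ReflTransGen.refl
    | @tail u' v' _ h2 ih =>
      obtain ⟨i, h3, h4, rfl⟩ := h2
      refine Relation.ReflTransGen.head ⟨(θ (u', i)).2, ?_, ?_, ?_⟩ ih
      · rw [hθinc]; exact h3
      · rw [hθinc]; exact h4
      · show u' = (θ (θ (u', i))).1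
        rw [hθθ]
  let c2 : W × Fin 3 → G4 × Set W := fun e => (κ e.1 e.2, {u | RW (κ e.1 e.2) e.1 u})
  have T_c : ∀ v e f, T v e f → c2 e = c2 f := by
    rintro v e f ⟨i, i', h1, h2, h3, h4, h5⟩
    rcases h5 with ⟨h5, h6, h7, h8⟩ | ⟨h5, h6, h7⟩
    · have hk : κ e.1 e.2 = κ f.1 f.2 := by
        rw [h6]
        apply κZ e.1 i e.2 f.2
        · rw [h3]; exact h5
        · exact h1.symm
        · rw [← h7]; exact h2.symm
      show (κ e.1 e.2, {u | RW (κ e.1 e.2) e.1 u}) = (κ f.1 f.2, {u | RW (κ f.1 f.2) f.1 u})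
      rw [← hk, h6]
    · have hz : φ (inc e.1 i) ≠ 0 := by rw [h3]; exact h5
      have hr : RW (κ e.1 e.2) e.1 f.1 := by
        have h8 := RWstep (κ e.1 e.2) e.1 i hz ((κK e.1 i e.2 hz h1.symm).2.1.symm)
        rw [← h6] at h8
        exact h8
      show (κ e.1 e.2, {u | RW (κ e.1 e.2) e.1 u}) = (κ f.1 f.2, {u | RW (κ f.1 f.2) f.1 u})
      rw [h7]
      refine Prod.ext rfl ?_
      ext u
      exact ⟨fun h => Relation.ReflTransGen.trans (RWsym _ _ _ hr) h,
        fun h => Relation.ReflTransGen.trans hr h⟩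
  have T_sep : ∀ v e f, v ∈ ends e → v ∈ ends f → c2 e = c2 f → e = f ∨ T v e f := by
    intro v e f he hf hc
    obtain ⟨i, hi, hiv⟩ := (hmem v e).1 he
    obtain ⟨i', hi', hiv'⟩ := (hmem v f).1 hf
    have hk : κ e.1 e.2 = κ f.1 f.2 := congrArg Prod.fst hc
    have hset : {u | RW (κ e.1 e.2) e.1 u} = {u | RW (κ f.1 f.2) f.1 u} := congrArg Prod.snd hc
    rcases hdart v e.1 f.1 i i' hiv hiv' with h | h
    · have h1 : f.1 = e.1 := (Prod.ext_iff.1 h).1
      have h2 : i' = i := (Prod.ext_iff.1 h).2
      by_cases hj : f.2 = e.2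
      · left; exact Prod.ext h1.symm hj.symm
      · right
        by_cases hz : φ v = 0
        · exact ⟨i, i', hi, hi', hiv, hiv', Or.inl ⟨hz, h1, h2, hj⟩⟩
        · exfalso
          have hz1 : φ (inc e.1 i) ≠ 0 := by rw [hiv]; exact hz
          have := (κK e.1 i e.2 hz1 hi.symm).2.2 f.2 (by rw [← h2]; exact hi'.symm) hj
          apply this
          rw [hk, h1]
    · right
      by_cases hz : φ v = 0
      · exfalso
        have h1 : f.1 ∈ {u | RW (κ e.1 e.2) e.1 u} := by
          rw [hset]; exact Relation.ReflTransGen.refl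
        have h2 : f.1 = (θ (e.1, i)).1 := (Prod.ext_iff.1 h).1
        rw [h2] at h1
        exact hmin e.1 i (by rw [hiv]; exact hz) (κ e.1 e.2) (κN _ _) h1
      · exact ⟨i, i', hi, hi', hiv, hiv', Or.inr ⟨hz, h, hk.symm⟩⟩
  -- directed structure
  let tl : W × Fin 3 → X := fun e => inc e.1 (tld KV e)
  let hd : W × Fin 3 → X := fun e => inc e.1 (hdd KV e)
  have hloop : ∀ e, tl e ≠ hd e := fun e h => tld_hdd KV e (hinj e.1 h)
  have hmem2 : ∀ v e, v ∈ ends e ↔ (v = tl e ∨ v = hd e) := by
    intro v e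
    rw [hmem]
    constructor
    · rintro ⟨i, hi, hiv⟩
      by_cases h : i = tld KV e
      · left; rw [← hiv, h]
      · right
        rw [← hiv]
        show inc e.1 i = inc e.1 (hdd KV e)
        rw [fin3_uniq (tld KV e) e.2 i (hdd KV e) (tld_ne KV e) h hi (tld_hdd KV e).symm (hdd_ne KV e)]
    · rintro (h | h)
      · exact ⟨tld KV e, tld_ne KV e, h.symm⟩
      · exact ⟨hdd KV e, hdd_ne KV e, h.symm⟩
  let sg : W × Fin 3 → Bool := fun e => if e.2 = 2 then Sg e.1 else !Sg e.1
  let s : W × Fin 3 → W ⊕ Bool := fun e => if KV e.1 then Sum.inr (sg e) else Sum.inl e.1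
  -- the starting permutation
  let nx : W × Fin 3 → W × Fin 3 := fun e =>
    if KV e.1 then
      (if e.2 = 1 then (e.1, 0)
        else ((θ (e.1, 1)).1, if Sg (θ (e.1, 1)).1 = sg e then 2 else 1))
    else (e.1, e.2 + 1)
  let pv : W × Fin 3 → W × Fin 3 := fun e =>
    if KV e.1 then
      (if e.2 = 0 then (e.1, 1)
        else ((θ (e.1, 0)).1, if Sg (θ (e.1, 0)).1 = sg e then 2 else 0))
    else (e.1, e.2 + 2)
  have hKVθ1 : ∀ w, KV w = true → KV (θ (w, 1)).1 = true ∧ θ (w, 1) = ((θ (w, 1)).1, 0) := by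
    intro w h
    have h1 : θ (w, 1) = ((θ (w, 1)).1, 0) := Prod.ext rfl (hθ1 w h)
    refine ⟨?_, h1⟩
    have h2 := hθinc (w, 1)
    show K (inc (θ (w, 1)).1 0) = true
    have h3 : (θ (w, 1)).2 = 0 := hθ1 w h
    rw [h3] at h2
    rw [h2]
    show K (inc w 1) = true
    rw [← hK01]; exact h
  have hKVθ0 : ∀ w, KV w = true → KV (θ (w, 0)).1 = true ∧ θ (w, 0) = ((θ (w, 0)).1, 1) := by
    intro w h
    have h1 : θ (w, 0) = ((θ (w, 0)).1, 1) := Prod.ext rfl (hθ0 w h)
    refine ⟨?_, h1⟩
    have h2 := hθinc (w, 0)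
    show K (inc (θ (w, 0)).1 0) = true
    have h3 : (θ (w, 0)).2 = 1 := hθ0 w h
    rw [h3] at h2
    rw [hK01, h2]
    exact h
  have hpn : ∀ e, pv (nx e) = e := by
    rintro ⟨w, j⟩
    by_cases h : KV w = true
    · by_cases hj : j = 1
      · subst hj
        have e1 : nx (w, 1) = (w, 0) := by simp only [nx, h, if_true]
        rw [e1]
        simp only [pv, h, if_true]
      · obtain ⟨h1, h2⟩ := hKVθ1 w h
        set w' := (θ (w, 1)).1 with hw'
        have e1 : nx (w, j) = (w', if Sg w' = sg (w, j) then 2 else 1) := by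
          simp only [nx, h, if_true, if_neg hj, ← hw']
        have h3 : (θ (w', 0)).1 = w := by
          rw [← h2, hθθ]
        rw [e1]
        by_cases hs : Sg w' = sg (w, j)
        · rw [if_pos hs]
          have e2 : pv (w', 2) = ((θ (w', 0)).1, if Sg (θ (w', 0)).1 = sg (w', 2) then 2 else 0) := by
            simp only [pv, h1, if_true]; rfl
          rw [e2, h3]
          have e3 : sg (w', 2) = Sg w' := rfl
          rw [e3, hs]
          refine Prod.ext rfl ?_
          show (if Sg w = sg (w, j) then (2 : Fin 3) else 0) = j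
          fin_cases j
          · have : sg (w, 0) = !Sg w := rfl
            show (if Sg w = sg (w, 0) then (2 : Fin 3) else 0) = 0
            rw [this]; cases Sg w <;> rfl
          · exact absurd rfl hj
          · have : sg (w, 2) = Sg w := rfl
            show (if Sg w = sg (w, 2) then (2 : Fin 3) else 0) = 2
            rw [this]; simp
        · rw [if_neg hs]
          have e2 : pv (w', 1) = ((θ (w', 0)).1, if Sg (θ (w', 0)).1 = sg (w', 1) then 2 else 0) := by
            simp only [pv, h1, if_true]; rfl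
          rw [e2, h3]
          have e3 : sg (w', 1) = !Sg w' := rfl
          have e4 : sg (w, j) = !Sg w' := by
            revert hs; cases Sg w' <;> cases sg (w, j) <;> decide
          rw [e3, ← e4]
          refine Prod.ext rfl ?_
          show (if Sg w = sg (w, j) then (2 : Fin 3) else 0) = j
          fin_cases j
          · have : sg (w, 0) = !Sg w := rfl
            show (if Sg w = sg (w, 0) then (2 : Fin 3) else 0) = 0
            rw [this]; cases Sg w <;> rfl
          · exact absurd rfl hj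
          · have : sg (w, 2) = Sg w := rfl
            show (if Sg w = sg (w, 2) then (2 : Fin 3) else 0) = 2
            rw [this]; simp
    · have e1 : nx (w, j) = (w, j + 1) := by simp only [nx, if_neg h]
      rw [e1]
      have e2 : pv (w, j + 1) = (w, j + 1 + 2) := by simp only [pv, if_neg h]
      rw [e2]
      refine Prod.ext rfl ?_
      show j + 1 + 2 = j
      fin_cases j <;> rfl
  have hnxinj : Function.Injective nx := Function.LeftInverse.injective hpn
  let σ0 : Equiv.Perm (W × Fin 3) := Equiv.ofBijective nx (Finite.injective_iff_bijective.1 hnxinj)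
  have hσ0 : ∀ e, tl (σ0 e) = hd e ∧ s (σ0 e) = s e := by
    rintro ⟨w, j⟩
    show tl (nx (w, j)) = hd (w, j) ∧ s (nx (w, j)) = s (w, j)
    by_cases h : KV w = true
    · by_cases hj : j = 1
      · subst hj
        have e1 : nx (w, 1) = (w, 0) := by simp only [nx, h, if_true]
        rw [e1]
        constructor
        · simp only [tl, hd, tld, hdd, h, if_true]
        · simp only [s, sg, h, if_true]
          rfl
      · obtain ⟨h1, h2⟩ := hKVθ1 w h
        set w' := (θ (w, 1)).1 with hw'
        have e1 : nx (w, j) = (w', if Sg w' = sg (w, j) then 2 else 1) := by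
          simp only [nx, h, if_true, if_neg hj, ← hw']
        have h4 : hd (w, j) = inc w 1 := by
          simp only [hd, hdd, h, if_true, if_neg hj]
        have h5 : inc w' 0 = inc w 1 := by
          have := hθinc (w, 1)
          rw [h2] at this
          exact this
        rw [e1, h4]
        by_cases hs : Sg w' = sg (w, j)
        · rw [if_pos hs]
          constructor
          · simp only [tl, tld, h1, if_true]
            exact h5
          · simp only [s, h1, h, if_true]
            have e3 : sg (w', 2) = Sg w' := rfl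
            rw [e3, hs]
        · rw [if_neg hs]
          constructor
          · simp only [tl, tld, h1, if_true]
            exact h5
          · simp only [s, h1, h, if_true]
            have e3 : sg (w', 1) = !Sg w' := rfl
            have e4 : sg (w, j) = !Sg w' := by
              revert hs; cases Sg w' <;> cases sg (w, j) <;> decide
            rw [e3, e4]
    · have e1 : nx (w, j) = (w, j + 1) := by simp only [nx, if_neg h]
      rw [e1]
      constructor
      · simp only [tl, hd, tld, hdd, if_neg h]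
        congr 1
        fin_cases j <;> rfl
      · simp only [s, if_neg h]
  obtain ⟨T1, c1, t1, t2, t3, t4, t5, t6, t7⟩ := dir tl hd s hloop σ0 hσ0
  -- the key disjointness
  have hcond : ∀ v e f, hd e = v → tl f = v → s e = s f → T v e f → False := by
    rintro v e f he hf hs ⟨i, i', h1, h2, h3, h4, h5⟩
    have hi : hdd KV e = i := hinj e.1 (by rw [h3]; exact he)
    have hi' : tld KV f = i' := hinj f.1 (by rw [h4]; exact hf)
    rcases h5 with ⟨h5, h6, h7, h8⟩ | ⟨h5, h6, h7⟩
    · -- missing edge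
      have hKv := hφK v h5
      obtain ⟨hKV, hi01⟩ := hKVi e.1 i (by rw [h3]; exact hKv)
      unfold hdd at hi
      unfold tld at hi'
      rw [h6] at hi'
      rw [if_pos hKV] at hi hi'
      rw [h7] at hi'
      split_ifs at hi hi'
      all_goals first
        | (rw [← hi] at hi'; exact absurd hi' (by decide))
        | (rw [← hi] at hi01; exact absurd hi01 (by decide))
    · have hz1 : φ (inc e.1 i) ≠ 0 := by rw [h3]; exact h5
      have hz2 : φ (inc f.1 i') ≠ 0 := by rw [h4]; exact h5
      have hne : f.1 ≠ e.1 := by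
        have := hθne (e.1, i)
        rw [← h6] at this
        exact this
      have hφe : φ (inc e.1 i) = φ (inc f.1 i') := by rw [h3, h4]
      by_cases hKv : K v = true
      · obtain ⟨hKVe, hi01⟩ := hKVi e.1 i (by rw [h3]; exact hKv)
        obtain ⟨hKVf, hi01'⟩ := hKVi f.1 i' (by rw [h4]; exact hKv)
        have hi1 : i = 1 := by
          unfold hdd at hi
          rw [if_pos hKVe] at hi
          split_ifs at hi
          · rw [← hi] at hi01; exact absurd hi01 (by decide)
          · exact hi.symm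
        have hi0 : i' = 0 := by
          unfold tld at hi'
          rw [if_pos hKVf] at hi'
          split_ifs at hi'
          · rw [← hi'] at hi01'; exact absurd hi01' (by decide)
          · exact hi'.symm
        subst hi1; subst hi0
        have a1 := LA _ _ _ _ (hφ e.1) (hp2 e.1) (hg e.1).1 (hg e.1).2 hz1 e.2 h1.symm
        have a2 := LL _ _ _ _ (hφ f.1) (hp2 f.1) (hg f.1).1 (hg f.1).2 hz2 f.2 h2.symm
        have hs' : sg e = sg f := by
          have : (Sum.inr (sg e) : W ⊕ Bool) = Sum.inr (sg f) := by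
            have h9 : s e = Sum.inr (sg e) := by simp only [s, hKVe, if_true]
            have h10 : s f = Sum.inr (sg f) := by simp only [s, hKVf, if_true]
            rw [← h9, ← h10]; exact hs
          exact Sum.inr.inj this
        have a3 : decide (κ e.1 e.2 = rho (φ (inc e.1 1))) =
            decide (κ f.1 f.2 = rho (rho (φ (inc f.1 0)))) := by
          rw [← a1, ← a2]; exact hs'
        rw [h7, ← hφe] at a3
        obtain ⟨b1, b2, _⟩ := κK e.1 1 e.2 hz1 h1.symm
        rcases two_classes _ _ hz1 b1 b2 with h | h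
        · rw [h] at a3
          rw [decide_eq_true rfl, decide_eq_false (rho_ne _ hz1)] at a3
          exact absurd a3 (by decide)
        · rw [h] at a3
          rw [decide_eq_true (p := rho (rho (φ (inc e.1 1))) = rho (rho (φ (inc e.1 1)))) rfl,
            decide_eq_false (rho_ne _ hz1).symm] at a3
          exact absurd a3 (by decide)
      · -- third edges
        by_cases hKVe : KV e.1 = true
        · by_cases hKVf : KV f.1 = true
          · have hi2 : i = 2 := by
              fin_cases i
              · exfalso; apply hKv; rw [← h3]; exact hKVe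
              · exfalso; apply hKv; rw [← h3]; show K (inc e.1 1) = true; rw [← hK01]; exact hKVe
              · rfl
            have hi2' : i' = 2 := by
              fin_cases i'
              · exfalso; apply hKv; rw [← h4]; exact hKVf
              · exfalso; apply hKv; rw [← h4]; show K (inc f.1 1) = true; rw [← hK01]; exact hKVf
              · rfl
            subst hi2; subst hi2'
            have he2 : e.2 = 1 := by
              unfold hdd at hi
              rw [if_pos hKVe] at hi
              split_ifs at hi with h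
              · exact h
              · exact absurd hi (by decide)
            have hf2 : f.2 = 0 := by
              unfold tld at hi'
              rw [if_pos hKVf] at hi'
              split_ifs at hi' with h
              · exact h
              · exact absurd hi' (by decide)
            have hSS : Sg e.1 = Sg f.1 := by
              have : (Sum.inr (sg e) : W ⊕ Bool) = Sum.inr (sg f) := by
                have h9 : s e = Sum.inr (sg e) := by simp only [s, hKVe, if_true]
                have h10 : s f = Sum.inr (sg f) := by simp only [s, hKVf, if_true]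
                rw [← h9, ← h10]; exact hs
              have h11 := Sum.inr.inj this
              have h12 : sg e = !Sg e.1 := by
                simp only [sg]; rw [he2]; rfl
              have h13 : sg f = !Sg f.1 := by
                simp only [sg]; rw [hf2]; rfl
              rw [h12, h13] at h11
              revert h11
              cases Sg e.1 <;> cases Sg f.1 <;> decide
            rw [he2, hf2] at h7
            -- classes at f.1
            have hk1 := κK f.1 2 1 hz2 (by decide)
            have hk0 := κK f.1 2 0 hz2 (by decide)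
            have hke := κK e.1 2 1 hz1 (by decide)
            have h01 : κ f.1 0 ≠ κ f.1 1 := hk0.2.2 1 (by decide) (by decide)
            have hθf : (θ (f.1, 2)).1 = e.1 := by
              rw [h6, hθθ]
            have hθe : (θ (e.1, 2)).1 = f.1 := by rw [← h6]
            have key : decide (κ e.1 1 = rho (φ (inc e.1 2))) =
                decide (κ f.1 1 = rho (φ (inc f.1 2))) → False := by
              intro hd'
              rw [← hφe] at hd'
              have hk1' := hk1
              rw [← hφe] at hk1'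
              rcases two_classes _ _ hz1 hke.1 hke.2.1 with ha | ha <;>
                rcases two_classes _ _ hz1 hk1'.1 hk1'.2.1 with hb | hb
              · exact h01 (by rw [h7, ha, hb])
              · rw [ha, hb, decide_eq_true rfl, decide_eq_false (rho_ne _ hz1).symm] at hd'
                exact absurd hd' (by decide)
              · rw [ha, hb, decide_eq_false (rho_ne _ hz1).symm, decide_eq_true rfl] at hd'
                exact absurd hd' (by decide)
              · exact h01 (by rw [h7, ha, hb])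
            by_cases hre : reg e.1 <;> by_cases hrf : reg f.1
            · have a1 := LDreg _ _ _ _ (hφ e.1) (hp2 e.1) (hg e.1).1 (hg e.1).2 hre
              have a2 := LDreg _ _ _ _ (hφ f.1) (hp2 f.1) (hg f.1).1 (hg f.1).2 hrf
              apply key
              have a1' : (!Sg e.1) = decide (κ e.1 1 = rho (φ (inc e.1 2))) := a1
              have a2' : (!Sg f.1) = decide (κ f.1 1 = rho (φ (inc f.1 2))) := a2
              rw [← a1', ← a2', hSS]
            · have h9 := hSgirr f.1 hrf
              have h10 := hSgreg e.1 hre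
              have h11 : D f.1 = !(Sr (θ (f.1, 2)).1) := rfl
              rw [hθf] at h11
              rw [h9, h10, h11] at hSS
              revert hSS; cases Sr e.1 <;> decide
            · have h9 := hSgirr e.1 hre
              have h10 := hSgreg f.1 hrf
              have h11 : D e.1 = !(Sr (θ (e.1, 2)).1) := rfl
              rw [hθe] at h11
              rw [h9, h10, h11] at hSS
              revert hSS; cases Sr f.1 <;> decide
            · have a1 := LDirr _ _ _ _ (hφ e.1) (hp2 e.1) (hg e.1).1 (hg e.1).2 hre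
              have a2 := LDirr _ _ _ _ (hφ f.1) (hp2 f.1) (hg f.1).1 (hg f.1).2 hrf
              apply key
              have a1' : Sg e.1 = decide (κ e.1 1 = rho (φ (inc e.1 2))) := a1
              have a2' : Sg f.1 = decide (κ f.1 1 = rho (φ (inc f.1 2))) := a2
              rw [← a1', ← a2', hSS]
          · have h9 : s e = Sum.inr (sg e) := by simp only [s, hKVe, if_true]
            have h10 : s f = Sum.inl f.1 := by simp only [s, if_neg hKVf]
            rw [h9, h10] at hs
            exact absurd hs (by simp)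
        · by_cases hKVf : KV f.1 = true
          · have h9 : s e = Sum.inl e.1 := by simp only [s, if_neg hKVe]
            have h10 : s f = Sum.inr (sg f) := by simp only [s, hKVf, if_true]
            rw [h9, h10] at hs
            exact absurd hs (by simp)
          · have h9 : s e = Sum.inl e.1 := by simp only [s, if_neg hKVe]
            have h10 : s f = Sum.inl f.1 := by simp only [s, if_neg hKVf]
            rw [h9, h10] at hs
            exact hne (Sum.inl.inj hs).symm
  refine ⟨T1, T, c1, c2, ⟨t1, ?_, ?_, t4, t5, ?_⟩, ⟨T_sym, T_inc, T_ex, T_uniq, T_c, T_sep⟩, ?_⟩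
  · intro v e f h
    exact ⟨(hmem2 v e).2 (t2 v e f h).1, (t2 v e f h).2⟩
  · intro v e h
    exact t3 v e ((hmem2 v e).1 h)
  · intro v e f he hf hc
    exact t6 v e f ((hmem2 v e).1 he) ((hmem2 v f).1 hf) hc
  · intro v e f h1 h2
    rcases t7 v e f h1 with ⟨a1, a2, a3⟩ | ⟨a1, a2, a3⟩
    · exact hcond v e f a1 a2 a3 h2
    · exact hcond v f e a2 a1 a3.symm (T_sym _ _ _ h2)

end core

end Pool.Agent.Helper45.CCD
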