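import Mathlib
import Pool.Agent.Helper45.CCD.Bd

set_option autoImplicit false
set_option linter.all false

open Finset

namespace Pool.Agent.Helper45.CCD

variable {V E : Type*} [Fintype V] [DecidableEq V] [Fintype E] [DecidableEq E]

/-- two disjoint joins -/
def Two (a b : E → V) (A : E → Prop) (x y : V) : Prop :=
  ∃ P Q : E → ZMod 2, (∀ e, P e ≠ 0 → A e) ∧ (∀ e, Q e ≠ 0 → A e) ∧ (∀ e, P e ≠ 0 → Q e = 0) ∧
    bd a b P = dl x y ∧ bd a b Q = dl x y

theorem ne_zero_add {x y : E → ZMod 2} {e : E} (h : (x + y) e ≠ 0) : x e ≠ 0 ∨ y e ≠ 0 := by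
  by_contra hcon
  push Not at hcon
  apply h
  rw [Pi.add_apply, hcon.1, hcon.2, add_zero]

theorem single_ne {e f : E} (h : (Pi.single e (1 : ZMod 2) : E → ZMod 2) f ≠ 0) : f = e := by
  by_contra hne
  exact h (Pi.single_eq_of_ne hne 1)

theorem eq_one_of_ne {x : ZMod 2} (h : x ≠ 0) : x = 1 := by
  revert h x; decide

theorem dl_cancel (x y z : V) : dl x y + dl y z = dl x z := dl_add x y z

/-- One step: from `y` to `z` along the edge `e`. -/
theorem two_step (a b : E → V) (A : E → Prop) (B : Finset V) (hA : ∀ e, A e → a e ∈ B ∧ b e ∈ B)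
    (hcut : ∀ X : Finset V, X ⊆ B → X.Nonempty → X ≠ B → ∃ e f, e ≠ f ∧ A e ∧ A f ∧ cr a b X e ∧ cr a b X f)
    (x y z : V) (hx : x ∈ B) (hz : z ∈ B) (e : E) (he : A e) (hee : dl (a e) (b e) = dl y z)
    (hT : Two a b A x y) : Two a b A x z := by
  classical
  obtain ⟨P0, Q0, hPA0, hQA0, hPQ0, hP0, hQ0⟩ := hT
  obtain ⟨P, hPP, hP, _, hPr⟩ := good_join a b hP0
  obtain ⟨Q, hQQ, hQ, _, hQr⟩ := good_join a b hQ0
  have hPA : ∀ e, P e ≠ 0 → A e := fun e h => hPA0 e (hPP e h)
  have hQA : ∀ e, Q e ≠ 0 → A e := fun e h => hQA0 e (hQQ e h)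
  have hPQ : ∀ e, P e ≠ 0 → Q e = 0 := fun e h => by
    by_contra h2
    exact hQQ e h2 (hPQ0 e (hPP e h))
  have hQP : ∀ e, Q e ≠ 0 → P e = 0 := fun e h => by
    by_contra h2
    exact h (hPQ e h2)
  -- a general constructor
  have mk : ∀ P' Q' : E → ZMod 2, (∀ f, P' f ≠ 0 → A f) → (∀ f, Q' f ≠ 0 → A f) →
      (∀ f, P' f ≠ 0 → Q' f = 0) → bd a b P' = dl x z → bd a b Q' = dl x z → Two a b A x z :=
    fun P' Q' h1 h2 h3 h4 h5 => ⟨P', Q', h1, h2, h3, h4, h5⟩
  have hadd : ∀ R : E → ZMod 2, bd a b R = dl x y → bd a b (R + Pi.single e 1) = dl x z := by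
    intro R hR
    rw [bd_add, hR, bd_single, hee, dl_add]
  by_cases hPe : P e = 0
  · by_cases hQe : Q e = 0
    · -- generic case
      set A' : E → Prop := fun f => A f ∧ P f = 0 ∧ Q f = 0 ∧ f ≠ e with hA'
      set X : Finset V := univ.filter (fun v => v ∈ B ∧ Rch a b A' z v) with hX
      have hmemX : ∀ v, v ∈ X ↔ v ∈ B ∧ Rch a b A' z v := fun v => by simp [hX]
      have hzX : z ∈ X := (hmemX z).2 ⟨hz, Relation.ReflTransGen.refl⟩
      -- finishing from a vertex reached
      have fin1 : ∀ (t : V) (P1 : E → ZMod 2), Rch a b A' z t → (∀ f, P1 f ≠ 0 → P f ≠ 0) →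
          bd a b P1 = dl x t → Two a b A x z := by
        intro t P1 hzt hP1 hbP1
        obtain ⟨R, hR, hbR⟩ := join_of_reach a b (hzt.symm a b)
        refine mk (P1 + R) (Q + Pi.single e 1) ?_ ?_ ?_ ?_ (hadd Q hQ)
        · intro f hf
          rcases ne_zero_add hf with h | h
          · exact hPA f (hP1 f h)
          · exact (hR f h).1
        · intro f hf
          rcases ne_zero_add hf with h | h
          · exact hQA f h
          · rw [single_ne h]; exact he
        · intro f hf
          by_contra h2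
          rcases ne_zero_add hf with h | h
          · rcases ne_zero_add h2 with h3 | h3
            · exact h3 (hPQ f (hP1 f h))
            · rw [single_ne h3] at h
              exact hP1 e h hPe
          · rcases ne_zero_add h2 with h3 | h3
            · exact h3 (hR f h).2.2.1
            · exact (hR f h).2.2.2 (single_ne h3)
        · rw [bd_add, hbP1, hbR, dl_add]
      have fin2 : ∀ (t : V) (Q1 : E → ZMod 2), Rch a b A' z t → (∀ f, Q1 f ≠ 0 → Q f ≠ 0) →
          bd a b Q1 = dl x t → Two a b A x z := by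
        intro t Q1 hzt hQ1 hbQ1
        obtain ⟨R, hR, hbR⟩ := join_of_reach a b (hzt.symm a b)
        refine mk (Q1 + R) (P + Pi.single e 1) ?_ ?_ ?_ ?_ (hadd P hP)
        · intro f hf
          rcases ne_zero_add hf with h | h
          · exact hQA f (hQ1 f h)
          · exact (hR f h).1
        · intro f hf
          rcases ne_zero_add hf with h | h
          · exact hPA f h
          · rw [single_ne h]; exact he
        · intro f hf
          by_contra h2
          rcases ne_zero_add hf with h | h
          · rcases ne_zero_add h2 with h3 | h3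
            · exact h3 (hQP f (hQ1 f h))
            · rw [single_ne h3] at h
              exact hQ1 e h hQe
          · rcases ne_zero_add h2 with h3 | h3
            · exact h3 (hR f h).2.1
            · exact (hR f h).2.2.2 (single_ne h3)
        · rw [bd_add, hbQ1, hbR, dl_add]
      by_cases hxX : x ∈ X
      · refine fin1 x 0 ((hmemX x).1 hxX).2 (fun f hf => absurd rfl hf) ?_
        rw [bd_zero, dl_self]
      · have hXB : X ≠ B := fun h => hxX (by rw [h]; exact hx)
        obtain ⟨f, g, hfg, hf, hg, hcf, hcg⟩ := hcut X (fun v hv => ((hmemX v).1 hv).1) ⟨z, hzX⟩ hXB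
        obtain ⟨g, hgA, hge, hcg⟩ : ∃ g, A g ∧ g ≠ e ∧ cr a b X g := by
          by_cases h : f = e
          · exact ⟨g, hg, fun h2 => hfg (h.trans h2.symm), hcg⟩
          · exact ⟨f, hf, h, hcf⟩
        -- an end of g in X
        obtain ⟨t, htX, htg⟩ : ∃ t ∈ X, t = a g ∨ t = b g := by
          by_cases h : a g ∈ X
          · exact ⟨_, h, Or.inl rfl⟩
          · by_cases h' : b g ∈ X
            · exact ⟨_, h', Or.inr rfl⟩
            · exact absurd (by simp [h, h']) hcg
        have hnA' : ¬ A' g := by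
          intro h
          apply hcg
          constructor
          · intro h1
            refine (hmemX _).2 ⟨(hA g hgA).2, ((hmemX _).1 h1).2.trans' a b (Rch.edge a b h)⟩
          · intro h1
            refine (hmemX _).2 ⟨(hA g hgA).1, ((hmemX _).1 h1).2.trans' a b ((Rch.edge a b h).symm a b)⟩
        by_cases hPg : P g = 0
        · by_cases hQg : Q g = 0
          · exact absurd ⟨hgA, hPg, hQg, hge⟩ hnA'
          · have hr : Rch a b (fun e => Q e ≠ 0) x t := by
              rcases htg with rfl | rfl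
              · exact (hQr g hQg).1
              · exact (hQr g hQg).2
            obtain ⟨Q1, hQ1, hbQ1⟩ := join_of_reach a b hr
            exact fin2 t Q1 ((hmemX t).1 htX).2 hQ1 hbQ1
        · have hr : Rch a b (fun e => P e ≠ 0) x t := by
            rcases htg with rfl | rfl
            · exact (hPr g hPg).1
            · exact (hPr g hPg).2
          obtain ⟨P1, hP1, hbP1⟩ := join_of_reach a b hr
          exact fin1 t P1 ((hmemX t).1 htX).2 hP1 hbP1
    · -- e ∈ Q
      refine mk (Q + Pi.single e 1) (P + Pi.single e 1) ?_ ?_ ?_ (hadd Q hQ) (hadd P hP)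
      · intro f hf
        rcases ne_zero_add hf with h | h
        · exact hQA f h
        · rw [single_ne h]; exact he
      · intro f hf
        rcases ne_zero_add hf with h | h
        · exact hPA f h
        · rw [single_ne h]; exact he
      · intro f hf
        by_cases hfe : f = e
        · subst hfe
          exfalso; apply hf
          rw [Pi.add_apply, eq_one_of_ne hQe, Pi.single_eq_same]; decide
        · rw [Pi.add_apply, Pi.single_eq_of_ne hfe, add_zero] at hf
          rw [Pi.add_apply, Pi.single_eq_of_ne hfe, add_zero]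
          exact hQP f hf
  · -- e ∈ P
    refine mk (P + Pi.single e 1) (Q + Pi.single e 1) ?_ ?_ ?_ (hadd P hP) (hadd Q hQ)
    · intro f hf
      rcases ne_zero_add hf with h | h
      · exact hPA f h
      · rw [single_ne h]; exact he
    · intro f hf
      rcases ne_zero_add hf with h | h
      · exact hQA f h
      · rw [single_ne h]; exact he
    · intro f hf
      by_cases hfe : f = e
      · subst hfe
        exfalso; apply hf
        rw [Pi.add_apply, eq_one_of_ne hPe, Pi.single_eq_same]; decide
      · rw [Pi.add_apply, Pi.single_eq_of_ne hfe, add_zero] at hf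
        rw [Pi.add_apply, Pi.single_eq_of_ne hfe, add_zero]
        exact hPQ f hf

theorem two_joins (a b : E → V) (A : E → Prop) (B : Finset V) (hA : ∀ e, A e → a e ∈ B ∧ b e ∈ B)
    (hcut : ∀ X : Finset V, X ⊆ B → X.Nonempty → X ≠ B → ∃ e f, e ≠ f ∧ A e ∧ A f ∧ cr a b X e ∧ cr a b X f)
    (x : V) (hx : x ∈ B) : ∀ y ∈ B, Two a b A x y := by
  classical
  by_contra hcon
  push Not at hcon
  obtain ⟨y0, hy0, hy0T⟩ := hcon
  set X : Finset V := univ.filter (fun v => v ∈ B ∧ Two a b A x v) with hX
  have hmemX : ∀ v, v ∈ X ↔ v ∈ B ∧ Two a b A x v := fun v => by simp [hX]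
  have hxX : x ∈ X := (hmemX x).2 ⟨hx, 0, 0, fun e h => absurd rfl h, fun e h => absurd rfl h,
    fun e h => rfl, by rw [bd_zero, dl_self], by rw [bd_zero, dl_self]⟩
  have hXB : X ≠ B := by
    intro h
    rw [← h] at hy0
    exact hy0T ((hmemX y0).1 hy0).2
  obtain ⟨e, _, _, heA, _, hce, _⟩ := hcut X (fun v hv => ((hmemX v).1 hv).1) ⟨x, hxX⟩ hXB
  apply hce
  constructor
  · intro h
    refine (hmemX _).2 ⟨(hA e heA).2, ?_⟩
    exact two_step a b A B hA hcut x (a e) (b e) hx (hA e heA).2 e heA rfl ((hmemX _).1 h).2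
  · intro h
    refine (hmemX _).2 ⟨(hA e heA).1, ?_⟩
    exact two_step a b A B hA hcut x (b e) (a e) hx (hA e heA).1 e heA (dl_comm _ _) ((hmemX _).1 h).2

end Pool.Agent.Helper45.CCD
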