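import Mathlib
import Pool.Agent.Helper45.CCD.TwoJoin

set_option autoImplicit false
set_option linter.all false

open Finset

namespace Pool.Agent.Helper45.CCD

variable {V E : Type*} [Fintype V] [DecidableEq V] [Fintype E] [DecidableEq E]

/-- the Klein four group -/
abbrev F4 : Type := ZMod 2 × ZMod 2

/-- the edges of `N` outside `C` are under control -/
def Ctl (a b : E → V) (N : Finset E) (C : E → ZMod 2) : Prop :=
  ∀ g : E → F4, ∃ h : E → F4, bd a b h = 0 ∧ (∀ e, e ∉ N → h e = 0) ∧
    ∀ e ∈ N, C e = 0 → g e + h e ≠ 0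

theorem choose1 : ∀ x : F4, ∃ c : F4, x + c ≠ 0 := by decide
theorem choose2 : ∀ x y : F4, ∃ c : F4, x + c ≠ 0 ∧ y + c ≠ 0 := by decide

theorem ctl_add1 (a b : E → V) {N : Finset E} {C : E → ZMod 2} (h : Ctl a b N C) (e : E)
    (he : e ∉ N) (D : E → ZMod 2) (hD : bd a b D = 0) (hDe : D e = 1)
    (hDN : ∀ f, D f ≠ 0 → f ∈ N ∨ f = e) : Ctl a b (insert e N) C := by
  intro g
  obtain ⟨c, hc⟩ := choose1 (g e)
  obtain ⟨h1, hb, hz, hn⟩ := h (fun f => g f + D f • c)
  refine ⟨(fun f => D f • c) + h1, ?_, ?_, ?_⟩
  · rw [bd_add, bd_smul, hb, hD]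
    funext v; simp
  · intro f hf
    rw [Finset.mem_insert, not_or] at hf
    have : D f = 0 := by
      by_contra hne
      rcases hDN f hne with h2 | h2
      · exact hf.2 h2
      · exact hf.1 h2
    rw [Pi.add_apply, hz f hf.2, this]; simp
  · intro f hf hCf
    rw [Finset.mem_insert] at hf
    rw [Pi.add_apply]
    by_cases hfe : f = e
    · subst hfe
      rw [hz f he, hDe, one_smul, add_zero]
      exact hc
    · have := hn f (hf.resolve_left hfe) hCf
      rwa [add_assoc] at this

theorem ctl_add2 (a b : E → V) {N : Finset E} {C : E → ZMod 2} (h : Ctl a b N C) (e e' : E)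
    (he : e ∉ N) (he' : e' ∉ N) (D : E → ZMod 2) (hD : bd a b D = 0) (hDe : D e = 1)
    (hDe' : D e' = 1) (hDN : ∀ f, D f ≠ 0 → f ∈ N ∨ f = e ∨ f = e') :
    Ctl a b (insert e (insert e' N)) C := by
  intro g
  obtain ⟨c, hc, hc'⟩ := choose2 (g e) (g e')
  obtain ⟨h1, hb, hz, hn⟩ := h (fun f => g f + D f • c)
  refine ⟨(fun f => D f • c) + h1, ?_, ?_, ?_⟩
  · rw [bd_add, bd_smul, hb, hD]
    funext v; simp
  · intro f hf
    rw [Finset.mem_insert, not_or, Finset.mem_insert, not_or] at hf
    have : D f = 0 := by
      by_contra hne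
      rcases hDN f hne with h2 | h2 | h2
      · exact hf.2.2 h2
      · exact hf.1 h2
      · exact hf.2.1 h2
    rw [Pi.add_apply, hz f hf.2.2, this]; simp
  · intro f hf hCf
    rw [Finset.mem_insert, Finset.mem_insert] at hf
    rw [Pi.add_apply]
    by_cases hfe : f = e
    · subst hfe
      rw [hz f he, hDe, one_smul, add_zero]
      exact hc
    · by_cases hfe' : f = e'
      · subst hfe'
        rw [hz f he', hDe', one_smul, add_zero]
        exact hc'
      · have := hn f ((hf.resolve_left hfe).resolve_left hfe') hCf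
        rwa [add_assoc] at this

/-- the states of the growth argument -/
def State (a b : E → V) (r : V) (N : Finset E) (C : E → ZMod 2) (U : Finset V) : Prop :=
  r ∈ U ∧ (∀ e ∈ N, a e ∈ U ∧ b e ∈ U) ∧ (∀ v ∈ U, Rch a b (· ∈ N) r v) ∧ bd a b C = 0 ∧
    (∀ e, C e ≠ 0 → e ∈ N) ∧ Ctl a b N C

/-- the three-edge-connected case of the 8-flow theorem, in the form: an even set `C` and a
`Z₂²`-flow which does not vanish outside `C`. -/
theorem flow3 (a b : E → V) (r : V)
    (hcut : ∀ X : Finset V, X.Nonempty → X ≠ univ → ∀ [DecidablePred (cr a b X)],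
      3 ≤ (univ.filter (cr a b X)).card) :
    ∃ (C : E → ZMod 2) (φ : E → F4), bd a b C = 0 ∧ bd a b φ = 0 ∧ ∀ e, C e = 0 → φ e ≠ 0 := by
  classical
  have hne : ((univ : Finset (Finset E)).filter (fun N => ∃ C U, State a b r N C U)).Nonempty := by
    refine ⟨∅, Finset.mem_filter.2 ⟨Finset.mem_univ _, 0, {r}, Finset.mem_singleton_self r, ?_, ?_,
      bd_zero a b, fun e he => absurd rfl he, ?_⟩⟩
    · intro e he; simp at he
    · intro v hv
      rw [Finset.mem_singleton] at hv
      rw [hv]; exact Relation.ReflTransGen.refl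
    · intro g
      exact ⟨0, bd_zero a b, fun _ _ => rfl, fun e he => by simp at he⟩
  obtain ⟨N, hNm, hmax⟩ := Finset.exists_max_image _ Finset.card hne
  obtain ⟨C, U, hr, hNU, hreach, hbC, hCN, hctl⟩ := (Finset.mem_filter.1 hNm).2
  have hmax' : ∀ N' C' U', State a b r N' C' U' → N'.card ≤ N.card := fun N' C' U' h =>
    hmax N' (Finset.mem_filter.2 ⟨Finset.mem_univ _, C', U', h⟩)
  -- (a) edges inside U belong to N
  have hin : ∀ e, a e ∈ U → b e ∈ U → e ∈ N := by
    intro e ha hb
    by_contra heN
    have hr1 : Rch a b (· ∈ N) (a e) (b e) := ((hreach _ ha).symm a b).trans' a b (hreach _ hb)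
    obtain ⟨D0, hD0, hbD0⟩ := join_of_reach a b hr1
    have hD0e : D0 e = 0 := by
      by_contra h; exact heN (hD0 e h)
    have hst : State a b r (insert e N) C U := by
      refine ⟨hr, ?_, ?_, hbC, fun f hf => Finset.mem_insert_of_mem (hCN f hf), ?_⟩
      · intro f hf
        rcases Finset.mem_insert.1 hf with rfl | hf
        · exact ⟨ha, hb⟩
        · exact hNU f hf
      · intro v hv
        exact (hreach v hv).mono a b (fun f hf => Finset.mem_insert_of_mem hf)
      · refine ctl_add1 a b hctl e heN (D0 + Pi.single e 1) ?_ ?_ ?_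
        · rw [bd_add, hbD0, bd_single]
          funext v
          exact zmod2_add_self _
        · rw [Pi.add_apply, hD0e, Pi.single_eq_same, zero_add]
        · intro f hf
          rcases ne_zero_add hf with h | h
          · exact Or.inl (hD0 f h)
          · exact Or.inr (single_ne h)
    have := hmax' _ _ _ hst
    rw [Finset.card_insert_of_notMem heN] at this
    omega
  -- (b) U is everything
  have hU : U = univ := by
    by_contra hU
    let out : Finset V → E → Prop := fun B e => cr a b B e ∧ a e ∉ U ∧ b e ∉ U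
    have hBne : ((univ : Finset (Finset V)).filter (fun B => B.Nonempty ∧ Disjoint B U ∧
        (univ.filter (out B)).card ≤ 1)).Nonempty := by
      refine ⟨univ \ U, Finset.mem_filter.2 ⟨Finset.mem_univ _, ?_, ?_, ?_⟩⟩
      · rw [Finset.nonempty_iff_ne_empty]
        intro h
        apply hU
        rw [Finset.sdiff_eq_empty_iff_subset] at h
        exact Finset.univ_subset_iff.1 h
      · exact Finset.sdiff_disjoint
      · have : univ.filter (out (univ \ U)) = ∅ := by
          rw [Finset.filter_eq_empty_iff]
          rintro e _ ⟨h1, h2, h3⟩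
          apply h1
          simp [h2, h3]
        rw [this]; simp
    obtain ⟨B, hBm, hBmin⟩ := Finset.exists_min_image _ Finset.card hBne
    obtain ⟨hB0, hBU, hB1⟩ := (Finset.mem_filter.1 hBm).2
    have hBmin' : ∀ B' : Finset V, B'.Nonempty → Disjoint B' U → (univ.filter (out B')).card ≤ 1 →
        B.card ≤ B'.card := fun B' h1 h2 h3 =>
      hBmin B' (Finset.mem_filter.2 ⟨Finset.mem_univ _, h1, h2, h3⟩)
    have hdisj : ∀ v, v ∈ B → v ∉ U := fun v h1 h2 => (Finset.disjoint_left.1 hBU) h1 h2
    have hBuniv : B ≠ univ := by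
      intro h
      exact hdisj r (by rw [h]; exact Finset.mem_univ r) hr
    have h3 := hcut B hB0 hBuniv
    have hsplit : (univ.filter (cr a b B)).card ≤ (univ.filter (out B)).card +
        (univ.filter (fun e => cr a b B e ∧ (a e ∈ U ∨ b e ∈ U))).card := by
      rw [← Finset.card_union_add_card_inter]
      refine le_trans (Finset.card_le_card ?_) (Nat.le_add_right _ _)
      intro e he
      have he' := (Finset.mem_filter.1 he).2
      by_cases h : a e ∈ U ∨ b e ∈ U
      · exact Finset.mem_union_right _ (Finset.mem_filter.2 ⟨Finset.mem_univ _, he', h⟩)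
      · push Not at h
        exact Finset.mem_union_left _ (Finset.mem_filter.2 ⟨Finset.mem_univ _, he', h⟩)
    have h2 : 1 < (univ.filter (fun e => cr a b B e ∧ (a e ∈ U ∨ b e ∈ U))).card := by omega
    obtain ⟨e1, he1, e2, he2, he12⟩ := Finset.one_lt_card.1 h2
    have hend : ∀ e ∈ univ.filter (fun e => cr a b B e ∧ (a e ∈ U ∨ b e ∈ U)),
        ∃ x u, x ∈ B ∧ u ∈ U ∧ ((a e = x ∧ b e = u) ∨ (a e = u ∧ b e = x)) := by
      intro e he
      obtain ⟨hc, hu⟩ := (Finset.mem_filter.1 he).2
      unfold cr at hc
      by_cases h1 : a e ∈ B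
      · have h2 : b e ∉ B := fun h => hc (by simp [h, h1])
        rcases hu with hu | hu
        · exact absurd hu (hdisj _ h1)
        · exact ⟨a e, b e, h1, hu, Or.inl ⟨rfl, rfl⟩⟩
      · have h2 : b e ∈ B := by
          by_contra h; exact hc (by simp [h, h1])
        rcases hu with hu | hu
        · exact ⟨b e, a e, h2, hu, Or.inr ⟨rfl, rfl⟩⟩
        · exact absurd hu (hdisj _ h2)
    obtain ⟨x1, u1, hx1, hu1, hxu1⟩ := hend e1 he1
    obtain ⟨x2, u2, hx2, hu2, hxu2⟩ := hend e2 he2
    have hdl1 : dl (a e1) (b e1) = dl x1 u1 := by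
      rcases hxu1 with ⟨h1, h2⟩ | ⟨h1, h2⟩
      · rw [h1, h2]
      · rw [h1, h2, dl_comm]
    have hdl2 : dl (a e2) (b e2) = dl x2 u2 := by
      rcases hxu2 with ⟨h1, h2⟩ | ⟨h1, h2⟩
      · rw [h1, h2]
      · rw [h1, h2, dl_comm]
    let A : E → Prop := fun e => a e ∈ B ∧ b e ∈ B
    have hcutB : ∀ X : Finset V, X ⊆ B → X.Nonempty → X ≠ B →
        ∃ e f, e ≠ f ∧ A e ∧ A f ∧ cr a b X e ∧ cr a b X f := by
      intro X hXB hX0 hXne
      by_contra hcon
      push Not at hcon
      have hle1 : (univ.filter (fun e => A e ∧ cr a b X e)).card ≤ 1 := by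
        rw [Finset.card_le_one]
        intro e he f hf
        by_contra hne
        obtain ⟨h1, h2⟩ := (Finset.mem_filter.1 he).2
        obtain ⟨h3, h4⟩ := (Finset.mem_filter.1 hf).2
        exact hcon e f hne h1 h3 h2 h4
      have hXss : X ⊂ B := Finset.ssubset_iff_subset_ne.2 ⟨hXB, hXne⟩
      have hX'ne : (B \ X).Nonempty := by
        rw [Finset.nonempty_iff_ne_empty]
        intro h
        rw [Finset.sdiff_eq_empty_iff_subset] at h
        exact hXne (Finset.Subset.antisymm hXB h)
      have hX'ss : (B \ X).card < B.card := by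
        apply Finset.card_lt_card
        refine Finset.ssubset_iff_subset_ne.2 ⟨Finset.sdiff_subset, ?_⟩
        intro h
        obtain ⟨v, hv⟩ := hX0
        have := hXB hv
        rw [← h, Finset.mem_sdiff] at this
        exact this.2 hv
      by_cases hoX : ∃ e, out B e ∧ (a e ∈ X ∨ b e ∈ X)
      · obtain ⟨e0, he0, he0X⟩ := hoX
        -- then B \ X works
        have : (univ.filter (out (B \ X))).card ≤ 1 := by
          refine le_trans (Finset.card_le_card ?_) hle1
          intro e he
          obtain ⟨h1, h2, h3⟩ := (Finset.mem_filter.1 he).2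
          refine Finset.mem_filter.2 ⟨Finset.mem_univ _, ?_⟩
          have key : ∀ e, out (B \ X) e → out B e → False := by
            rintro e ⟨g1, g2, g3⟩ ho
            have : e = e0 := Finset.card_le_one.1 hB1 e (Finset.mem_filter.2 ⟨Finset.mem_univ _, ho⟩)
              e0 (Finset.mem_filter.2 ⟨Finset.mem_univ _, he0⟩)
            subst this
            obtain ⟨hcB, _, _⟩ := ho
            unfold cr at hcB g1
            simp only [Finset.mem_sdiff] at g1
            rcases he0X with h | h
            · have hb := hXB h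
              apply g1
              constructor
              · intro hh; exact absurd h hh.2
              · intro hh; exact absurd (by simp [hb, hh.1]) hcB
            · have hb := hXB h
              apply g1
              constructor
              · intro hh; exact absurd (by simp [hb, hh.1]) hcB
              · intro hh; exact absurd h hh.2
          have hnB : ¬ cr a b B e := fun h => key e ⟨h1, h2, h3⟩ ⟨h, h2, h3⟩
          unfold cr at hnB h1 ⊢
          rw [not_not] at hnB
          simp only [Finset.mem_sdiff] at h1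
          by_cases hae : a e ∈ B
          · have hbe := hnB.1 hae
            refine ⟨⟨hae, hbe⟩, ?_⟩
            intro h
            apply h1
            simp [hae, hbe, h]
          · have hbe : b e ∉ B := fun h => hae (hnB.2 h)
            exfalso; apply h1; simp [hae, hbe]
        have := hBmin' (B \ X) hX'ne (Finset.disjoint_of_subset_left Finset.sdiff_subset hBU) this
        omega
      · push Not at hoX
        have : (univ.filter (out X)).card ≤ 1 := by
          refine le_trans (Finset.card_le_card ?_) hle1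
          intro e he
          obtain ⟨h1, h2, h3⟩ := (Finset.mem_filter.1 he).2
          refine Finset.mem_filter.2 ⟨Finset.mem_univ _, ?_, h1⟩
          unfold cr at h1
          by_cases hae : a e ∈ X
          · have hbe : b e ∉ X := fun h => h1 (by simp [h, hae])
            refine ⟨hXB hae, ?_⟩
            by_contra hb
            have := hoX e ⟨by unfold cr; simp [hXB hae, hb], h2, h3⟩
            exact this.1 hae
          · have hbe : b e ∈ X := by
              by_contra h; exact h1 (by simp [h, hae])
            refine ⟨?_, hXB hbe⟩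
            by_contra hb
            have := hoX e ⟨by unfold cr; simp [hXB hbe, hb], h2, h3⟩
            exact this.2 hbe
        have h5 := hBmin' X hX0 (Finset.disjoint_of_subset_left hXB hBU) this
        have h6 := Finset.card_lt_card hXss
        omega
    obtain ⟨P0, Q0, hPA0, hQA0, hPQ0, hP0, hQ0⟩ := two_joins a b A B (fun e h => h) hcutB x1 hx1 x2 hx2
    obtain ⟨P, hPP, hP, hPx, hPr⟩ := good_join a b hP0
    obtain ⟨Q, hQQ, hQ, _, hQr⟩ := good_join a b hQ0
    have hPA : ∀ e, P e ≠ 0 → A e := fun e h => hPA0 e (hPP e h)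
    have hQA : ∀ e, Q e ≠ 0 → A e := fun e h => hQA0 e (hQQ e h)
    have hPQ : ∀ e, P e ≠ 0 → Q e = 0 := fun e h => by
      by_contra h2
      exact hQQ e h2 (hPQ0 e (hPP e h))
    let S : E → Prop := fun e => P e ≠ 0 ∨ Q e ≠ 0
    let N1 : Finset E := N ∪ univ.filter S
    have hN1 : ∀ e, e ∈ N1 ↔ e ∈ N ∨ S e := fun e => by simp [N1]
    let U' : Finset V := U ∪ univ.filter (fun v => Rch a b S x1 v)
    have hU' : ∀ v, v ∈ U' ↔ v ∈ U ∨ Rch a b S x1 v := fun v => by simp [U']
    have hSA : ∀ e, S e → A e := by
      rintro e (h | h)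
      · exact hPA e h
      · exact hQA e h
    have hNS : ∀ e, e ∈ N → ¬ S e := by
      intro e he hS
      exact hdisj _ (hSA e hS).1 (hNU e he).1
    have he1N : e1 ∉ N1 := by
      rw [hN1]
      rintro (h | h)
      · have := hNU _ h
        rcases hxu1 with ⟨h1, h2⟩ | ⟨h1, h2⟩
        · rw [h1] at this; exact hdisj _ hx1 this.1
        · rw [h2] at this; exact hdisj _ hx1 this.2
      · have := hSA _ h
        rcases hxu1 with ⟨h1, h2⟩ | ⟨h1, h2⟩
        · have h3 : b e1 ∈ B := this.2
          rw [h2] at h3; exact hdisj _ h3 hu1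
        · have h3 : a e1 ∈ B := this.1
          rw [h1] at h3; exact hdisj _ h3 hu1
    have he2N : e2 ∉ N1 := by
      rw [hN1]
      rintro (h | h)
      · have := hNU _ h
        rcases hxu2 with ⟨h1, h2⟩ | ⟨h1, h2⟩
        · rw [h1] at this; exact hdisj _ hx2 this.1
        · rw [h2] at this; exact hdisj _ hx2 this.2
      · have := hSA _ h
        rcases hxu2 with ⟨h1, h2⟩ | ⟨h1, h2⟩
        · have h3 : b e2 ∈ B := this.2
          rw [h2] at h3; exact hdisj _ h3 hu2
        · have h3 : a e2 ∈ B := this.1
          rw [h1] at h3; exact hdisj _ h3 hu2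
    have hctl1 : Ctl a b N1 (C + P + Q) := by
      intro g
      obtain ⟨h, hb, hz, hn⟩ := hctl g
      refine ⟨h, hb, fun e he => hz e (fun h' => he ((hN1 e).2 (Or.inl h'))), ?_⟩
      intro e he hC0
      have hCPQ : (C + P + Q) e = C e + P e + Q e := rfl
      rw [hCPQ] at hC0
      by_cases heN : e ∈ N
      · have hnS := hNS e heN
        have hp : P e = 0 := by
          by_contra h; exact hnS (Or.inl h)
        have hq : Q e = 0 := by
          by_contra h; exact hnS (Or.inr h)
        rw [hp, hq, add_zero, add_zero] at hC0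
        exact hn e heN hC0
      · exfalso
        have hc : C e = 0 := by
          by_contra h; exact heN (hCN e h)
        have hS : S e := ((hN1 e).1 he).resolve_left heN
        rw [hc, zero_add] at hC0
        rcases hS with h | h
        · rw [hPQ e h, add_zero] at hC0
          exact h hC0
        · have : P e = 0 := by
            by_contra h'; exact h (hPQ e h')
          rw [this, zero_add] at hC0
          exact h hC0
    have hru : Rch a b (· ∈ N) u1 u2 := ((hreach _ hu1).symm a b).trans' a b (hreach _ hu2)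
    obtain ⟨D0, hD0, hbD0⟩ := join_of_reach a b hru
    have hctl2 : Ctl a b (insert e1 (insert e2 N1)) (C + P + Q) := by
      refine ctl_add2 a b hctl1 e1 e2 he1N he2N (D0 + P + Pi.single e1 1 + Pi.single e2 1) ?_ ?_ ?_ ?_
      · rw [bd_add, bd_add, bd_add, hbD0, hP, bd_single, bd_single, hdl1, hdl2]
        have : dl u1 u2 + dl x1 x2 + dl x1 u1 + dl x2 u2 = (dl u1 x1 + dl x1 x2 + dl x2 u2) + dl u1 u2 := by
          rw [dl_comm x1 u1]; abel
        rw [this, dl_add, dl_add]
        funext v
        exact zmod2_add_self _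
      · have h1 : D0 e1 = 0 := by
          by_contra h; exact he1N ((hN1 _).2 (Or.inl (hD0 _ h)))
        have h2 : P e1 = 0 := by
          by_contra h; exact he1N ((hN1 _).2 (Or.inr (Or.inl h)))
        show D0 e1 + P e1 + (Pi.single e1 1 : E → ZMod 2) e1 + (Pi.single e2 1 : E → ZMod 2) e1 = 1
        rw [h1, h2, Pi.single_eq_same, Pi.single_eq_of_ne he12]; decide
      · have h1 : D0 e2 = 0 := by
          by_contra h; exact he2N ((hN1 _).2 (Or.inl (hD0 _ h)))
        have h2 : P e2 = 0 := by
          by_contra h; exact he2N ((hN1 _).2 (Or.inr (Or.inl h)))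
        show D0 e2 + P e2 + (Pi.single e1 1 : E → ZMod 2) e2 + (Pi.single e2 1 : E → ZMod 2) e2 = 1
        rw [h1, h2, Pi.single_eq_same, Pi.single_eq_of_ne he12.symm]; decide
      · intro f hf
        rcases ne_zero_add hf with hf | hf
        · rcases ne_zero_add hf with hf | hf
          · rcases ne_zero_add hf with hf | hf
            · exact Or.inl ((hN1 _).2 (Or.inl (hD0 _ hf)))
            · exact Or.inl ((hN1 _).2 (Or.inr (Or.inl hf)))
          · exact Or.inr (Or.inl (single_ne hf))
        · exact Or.inr (Or.inr (single_ne hf))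
    have hSr : ∀ e, S e → Rch a b S x1 (a e) ∧ Rch a b S x1 (b e) := by
      rintro e (h | h)
      · exact ⟨(hPr e h).1.mono a b (fun _ h => Or.inl h), (hPr e h).2.mono a b (fun _ h => Or.inl h)⟩
      · exact ⟨(hQr e h).1.mono a b (fun _ h => Or.inr h), (hQr e h).2.mono a b (fun _ h => Or.inr h)⟩
    have hx2r : Rch a b S x1 x2 := hPx.mono a b (fun _ h => Or.inl h)
    have hst : State a b r (insert e1 (insert e2 N1)) (C + P + Q) U' := by
      refine ⟨(hU' r).2 (Or.inl hr), ?_, ?_, ?_, ?_, hctl2⟩
      · intro e he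
        rcases Finset.mem_insert.1 he with rfl | he
        · rcases hxu1 with ⟨h1, h2⟩ | ⟨h1, h2⟩
          · rw [h1, h2]
            exact ⟨(hU' _).2 (Or.inr Relation.ReflTransGen.refl), (hU' _).2 (Or.inl hu1)⟩
          · rw [h1, h2]
            exact ⟨(hU' _).2 (Or.inl hu1), (hU' _).2 (Or.inr Relation.ReflTransGen.refl)⟩
        · rcases Finset.mem_insert.1 he with rfl | he
          · rcases hxu2 with ⟨h1, h2⟩ | ⟨h1, h2⟩
            · rw [h1, h2]
              exact ⟨(hU' _).2 (Or.inr hx2r), (hU' _).2 (Or.inl hu2)⟩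
            · rw [h1, h2]
              exact ⟨(hU' _).2 (Or.inl hu2), (hU' _).2 (Or.inr hx2r)⟩
          · rcases (hN1 e).1 he with h | h
            · exact ⟨(hU' _).2 (Or.inl (hNU e h).1), (hU' _).2 (Or.inl (hNU e h).2)⟩
            · exact ⟨(hU' _).2 (Or.inr (hSr e h).1), (hU' _).2 (Or.inr (hSr e h).2)⟩
      · intro v hv
        have hNN : ∀ f, f ∈ N → f ∈ insert e1 (insert e2 N1) := fun f hf =>
          Finset.mem_insert_of_mem (Finset.mem_insert_of_mem ((hN1 f).2 (Or.inl hf)))
        have hSN : ∀ f, S f → f ∈ insert e1 (insert e2 N1) := fun f hf =>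
          Finset.mem_insert_of_mem (Finset.mem_insert_of_mem ((hN1 f).2 (Or.inr hf)))
        rcases (hU' v).1 hv with h | h
        · exact (hreach v h).mono a b hNN
        · have h1 : Rch a b (· ∈ insert e1 (insert e2 N1)) r u1 := (hreach u1 hu1).mono a b hNN
          have h2 : Rch a b (· ∈ insert e1 (insert e2 N1)) u1 x1 :=
            Relation.ReflTransGen.single ⟨e1, Finset.mem_insert_self _ _, hxu1.symm⟩
          exact (h1.trans' a b h2).trans' a b (h.mono a b hSN)
      · rw [bd_add, bd_add, hbC, hP, hQ, zero_add]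
        funext v
        exact zmod2_add_self _
      · intro e he
        apply Finset.mem_insert_of_mem
        apply Finset.mem_insert_of_mem
        rw [hN1]
        rcases ne_zero_add he with he | he
        · rcases ne_zero_add he with he | he
          · exact Or.inl (hCN e he)
          · exact Or.inr (Or.inl he)
        · exact Or.inr (Or.inr he)
    have hle := hmax' _ _ _ hst
    have hlt : N.card < (insert e1 (insert e2 N1)).card := by
      apply Finset.card_lt_card
      refine Finset.ssubset_iff_subset_ne.2 ⟨?_, ?_⟩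
      · intro f hf
        exact Finset.mem_insert_of_mem (Finset.mem_insert_of_mem ((hN1 f).2 (Or.inl hf)))
      · intro h
        apply he1N
        rw [hN1]; left
        rw [h]; exact Finset.mem_insert_self _ _
    omega
  obtain ⟨h, hb, hz, hn⟩ := hctl 0
  refine ⟨C, h, hbC, hb, ?_⟩
  intro e he
  have := hn e (hin e (by rw [hU]; exact Finset.mem_univ _) (by rw [hU]; exact Finset.mem_univ _)) he
  simpa using this

end Pool.Agent.Helper45.CCD
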