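import Mathlib
import Pool.Agent.Helper45.CCD.Grow

set_option autoImplicit false
set_option linter.all false

open Finset

namespace Pool.Agent.Helper45.CCD

variable {V E : Type*} [Fintype V] [DecidableEq V] [Fintype E] [DecidableEq E]

/-- `{e, f}` is a cut -/
def TwoCut (a b : E → V) (e f : E) : Prop :=
  e ≠ f ∧ ∃ X : Finset V, ∀ g, cr a b X g ↔ g = e ∨ g = f

theorem cr_symmDiff (a b : E → V) (X Y : Finset V) (g : E) :
    cr a b (symmDiff X Y) g ↔ ¬ (cr a b X g ↔ cr a b Y g) := by
  unfold cr
  simp only [Finset.mem_symmDiff]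
  by_cases h1 : a g ∈ X <;> by_cases h2 : b g ∈ X <;> by_cases h3 : a g ∈ Y <;>
    by_cases h4 : b g ∈ Y <;> simp [h1, h2, h3, h4]

theorem twoCut_trans (a b : E → V) {e f g : E} (h1 : TwoCut a b e f) (h2 : TwoCut a b f g)
    (heg : e ≠ g) : TwoCut a b e g := by
  obtain ⟨h1, X, hX⟩ := h1
  obtain ⟨h2, Y, hY⟩ := h2
  refine ⟨heg, symmDiff X Y, ?_⟩
  intro k
  rw [cr_symmDiff, hX, hY]
  by_cases c1 : k = e
  · subst c1; simp [h1, heg]
  · by_cases c2 : k = f
    · subst c2; simp [c1, h2]
    · by_cases c3 : k = g
      · subst c3; simp [c1, c2]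
      · simp [c1, c2, c3]

/-- values of a flow on the two edges of a two-edge-cut agree -/
theorem twoCut_eq (a b : E → V) {M : Type*} [AddCommGroup M] [Module (ZMod 2) M] {e f : E}
    (h : TwoCut a b e f) (y : E → M) (hy : bd a b y = 0) : y e = y f := by
  classical
  obtain ⟨h1, X, hX⟩ := h
  have h2 := sum_cut a b y X
  rw [hy] at h2
  simp only [Pi.zero_apply, Finset.sum_const_zero] at h2
  have h3 : univ.filter (cr a b X) = {e, f} := by
    ext g
    rw [Finset.mem_filter, hX, Finset.mem_insert, Finset.mem_singleton]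
    simp
  rw [h3, Finset.sum_pair h1] at h2
  have h4 := add_self_module (y f)
  have h5 : y e + y f = y f + y f := by rw [← h2, h4]
  exact add_right_cancel h5

/-- extension of a flow from the contraction of `N`. -/
theorem extend_flow (a b : E → V) (N : Finset E) (s : Setoid V)
    (hs : ∀ u v, s.r u v ↔ Rch a b (· ∈ N) u v)
    {M : Type*} [AddCommGroup M] [Module (ZMod 2) M] [Fintype (Quotient s)] [DecidableEq (Quotient s)]
    (y' : {e : E // e ∉ N} → M)
    (hy' : bd (fun e : {e : E // e ∉ N} => (Quotient.mk s (a e) : Quotient s))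
      (fun e => Quotient.mk s (b e)) y' = 0) :
    ∃ y : E → M, bd a b y = 0 ∧ ∀ e (h : e ∉ N), y e = y' ⟨e, h⟩ := by
  classical
  let y0 : E → M := fun e => if h : e ∉ N then y' ⟨e, h⟩ else 0
  have hy0N : ∀ e, e ∈ N → y0 e = 0 := fun e he => dif_neg (not_not.2 he)
  have hy0 : ∀ e (h : e ∉ N), y0 e = y' ⟨e, h⟩ := fun e h => dif_pos h
  let rep : V → V := fun v => Quotient.out (Quotient.mk s v)
  have hrep : ∀ v, Rch a b (· ∈ N) v (rep v) := by
    intro v
    have h1 : Quotient.mk s (rep v) = Quotient.mk s v := Quotient.out_eq _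
    exact ((hs _ _).1 (Quotient.exact h1)).symm a b
  have hJ : ∀ v, ∃ J : E → ZMod 2, (∀ e, J e ≠ 0 → e ∈ N) ∧ bd a b J = dl v (rep v) :=
    fun v => join_of_reach a b (hrep v)
  choose J hJN hJb using hJ
  let β : V → M := bd a b y0
  have hsum : ∀ (T : Finset V), bd a b (fun e => ∑ v ∈ T, J v e • β v) =
      fun w => ∑ v ∈ T, dl v (rep v) w • β v := by
    intro T
    induction T using Finset.induction_on with
    | empty =>
      funext w
      simp only [Finset.sum_empty]
      exact congrFun (bd_zero a b) w
    | @insert v T hv ih =>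
      have h1 : (fun e => ∑ v ∈ insert v T, J v e • β v) = (fun e => J v e • β v) + fun e => ∑ v ∈ T, J v e • β v := by
        funext e
        rw [Pi.add_apply, Finset.sum_insert hv]
      rw [h1, bd_add, ih, bd_smul]
      funext w
      rw [Pi.add_apply, Finset.sum_insert hv, hJb]
  refine ⟨y0 + fun e => ∑ v, J v e • β v, ?_, ?_⟩
  · rw [bd_add, hsum]
    funext w
    rw [Pi.add_apply, Pi.zero_apply]
    show β w + ∑ v, dl v (rep v) w • β v = 0
    have h1 : ∑ v, dl v (rep v) w • β v = ∑ v, ((if w = v then β v else 0) + (if w = rep v then β v else 0)) := by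
      refine Finset.sum_congr rfl fun v _ => ?_
      simp only [dl]
      split_ifs <;> simp [add_smul]
    rw [h1, Finset.sum_add_distrib, Finset.sum_ite_eq, if_pos (Finset.mem_univ _), ← add_assoc,
      add_self_module, zero_add, ← Finset.sum_filter]
    by_cases hw : w = rep w
    · have h2 : univ.filter (fun v => w = rep v) = univ.filter (fun v => Quotient.mk s v = Quotient.mk s w) := by
        ext v
        simp only [Finset.mem_filter, Finset.mem_univ, true_and]
        constructor
        · intro h
          rw [h]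
          exact (Quotient.out_eq _).symm
        · intro h
          rw [hw]
          show Quotient.out (Quotient.mk s w) = Quotient.out (Quotient.mk s v)
          rw [h]
      rw [h2]
      show ∑ v ∈ univ.filter (fun v => Quotient.mk s v = Quotient.mk s w), bd a b y0 v = 0
      rw [sum_bd]
      have h3 := congrFun hy' (Quotient.mk s w)
      rw [Pi.zero_apply] at h3
      refine Eq.trans ?_ h3
      simp only [bd, Finset.mem_filter, Finset.mem_univ, true_and]
      have h4 : ∀ e, e ∉ univ.filter (fun e => e ∉ N) →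
          ((if Quotient.mk s (a e) = Quotient.mk s w then y0 e else 0) +
          (if Quotient.mk s (b e) = Quotient.mk s w then y0 e else 0)) = 0 := by
        intro e he
        have : e ∈ N := by
          by_contra h; exact he (Finset.mem_filter.2 ⟨Finset.mem_univ _, h⟩)
        rw [hy0N e this]; simp
      rw [← Finset.sum_subset (Finset.subset_univ (univ.filter (fun e => e ∉ N))) (fun e _ he => h4 e he)]
      rw [Finset.sum_subtype (univ.filter (fun e => e ∉ N)) (p := fun e => e ∉ N) (by simp)]
      refine Finset.sum_congr rfl fun e _ => ?_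
      rw [hy0 e.1 e.2]
    · have h2 : univ.filter (fun v => w = rep v) = ∅ := by
        rw [Finset.filter_eq_empty_iff]
        intro v _ h
        apply hw
        have h3 : Quotient.mk s w = Quotient.mk s v := by
          rw [h]; exact Quotient.out_eq _
        show w = Quotient.out (Quotient.mk s w)
        rw [h3]; exact h
      rw [h2, Finset.sum_empty]
  · intro e he
    rw [Pi.add_apply, hy0 e he]
    have : ∑ v, J v e • β v = 0 := by
      refine Finset.sum_eq_zero fun v _ => ?_
      have : J v e = 0 := by
        by_contra h; exact he (hJN v e h)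
      rw [this, zero_smul]
    rw [this, add_zero]

/-- the 8-flow theorem for connected bridgeless multigraphs. -/
theorem flow2 (a b : E → V) (r : V)
    (hcut : ∀ X : Finset V, X.Nonempty → X ≠ univ → ∃ e f, e ≠ f ∧ cr a b X e ∧ cr a b X f) :
    ∃ (C : E → ZMod 2) (φ : E → F4), bd a b C = 0 ∧ bd a b φ = 0 ∧ ∀ e, C e = 0 → φ e ≠ 0 := by
  classical
  have hne : ((univ : Finset (Finset E)).filter (fun N => ∀ e ∈ N, ∃ f, f ∉ N ∧ TwoCut a b e f)).Nonempty :=
    ⟨∅, Finset.mem_filter.2 ⟨Finset.mem_univ _, fun e he => by simp at he⟩⟩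
  obtain ⟨N, hNm, hmax⟩ := Finset.exists_max_image _ Finset.card hne
  have hN := (Finset.mem_filter.1 hNm).2
  have hcut3 : ∀ X : Finset V, X.Nonempty → X ≠ univ → (∀ e, cr a b X e → e ∉ N) →
      3 ≤ (univ.filter (cr a b X)).card := by
    intro X hX hXu hXN
    by_contra hlt
    push Not at hlt
    obtain ⟨e, f, hef, he, hf⟩ := hcut X hX hXu
    have hsub : ({e, f} : Finset E) ⊆ univ.filter (cr a b X) := by
      intro g hg
      rw [Finset.mem_insert, Finset.mem_singleton] at hg
      rcases hg with rfl | rfl
      · exact Finset.mem_filter.2 ⟨Finset.mem_univ _, he⟩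
      · exact Finset.mem_filter.2 ⟨Finset.mem_univ _, hf⟩
    have heq : ({e, f} : Finset E) = univ.filter (cr a b X) := by
      apply Finset.eq_of_subset_of_card_le hsub
      rw [Finset.card_pair hef]; omega
    have hTC : TwoCut a b e f := by
      refine ⟨hef, X, fun g => ?_⟩
      have : g ∈ univ.filter (cr a b X) ↔ g ∈ ({e, f} : Finset E) := by rw [heq]
      rw [Finset.mem_filter, Finset.mem_insert, Finset.mem_singleton] at this
      simpa using this
    have heN := hXN e he
    have hfN := hXN f hf
    have hN' : ∀ e' ∈ insert e N, ∃ f', f' ∉ insert e N ∧ TwoCut a b e' f' := by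
      intro e' he0
      rcases Finset.mem_insert.1 he0 with rfl | he'
      · exact ⟨f, fun h => by
          rcases Finset.mem_insert.1 h with h | h
          · exact hef h.symm
          · exact hfN h, hTC⟩
      · obtain ⟨f', hf', hT'⟩ := hN e' he'
        by_cases hfe : f' = e
        · subst hfe
          have hne' : e' ≠ f := fun h => hfN (h ▸ he')
          exact ⟨f, fun h => by
            rcases Finset.mem_insert.1 h with h | h
            · exact hef h.symm
            · exact hfN h, twoCut_trans a b hT' hTC hne'⟩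
        · exact ⟨f', fun h => by
            rcases Finset.mem_insert.1 h with h | h
            · exact hfe h
            · exact hf' h, hT'⟩
    have := hmax _ (Finset.mem_filter.2 ⟨Finset.mem_univ _, hN'⟩)
    rw [Finset.card_insert_of_notMem heN] at this
    omega
  let s : Setoid V :=
    { r := Rch a b (· ∈ N)
      iseqv := ⟨fun _ => Relation.ReflTransGen.refl, fun h => h.symm a b, fun h1 h2 => h1.trans' a b h2⟩ }
  have hs : ∀ u v, s.r u v ↔ Rch a b (· ∈ N) u v := fun _ _ => Iff.rfl
  let a' : {e : E // e ∉ N} → Quotient s := fun e => Quotient.mk s (a e)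
  let b' : {e : E // e ∉ N} → Quotient s := fun e => Quotient.mk s (b e)
  obtain ⟨C', φ', hC', hφ', hn'⟩ := flow3 a' b' (Quotient.mk s r) (by
    intro X' hX' hX'u inst
    let X : Finset V := univ.filter (fun v => Quotient.mk s v ∈ X')
    have hmemX : ∀ v, v ∈ X ↔ Quotient.mk s v ∈ X' := fun v => by simp [X]
    have h1 : X.Nonempty := by
      obtain ⟨q, hq⟩ := hX'
      exact ⟨Quotient.out q, (hmemX _).2 (by rw [Quotient.out_eq]; exact hq)⟩
    have h2 : X ≠ univ := by
      intro h
      apply hX'u
      ext q
      simp only [Finset.mem_univ, iff_true]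
      have : Quotient.out q ∈ X := by rw [h]; exact Finset.mem_univ _
      rw [hmemX, Quotient.out_eq] at this
      exact this
    have h3 : ∀ e, cr a b X e → e ∉ N := by
      intro e hc he
      apply hc
      rw [hmemX, hmemX]
      have : Quotient.mk s (a e) = Quotient.mk s (b e) := Quotient.sound (Rch.edge a b he)
      rw [this]
    have h4 := hcut3 X h1 h2 h3
    refine le_trans h4 ?_
    have h5 : univ.filter (cr a b X) ⊆ (univ.filter (cr a' b' X')).image Subtype.val := by
      intro e he
      have he' := (Finset.mem_filter.1 he).2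
      refine Finset.mem_image.2 ⟨⟨e, h3 e he'⟩, Finset.mem_filter.2 ⟨Finset.mem_univ _, ?_⟩, rfl⟩
      unfold cr at he' ⊢
      rw [hmemX, hmemX] at he'
      exact he'
    exact le_trans (Finset.card_le_card h5) Finset.card_image_le)
  obtain ⟨C, hC, hCe⟩ := extend_flow a b N s hs C' hC'
  obtain ⟨φ, hφ, hφe⟩ := extend_flow a b N s hs φ' hφ'
  refine ⟨C, φ, hC, hφ, ?_⟩
  have hout : ∀ e, e ∉ N → C e = 0 → φ e ≠ 0 := by
    intro e he hc
    rw [hφe e he]
    rw [hCe e he] at hc
    exact hn' _ hc
  intro e hc
  by_cases he : e ∈ N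
  · obtain ⟨f, hf, hT⟩ := hN e he
    rw [twoCut_eq a b hT φ hφ]
    apply hout f hf
    rw [← twoCut_eq a b hT C hC, hc]
  · exact hout e he hc

end Pool.Agent.Helper45.CCD
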