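import Mathlib
import Pool.Agent.Helper45.CCD.Ext

set_option autoImplicit false
set_option linter.all false

open Finset

namespace Pool.Agent.Helper45.CCD

variable {V E : Type*} [Fintype V] [DecidableEq V] [Fintype E] [DecidableEq E]

theorem f4_add_ne : ∀ x c : F4, x ≠ c → x + c ≠ 0 := by decide

/-- the flow with the smallest zero set. -/
theorem flow_min (a b : E → V) (r : V)
    (hcut : ∀ X : Finset V, X.Nonempty → X ≠ univ → ∃ e f, e ≠ f ∧ cr a b X e ∧ cr a b X f) :
    ∃ (C : E → ZMod 2) (φ : E → F4), bd a b C = 0 ∧ bd a b φ = 0 ∧ (∀ e, C e = 0 → φ e ≠ 0) ∧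
      ∀ x, φ x = 0 → ∀ γ : F4, γ ≠ 0 → ¬ Rch a b (fun e => φ e ≠ 0 ∧ φ e ≠ γ) (a x) (b x) := by
  classical
  obtain ⟨C, φ0, hC, hφ0, hn0⟩ := flow2 a b r hcut
  have hne : ((univ : Finset (E → F4)).filter
      (fun φ => bd a b φ = 0 ∧ ∀ e, C e = 0 → φ e ≠ 0)).Nonempty :=
    ⟨φ0, Finset.mem_filter.2 ⟨Finset.mem_univ _, hφ0, hn0⟩⟩
  obtain ⟨φ, hφm, hmin⟩ := Finset.exists_min_image _
    (fun φ : E → F4 => (univ.filter (fun e => φ e = 0)).card) hne
  obtain ⟨hφ, hn⟩ := (Finset.mem_filter.1 hφm).2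
  refine ⟨C, φ, hC, hφ, hn, ?_⟩
  intro x hx γ hγ hR
  obtain ⟨D, hD, hbD⟩ := join_of_reach a b hR
  let Y : E → ZMod 2 := D + Pi.single x 1
  have hDx : D x = 0 := by
    by_contra h
    exact (hD x h).1 hx
  have hYx : Y x = 1 := by
    show D x + (Pi.single x 1 : E → ZMod 2) x = 1
    rw [hDx, Pi.single_eq_same, zero_add]
  have hYe : ∀ e, e ≠ x → Y e = D e := by
    intro e he
    show D e + (Pi.single x 1 : E → ZMod 2) e = D e
    rw [Pi.single_eq_of_ne he, add_zero]
  let φ' : E → F4 := φ + fun e => Y e • γ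
  have hφ' : bd a b φ' = 0 := by
    show bd a b (φ + fun e => Y e • γ) = 0
    rw [bd_add, hφ, bd_smul]
    show 0 + (fun v => bd a b (D + Pi.single x 1) v • γ) = 0
    rw [bd_add, hbD, bd_single]
    funext v
    rw [Pi.add_apply, Pi.add_apply, zmod2_add_self, zero_smul]
    rfl
  have hzero : ∀ e, φ' e = 0 → φ e = 0 ∧ e ≠ x := by
    intro e he
    have h1 : φ' e = φ e + Y e • γ := rfl
    by_cases hex : e = x
    · subst hex
      rw [h1, hx, hYx, one_smul, zero_add] at he
      exact absurd he hγ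
    · refine ⟨?_, hex⟩
      rw [h1, hYe e hex] at he
      by_cases hDe : D e = 0
      · rw [hDe, zero_smul, add_zero] at he
        exact he
      · exfalso
        rw [eq_one_of_ne hDe, one_smul] at he
        exact f4_add_ne _ _ (hD e hDe).2 he
  have h1 := hmin φ' (Finset.mem_filter.2 ⟨Finset.mem_univ _, hφ', fun e he h0 => hn e he (hzero e h0).1⟩)
  have h2 : (univ.filter (fun e => φ' e = 0)).card < (univ.filter (fun e => φ e = 0)).card := by
    apply Finset.card_lt_card
    refine Finset.ssubset_iff_subset_ne.2 ⟨?_, ?_⟩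
    · intro e he
      exact Finset.mem_filter.2 ⟨Finset.mem_univ _, (hzero e (Finset.mem_filter.1 he).2).1⟩
    · intro h
      have : x ∈ univ.filter (fun e => φ' e = 0) := by
        rw [h]; exact Finset.mem_filter.2 ⟨Finset.mem_univ _, hx⟩
      exact (hzero x (Finset.mem_filter.1 this).2).2 rfl
  have h3 : (univ.filter (fun e => φ e = 0)).card ≤ (univ.filter (fun e => φ' e = 0)).card := h1
  omega

end Pool.Agent.Helper45.CCD
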