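import Mathlib

set_option autoImplicit false
set_option linter.all false

namespace Pool.Agent.Helper45.CCD

/-- two fixed point free involutions have a common proper 2-colouring -/
theorem two_color {X : Type*} [Finite X] (θ₁ θ₂ : X → X) (h1 : ∀ x, θ₁ (θ₁ x) = x)
    (h1' : ∀ x, θ₁ x ≠ x) (h2 : ∀ x, θ₂ (θ₂ x) = x) (h2' : ∀ x, θ₂ x ≠ x) :
    ∃ c : X → Bool, (∀ x, c (θ₁ x) = !c x) ∧ (∀ x, c (θ₂ x) = !c x) := by
  classical
  let t1 : Equiv.Perm X := ⟨θ₁, θ₁, h1, h1⟩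
  let t2 : Equiv.Perm X := ⟨θ₂, θ₂, h2, h2⟩
  have ht1 : ∀ x, t1 x = θ₁ x := fun _ => rfl
  have ht2 : ∀ x, t2 x = θ₂ x := fun _ => rfl
  have ht11 : t1 * t1 = 1 := Equiv.ext h1
  have ht22 : t2 * t2 = 1 := Equiv.ext h2
  have hi1 : t1⁻¹ = t1 := inv_eq_of_mul_eq_one_left ht11
  have hi2 : t2⁻¹ = t2 := inv_eq_of_mul_eq_one_left ht22
  let π : Equiv.Perm X := t2 * t1
  have hconj : ∀ k : ℤ, t1 * π ^ k = π ^ (-k) * t1 := by
    intro k
    have h3 : t1 * π * t1⁻¹ = π⁻¹ := by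
      show t1 * (t2 * t1) * t1⁻¹ = (t2 * t1)⁻¹
      rw [mul_inv_rev, hi2, hi1]
      calc t1 * (t2 * t1) * t1 = t1 * t2 * (t1 * t1) := by group
        _ = t1 * t2 := by rw [ht11, mul_one]
    have h4 : (t1 * π * t1⁻¹) ^ k = t1 * π ^ k * t1⁻¹ := conj_zpow
    rw [h3, inv_zpow, ← zpow_neg] at h4
    rw [h4]; group
  have hne : ∀ x, ¬ π.SameCycle x (θ₁ x) := by
    rintro x ⟨k, hk⟩
    rcases Int.even_or_odd' k with ⟨j, hj | hj⟩
    · -- k = 2 j
      apply h1' ((π ^ j) x)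
      have e1 : (π ^ (-j)) (t1 x) = (π ^ j) x := by
        rw [ht1, ← hk, ← Equiv.Perm.mul_apply, ← zpow_add]
        congr 2; omega
      have e2 : (π ^ (-j) * t1) x = (t1 * π ^ j) x := by rw [hconj]
      rw [Equiv.Perm.mul_apply, Equiv.Perm.mul_apply, e1] at e2
      exact e2.symm
    · apply h2' (θ₁ ((π ^ j) x))
      have e1 : (π ^ (-j)) (t1 x) = (π ^ (1 + j)) x := by
        rw [ht1, ← hk, ← Equiv.Perm.mul_apply, ← zpow_add]
        congr 2; omega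
      have e2 : (π ^ (-j) * t1) x = (t1 * π ^ j) x := by rw [hconj]
      rw [Equiv.Perm.mul_apply, Equiv.Perm.mul_apply, e1, zpow_add, zpow_one,
        Equiv.Perm.mul_apply] at e2
      have e3 : π ((π ^ j) x) = θ₂ (θ₁ ((π ^ j) x)) := rfl
      rw [e3] at e2
      exact e2
  let s := Equiv.Perm.SameCycle.setoid π
  obtain ⟨n, ⟨ρ⟩⟩ := Finite.exists_equiv_fin (Quotient s)
  let q : X → Fin n := fun x => ρ (Quotient.mk s x)
  have hq : ∀ x y, π.SameCycle x y → q x = q y := by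
    intro x y h
    show ρ _ = ρ _
    rw [Quotient.sound (s := s) h]
  have hq' : ∀ x y, q x = q y → π.SameCycle x y := by
    intro x y h
    exact Quotient.exact (s := s) (ρ.injective h)
  have hqne : ∀ x, q x ≠ q (θ₁ x) := fun x h => hne x (hq' _ _ h)
  have key : ∀ x, decide (q (θ₁ x) < q x) = !decide (q x < q (θ₁ x)) := by
    intro x
    rcases lt_or_gt_of_ne (hqne x) with h | h
    · rw [decide_eq_true h, decide_eq_false (not_lt.2 h.le)]; rfl
    · rw [decide_eq_true h, decide_eq_false (not_lt.2 h.le)]; rfl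
  refine ⟨fun x => decide (q x < q (θ₁ x)), ?_, ?_⟩
  · intro x
    show decide (q (θ₁ x) < q (θ₁ (θ₁ x))) = _
    rw [h1]
    exact key x
  · intro x
    have e1 : q (θ₂ x) = q (θ₁ x) := by
      apply hq
      refine Equiv.Perm.SameCycle.symm ⟨1, ?_⟩
      rw [zpow_one]
      show θ₂ (θ₁ (θ₁ x)) = θ₂ x
      rw [h1]
    have e2 : q (θ₁ (θ₂ x)) = q x := by
      apply hq
      refine ⟨1, ?_⟩
      rw [zpow_one]
      show θ₂ (θ₁ (θ₁ (θ₂ x))) = x
      rw [h1, h2]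
    show decide (q (θ₂ x) < q (θ₁ (θ₂ x))) = _
    rw [e1, e2]
    exact key x

end Pool.Agent.Helper45.CCD
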