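import Mathlib
import Pool.Agent.Helper45.CCD.Core
import Pool.Agent.Helper45.CCD.Min
import Pool.Agent.Helper45.CCD.Orient

set_option autoImplicit false
set_option linter.all false

open Finset

namespace Pool.Agent.Helper45.CCD

theorem parity3 : ∀ x y z : ZMod 2, x + y + z = 0 →
    (decide (x ≠ 0)).xor ((decide (y ≠ 0)).xor (decide (z ≠ 0))) = false := by decide

theorem oth3 : ∀ k : Fin 3 → Bool, (k 0).xor ((k 1).xor (k 2)) = false → ∀ i, k i = true →
    k (if k (i + 1) then i + 1 else i + 2) = true ∧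
    (if k ((if k (i + 1) then i + 1 else i + 2) + 1) then (if k (i + 1) then i + 1 else i + 2) + 1
      else (if k (i + 1) then i + 1 else i + 2) + 2) = i ∧
    (if k (i + 1) then i + 1 else i + 2) ≠ i := by decide +kernel

theorem perm3_aux (k : Fin 3 → Bool) (hk : (k 0).xor ((k 1).xor (k 2)) = false) :
    ∀ c : Fin 3 → Bool, (∀ i, k i = true → c (if k (i + 1) then i + 1 else i + 2) = !c i) →
    ∃ π : Equiv.Perm (Fin 3), k (π 2) = false ∧ k (π 0) = k (π 1) ∧
      (k (π 0) = false ∨ (c (π 0) = false ∧ c (π 1) = true)) := by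
  revert hk
  have h : ∀ k0 k1 k2 : Bool, ((![k0, k1, k2] : Fin 3 → Bool) 0).xor
      (((![k0, k1, k2] : Fin 3 → Bool) 1).xor ((![k0, k1, k2] : Fin 3 → Bool) 2)) = false →
    ∀ c : Fin 3 → Bool, (∀ i, (![k0, k1, k2] : Fin 3 → Bool) i = true →
      c (if (![k0, k1, k2] : Fin 3 → Bool) (i + 1) then i + 1 else i + 2) = !c i) →
    ∃ π : Equiv.Perm (Fin 3), (![k0, k1, k2] : Fin 3 → Bool) (π 2) = false ∧
      (![k0, k1, k2] : Fin 3 → Bool) (π 0) = (![k0, k1, k2] : Fin 3 → Bool) (π 1) ∧
      ((![k0, k1, k2] : Fin 3 → Bool) (π 0) = false ∨ (c (π 0) = false ∧ c (π 1) = true)) := by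
    intro k0 k1 k2
    cases k0 <;> cases k1 <;> cases k2 <;> decide +kernel
  have e : k = ![k 0, k 1, k 2] := by
    funext i; fin_cases i <;> rfl
  rw [e]
  exact h _ _ _

theorem perm3 : ∀ k c : Fin 3 → Bool, (k 0).xor ((k 1).xor (k 2)) = false →
    (∀ i, k i = true → c (if k (i + 1) then i + 1 else i + 2) = !c i) →
    ∃ π : Equiv.Perm (Fin 3), k (π 2) = false ∧ k (π 0) = k (π 1) ∧
      (k (π 0) = true → c (π 0) = false ∧ c (π 1) = true) := by
  intro k c h1 h2
  obtain ⟨π, h3, h4, h5⟩ := perm3_aux k h1 c h2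
  refine ⟨π, h3, h4, fun h => ?_⟩
  rcases h5 with h5 | h5
  · rw [h] at h5; exact absurd h5 (by decide)
  · exact h5

theorem perm_pair : ∀ (π : Equiv.Perm (Fin 3)) (j : Fin 3),
    (π (j + 1) = π j + 1 ∧ π (j + 2) = π j + 2) ∨ (π (j + 1) = π j + 2 ∧ π (j + 2) = π j + 1) := by
  decide +kernel

theorem fin3_cases : ∀ (π : Equiv.Perm (Fin 3)) (i : Fin 3), i = π 0 ∨ i = π 1 ∨ i = π 2 := by
  decide +kernel

section
variable {W X : Type*} [Fintype W] [DecidableEq W] [Fintype X] [DecidableEq X]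

/-- boundary through darts -/
theorem bd_darts (inc : W → Fin 3 → X)
    (θ : W × Fin 3 → W × Fin 3)
    (hθinc : ∀ d, inc (θ d).1 (θ d).2 = inc d.1 d.2) (hθne : ∀ d, (θ d).1 ≠ d.1)
    (hθ2 : ∀ d d' : W × Fin 3, inc d.1 d.2 = inc d'.1 d'.2 → d' = d ∨ d' = θ d)
    (dx : X → W × Fin 3) (hdx : ∀ x, inc (dx x).1 (dx x).2 = x)
    {M : Type*} [AddCommMonoid M] (y : X → M) (w : W) :
    bd (fun x => (dx x).1) (fun x => (θ (dx x)).1) y w =
      y (inc w 0) + y (inc w 1) + y (inc w 2) := by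
  let Ψ : X × Bool → W × Fin 3 := fun p => if p.2 then θ (dx p.1) else dx p.1
  have hΨinc : ∀ p, inc (Ψ p).1 (Ψ p).2 = p.1 := by
    rintro ⟨x, b⟩
    cases b
    · exact hdx x
    · show inc (θ (dx x)).1 (θ (dx x)).2 = x
      rw [hθinc, hdx]
  have hbij : Function.Bijective Ψ := by
    constructor
    · rintro ⟨x, b⟩ ⟨x', b'⟩ h
      have h1 : (x, b).1 = (x', b').1 := by rw [← hΨinc (x, b), ← hΨinc (x', b'), h]
      replace h1 : x = x' := h1
      subst h1
      cases b <;> cases b'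
      · rfl
      · exact absurd (congrArg Prod.fst h).symm (hθne (dx x))
      · exact absurd (congrArg Prod.fst h) (hθne (dx x))
      · rfl
    · intro d
      rcases hθ2 (dx (inc d.1 d.2)) d (hdx _) with h | h
      · exact ⟨(inc d.1 d.2, false), h.symm⟩
      · exact ⟨(inc d.1 d.2, true), h.symm⟩
  let f : W × Fin 3 → M := fun d => if d.1 = w then y (inc d.1 d.2) else 0
  have h1 : ∑ p, f (Ψ p) = ∑ d, f d := Function.Bijective.sum_comp hbij f
  have h2 : ∑ p, f (Ψ p) = bd (fun x => (dx x).1) (fun x => (θ (dx x)).1) y w := by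
    rw [Fintype.sum_prod_type]
    refine Finset.sum_congr rfl fun x _ => ?_
    rw [Fintype.sum_bool, add_comm]
    have e1 : f (Ψ (x, false)) = if (dx x).1 = w then y x else 0 := by
      show (if (dx x).1 = w then y (inc (dx x).1 (dx x).2) else 0) = _
      rw [hdx]
    have e2 : f (Ψ (x, true)) = if (θ (dx x)).1 = w then y x else 0 := by
      show (if (θ (dx x)).1 = w then y (inc (θ (dx x)).1 (θ (dx x)).2) else 0) = _
      rw [hθinc, hdx]
    rw [e1, e2]
  have h3 : ∑ d, f d = y (inc w 0) + y (inc w 1) + y (inc w 2) := by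
    rw [Fintype.sum_prod_type, Finset.sum_eq_single w]
    · rw [Fin.sum_univ_three]
      simp [f]
    · intro w' _ hw'
      simp [f, hw']
    · intro h; exact absurd (Finset.mem_univ _) h
  rw [← h2, h1, h3]

/-- the line graph theorem in terms of darts -/
theorem line (inc : W → Fin 3 → X) (hinj : ∀ w, Function.Injective (inc w))
    (θ : W × Fin 3 → W × Fin 3) (hθθ : ∀ d, θ (θ d) = d)
    (hθinc : ∀ d, inc (θ d).1 (θ d).2 = inc d.1 d.2) (hθne : ∀ d, (θ d).1 ≠ d.1)
    (hθ2 : ∀ d d' : W × Fin 3, inc d.1 d.2 = inc d'.1 d'.2 → d' = d ∨ d' = θ d)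
    (hsurj : ∀ x, ∃ d : W × Fin 3, inc d.1 d.2 = x) (r : W)
    (hcut : ∀ Y : Finset W, Y.Nonempty → Y ≠ univ → ∃ d e : W × Fin 3,
      inc d.1 d.2 ≠ inc e.1 e.2 ∧ d.1 ∈ Y ∧ (θ d).1 ∉ Y ∧ e.1 ∈ Y ∧ (θ e).1 ∉ Y)
    (ends : W × Fin 3 → Sym2 X)
    (hends : ∀ w j, ends (w, j) = s(inc w (j + 1), inc w (j + 2))) :
    ∃ (T₁ T₂ : X → W × Fin 3 → W × Fin 3 → Prop) (c₁ : W × Fin 3 → Set (W × Fin 3))
      (c₂ : W × Fin 3 → G4 × Set W), Trans ends T₁ c₁ ∧ Trans ends T₂ c₂ ∧
        ∀ v e f, T₁ v e f → ¬ T₂ v e f := by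
  classical
  choose dx hdx using hsurj
  let a : X → W := fun x => (dx x).1
  let b : X → W := fun x => (θ (dx x)).1
  have hcr : ∀ (Y : Finset W) (d : W × Fin 3), d.1 ∈ Y → (θ d).1 ∉ Y → cr a b Y (inc d.1 d.2) := by
    intro Y d h1 h2 h3
    rcases hθ2 (dx (inc d.1 d.2)) d (hdx _) with h | h
    · apply h2
      have : a (inc d.1 d.2) ∈ Y := by show (dx (inc d.1 d.2)).1 ∈ Y; rw [← h]; exact h1
      have h4 := h3.1 this
      have h5 : (θ d).1 = b (inc d.1 d.2) := by
        show (θ d).1 = (θ (dx (inc d.1 d.2))).1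
        rw [← h]
      rw [h5]; exact h4
    · apply h2
      have : b (inc d.1 d.2) ∈ Y := by show (θ (dx (inc d.1 d.2))).1 ∈ Y; rw [← h]; exact h1
      have h4 := h3.2 this
      have h5 : (θ d).1 = a (inc d.1 d.2) := by
        show (θ d).1 = (dx (inc d.1 d.2)).1
        have h6 := congrArg θ h
        rw [hθθ] at h6
        exact congrArg Prod.fst h6
      rw [h5]; exact h4
  obtain ⟨C, φ, hC, hφ, hCφ, hmin⟩ := flow_min a b r (by
    intro Y hY hY'
    obtain ⟨d, e, h1, h2, h3, h4, h5⟩ := hcut Y hY hY'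
    exact ⟨_, _, h1, hcr Y d h2 h3, hcr Y e h4 h5⟩)
  have hC3 : ∀ w, C (inc w 0) + C (inc w 1) + C (inc w 2) = 0 := by
    intro w
    rw [← bd_darts inc θ hθinc hθne hθ2 dx hdx C w]
    exact congrFun hC w
  have hφ3 : ∀ w, φ (inc w 0) + φ (inc w 1) + φ (inc w 2) = 0 := by
    intro w
    rw [← bd_darts inc θ hθinc hθne hθ2 dx hdx φ w]
    exact congrFun hφ w
  let K : X → Bool := fun x => decide (C x ≠ 0)
  have hKpar : ∀ w, (K (inc w 0)).xor ((K (inc w 1)).xor (K (inc w 2))) = false := fun w =>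
    parity3 _ _ _ (hC3 w)
  -- orientation
  let KD := {d : W × Fin 3 // K (inc d.1 d.2) = true}
  let ot : W × Fin 3 → W × Fin 3 := fun d =>
    (d.1, if K (inc d.1 (d.2 + 1)) then d.2 + 1 else d.2 + 2)
  have hot : ∀ d : W × Fin 3, K (inc d.1 d.2) = true →
      K (inc (ot d).1 (ot d).2) = true ∧ ot (ot d) = d ∧ ot d ≠ d := by
    rintro ⟨w, i⟩ h
    obtain ⟨h1, h2, h3⟩ := oth3 (fun i => K (inc w i)) (hKpar w) i h
    refine ⟨h1, ?_, fun h4 => h3 (congrArg Prod.snd h4)⟩
    exact Prod.ext rfl h2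
  obtain ⟨c, hc1, hc2⟩ := two_color (X := KD)
    (fun d => ⟨θ d.1, by rw [hθinc]; exact d.2⟩) (fun d => ⟨ot d.1, (hot d.1 d.2).1⟩)
    (fun d => Subtype.ext (hθθ _))
    (fun d h => hθne d.1 (congrArg Prod.fst (congrArg Subtype.val h)))
    (fun d => Subtype.ext (hot d.1 d.2).2.1)
    (fun d h => (hot d.1 d.2).2.2 (congrArg Subtype.val h))
  let c' : W × Fin 3 → Bool := fun d => if h : K (inc d.1 d.2) = true then c ⟨d, h⟩ else false
  have hc' : ∀ d (h : K (inc d.1 d.2) = true), c' d = c ⟨d, h⟩ := fun d h => dif_pos h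
  have hc'1 : ∀ d, K (inc d.1 d.2) = true → c' (θ d) = !c' d := by
    intro d h
    have h' : K (inc (θ d).1 (θ d).2) = true := by rw [hθinc]; exact h
    rw [hc' d h, hc' (θ d) h']
    exact hc1 ⟨d, h⟩
  have hc'2 : ∀ d, K (inc d.1 d.2) = true → c' (ot d) = !c' d := by
    intro d h
    rw [hc' d h, hc' (ot d) (hot d h).1]
    exact hc2 ⟨d, h⟩
  have hπ : ∀ w, ∃ π : Equiv.Perm (Fin 3), K (inc w (π 2)) = false ∧
      K (inc w (π 0)) = K (inc w (π 1)) ∧
      (K (inc w (π 0)) = true → c' (w, π 0) = false ∧ c' (w, π 1) = true) := by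
    intro w
    exact perm3 (fun i => K (inc w i)) (fun i => c' (w, i)) (hKpar w)
      (fun i hi => hc'2 (w, i) hi)
  choose π hπ2 hπ01 hπc using hπ
  let g : W × Fin 3 ≃ W × Fin 3 := Equiv.prodShear (Equiv.refl W) π
  have hg : ∀ d : W × Fin 3, g d = (d.1, π d.1 d.2) := fun d => rfl
  have hg1 : ∀ d : W × Fin 3, (g.symm d).1 = d.1 := by
    intro d
    have h : (g (g.symm d)).1 = (g.symm d).1 := rfl
    rw [← h, Equiv.apply_symm_apply]
  let inc' : W → Fin 3 → X := fun w i => inc w (π w i)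
  let θ' : W × Fin 3 → W × Fin 3 := fun d => g.symm (θ (g d))
  have hginc : ∀ d : W × Fin 3, inc' (g.symm d).1 (g.symm d).2 = inc d.1 d.2 := by
    intro d
    have h : inc (g (g.symm d)).1 (g (g.symm d)).2 = inc' (g.symm d).1 (g.symm d).2 := rfl
    rw [← h, Equiv.apply_symm_apply]
  have hgθ : ∀ d : W × Fin 3, K (inc d.1 d.2) = true → c' d = true → (g.symm d).2 = 1 := by
    intro d h1 h2
    have h3 : d.2 = π d.1 1 := by
      rcases fin3_cases (π d.1) d.2 with h | h | h
      · exfalso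
        rw [h] at h1
        have h4 := (hπc d.1 h1).1
        rw [← h] at h4
        rw [show (d.1, d.2) = d from rfl, h2] at h4
        exact absurd h4 (by decide)
      · exact h
      · exfalso
        rw [h, hπ2] at h1
        exact absurd h1 (by decide)
    have h4 : g (d.1, 1) = d := by
      rw [hg]
      exact Prod.ext rfl h3.symm
    rw [← h4, Equiv.symm_apply_apply]
  have hgθ' : ∀ d : W × Fin 3, K (inc d.1 d.2) = true → c' d = false → (g.symm d).2 = 0 := by
    intro d h1 h2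
    have h3 : d.2 = π d.1 0 := by
      rcases fin3_cases (π d.1) d.2 with h | h | h
      · exact h
      · exfalso
        have h1' := h1
        rw [h, ← hπ01] at h1'
        have h4 := (hπc d.1 h1').2
        rw [← h] at h4
        rw [show (d.1, d.2) = d from rfl, h2] at h4
        exact absurd h4 (by decide)
      · exfalso
        rw [h, hπ2] at h1
        exact absurd h1 (by decide)
    have h4 : g (d.1, 0) = d := by
      rw [hg]
      exact Prod.ext rfl h3.symm
    rw [← h4, Equiv.symm_apply_apply]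
  have hsteps : ∀ (γ : F4) (u v : W), Relation.ReflTransGen
      (fun u v => ∃ i, φ (inc' u i) ≠ 0 ∧ φ (inc' u i) ≠ γ ∧ v = (θ' (u, i)).1) u v →
      Rch a b (fun e => φ e ≠ 0 ∧ φ e ≠ γ) u v := by
    intro γ u v h
    induction h with
    | refl => exact Relation.ReflTransGen.refl
    | @tail u v _ h ih =>
    refine Relation.ReflTransGen.tail ih ?_
    obtain ⟨i, h1, h2, h3⟩ := h
    refine ⟨inc' u i, ⟨h1, h2⟩, ?_⟩
    have h4 : (θ' (u, i)).1 = (θ (u, π u i)).1 := by
      show (g.symm (θ (g (u, i)))).1 = _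
      rw [hg1]; rfl
    rw [h3, h4]
    rcases hθ2 (dx (inc' u i)) (u, π u i) (hdx _) with h | h
    · left
      constructor
      · show (dx (inc' u i)).1 = u
        rw [← h]
      · show (θ (dx (inc' u i))).1 = _
        rw [← h]
    · right
      constructor
      · show (dx (inc' u i)).1 = _
        rw [h, hθθ]
      · show (θ (dx (inc' u i))).1 = u
        rw [← h]
  obtain ⟨T₁, T₂, c₁, c₂, hT1, hT2, hdis⟩ := core inc'
    (fun w => (hinj w).comp (π w).injective) θ'
    (by
      intro d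
      show g.symm (θ (g (g.symm (θ (g d))))) = d
      rw [Equiv.apply_symm_apply, hθθ, Equiv.symm_apply_apply])
    (by
      intro d
      show inc' (g.symm (θ (g d))).1 (g.symm (θ (g d))).2 = inc' d.1 d.2
      rw [hginc, hθinc]; rfl)
    (by
      intro d
      show (g.symm (θ (g d))).1 ≠ d.1
      rw [hg1]
      exact hθne (g d))
    (by
      intro d d' h
      have h1 : inc (g d).1 (g d).2 = inc (g d').1 (g d').2 := h
      rcases hθ2 (g d) (g d') h1 with h2 | h2
      · exact Or.inl (g.injective h2)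
      · right
        show d' = g.symm (θ (g d))
        rw [← h2, Equiv.symm_apply_apply])
    K hπ2 hπ01
    (by
      intro w hw
      have hw' : K (inc (g (w, 0)).1 (g (w, 0)).2) = true := hw
      show (g.symm (θ (g (w, 0)))).2 = 1
      apply hgθ
      · rw [hθinc]; exact hw'
      · rw [hc'1 _ hw']
        have : c' (g (w, 0)) = false := (hπc w hw).1
        rw [this]; rfl)
    (by
      intro w hw
      have hw' : K (inc (g (w, 1)).1 (g (w, 1)).2) = true := by
        show K (inc w (π w 1)) = true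
        rw [← hπ01]; exact hw
      show (g.symm (θ (g (w, 1)))).2 = 0
      apply hgθ'
      · rw [hθinc]; exact hw'
      · rw [hc'1 _ hw']
        have : c' (g (w, 1)) = true := (hπc w hw).2
        rw [this]; rfl)
    φ
    (by
      intro w
      have h1 : ∑ i, φ (inc w (π w i)) = ∑ i, φ (inc w i) :=
        Equiv.sum_comp (π w) (fun i => φ (inc w i))
      rw [Fin.sum_univ_three, Fin.sum_univ_three, hφ3] at h1
      exact h1)
    (by
      intro x hx
      show decide (C x ≠ 0) = true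
      exact decide_eq_true fun h => hCφ x h hx)
    (by
      intro w i h0 γ hγ hR
      have h1 := hsteps γ _ _ hR
      have h4 : (θ' (w, i)).1 = (θ (w, π w i)).1 := by
        show (g.symm (θ (g (w, i)))).1 = _
        rw [hg1]; rfl
      rw [h4] at h1
      rcases hθ2 (dx (inc' w i)) (w, π w i) (hdx _) with h | h
      · apply hmin (inc' w i) h0 γ hγ
        have e1 : a (inc' w i) = w := by
          show (dx (inc' w i)).1 = w
          rw [← h]
        have e2 : b (inc' w i) = (θ (w, π w i)).1 := by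
          show (θ (dx (inc' w i))).1 = _
          rw [← h]
        rw [e1, e2]; exact h1
      · apply hmin (inc' w i) h0 γ hγ
        have e1 : a (inc' w i) = (θ (w, π w i)).1 := by
          show (dx (inc' w i)).1 = _
          rw [h, hθθ]
        have e2 : b (inc' w i) = w := by
          show (θ (dx (inc' w i))).1 = _
          rw [← h]
        rw [e1, e2]; exact Rch.symm a b h1)
    (fun e => ends (g e))
    (by
      intro w j
      show ends (w, π w j) = s(inc w (π w (j + 1)), inc w (π w (j + 2)))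
      rw [hends]
      rcases perm_pair (π w) j with ⟨h1, h2⟩ | ⟨h1, h2⟩
      · rw [h1, h2]
      · rw [h1, h2, Sym2.eq_swap])
  refine ⟨fun v e f => T₁ v (g.symm e) (g.symm f), fun v e f => T₂ v (g.symm e) (g.symm f),
    fun e => c₁ (g.symm e), fun e => c₂ (g.symm e),
    hT1.transport g.symm ends (fun e => by rw [Equiv.apply_symm_apply]),
    hT2.transport g.symm ends (fun e => by rw [Equiv.apply_symm_apply]),
    fun v e f h h' => hdis v _ _ h h'⟩

end

end Pool.Agent.Helper45.CCD
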