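import Mathlib
import Pool.Agent.Helper45.CCD.Line

set_option autoImplicit false
set_option linter.all false

open Finset

namespace Pool.Agent.Helper45.CCD

theorem darts_fin {W X E : Type} [Fintype W] [DecidableEq W] [Fintype X] [DecidableEq X]
    [Fintype E] [DecidableEq E]
    (inc : W → Fin 3 → X) (hinj : ∀ w, Function.Injective (inc w))
    (hother : ∀ d : W × Fin 3, ∃ d' : W × Fin 3, inc d'.1 d'.2 = inc d.1 d.2 ∧ d' ≠ d ∧
      ∀ d'' : W × Fin 3, inc d''.1 d''.2 = inc d.1 d.2 → d'' = d ∨ d'' = d')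
    (hsurj : ∀ x, ∃ d : W × Fin 3, inc d.1 d.2 = x) (r : W)
    (hcut : ∀ Y : Finset W, Y.Nonempty → Y ≠ univ → ∃ d d' e e' : W × Fin 3,
      inc d.1 d.2 = inc d'.1 d'.2 ∧ inc e.1 e.2 = inc e'.1 e'.2 ∧
      inc d.1 d.2 ≠ inc e.1 e.2 ∧ d.1 ∈ Y ∧ d'.1 ∉ Y ∧ e.1 ∈ Y ∧ e'.1 ∉ Y)
    (g : E ≃ W × Fin 3) (ends : E → Sym2 X)
    (hg : ∀ e, ends e = s(inc (g e).1 ((g e).2 + 1), inc (g e).1 ((g e).2 + 2))) :
    ∃ C₁ C₂ : Finset (Finset E),
        (∀ S ∈ C₁, S.Nonempty ∧ (∀ v : X, Even (S.filter (fun e => v ∈ ends e)).card) ∧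
            ∀ T ⊆ S, T.Nonempty → (∀ v : X, Even (T.filter (fun e => v ∈ ends e)).card) → T = S) ∧
        (∀ e : E, ∃! S, S ∈ C₁ ∧ e ∈ S) ∧
        (∀ S ∈ C₂, S.Nonempty ∧ (∀ v : X, Even (S.filter (fun e => v ∈ ends e)).card) ∧
            ∀ T ⊆ S, T.Nonempty → (∀ v : X, Even (T.filter (fun e => v ∈ ends e)).card) → T = S) ∧
        (∀ e : E, ∃! S, S ∈ C₂ ∧ e ∈ S) ∧
        (∀ v : X, ∀ S₁ ∈ C₁, ∀ S₂ ∈ C₂,
            ((S₁ ∩ S₂).filter (fun e => v ∈ ends e)).card ≤ 1) := by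
  choose θ h1 h2 h3 using hother
  have hθθ : ∀ d, θ (θ d) = d := by
    intro d
    rcases h3 d (θ (θ d)) ((h1 _).trans (h1 _)) with h | h
    · exact h
    · exact absurd h (h2 _)
  have hθne : ∀ d, (θ d).1 ≠ d.1 := by
    intro d h
    apply h2 d
    have h4 := h1 d
    rw [h] at h4
    exact Prod.ext h (hinj _ h4)
  have hθ2 : ∀ d d' : W × Fin 3, inc d.1 d.2 = inc d'.1 d'.2 → d' = d ∨ d' = θ d :=
    fun d d' h => h3 d d' h.symm
  obtain ⟨T₁, T₂, c₁, c₂, ht1, ht2, hdis⟩ := line inc hinj θ hθθ h1 hθne hθ2 hsurj r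
    (by
      intro Y hY hY'
      obtain ⟨d, d', e, e', k1, k2, k3, k4, k5, k6, k7⟩ := hcut Y hY hY'
      refine ⟨d, e, k3, k4, ?_, k6, ?_⟩
      · rcases hθ2 d d' k1 with h | h
        · rw [h] at k5; exact absurd k4 k5
        · rw [← h]; exact k5
      · rcases hθ2 e e' k2 with h | h
        · rw [h] at k7; exact absurd k6 k7
        · rw [← h]; exact k7)
    (fun d => s(inc d.1 (d.2 + 1), inc d.1 (d.2 + 2))) (fun w j => rfl)
  exact pair' ends _ _ _ _ (ht1.transport g ends hg) (ht2.transport g ends hg)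
    (fun v e f h h' => hdis v _ _ h h')

theorem conn_set {V : Type} {G : SimpleGraph V} (hG : G.Connected) (P : V → Prop) (a : V)
    (ha : P a) (hstep : ∀ u v, P u → G.Adj u v → P v) : ∀ v, P v := by
  intro v
  obtain ⟨p⟩ := hG.preconnected a v
  induction p with
  | nil => exact ha
  | cons h _ ih => exact ih (hstep _ _ ha h)

theorem fin3_pair_eq : ∀ i j : Fin 3, (j + 1 = i + 1 ∧ j + 2 = i + 2 ∨ j + 1 = i + 2 ∧ j + 2 = i + 1) →
    i = j := by decide

/-- a graph whose edges decompose into triangles -/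
theorem triangles (V E : Type) [Fintype V] [DecidableEq V] [Fintype E] [DecidableEq E]
    (ends : E → Sym2 V)
    (hcard : 3 ≤ Fintype.card V)
    (hconn : ∀ v : V, ((SimpleGraph.fromRel (fun u w : V => ∃ e, ends e = s(u, w))).induce
          {w : V | w ≠ v}).Connected)
    (hdeg : ∀ v : V, (Finset.univ.filter (fun e : E => v ∈ ends e)).card = 4)
    (𝒯 : Finset (Finset E)) (hpart : ∀ e : E, ∃! S, S ∈ 𝒯 ∧ e ∈ S)
    (htri : ∀ S ∈ 𝒯, ∃ a b c : V, a ≠ b ∧ b ≠ c ∧ a ≠ c ∧ ∃ e₁ e₂ e₃ : E, S = {e₁, e₂, e₃} ∧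
      ends e₁ = s(b, c) ∧ ends e₂ = s(a, c) ∧ ends e₃ = s(a, b)) :
    ∃ C₁ C₂ : Finset (Finset E),
        (∀ S ∈ C₁, S.Nonempty ∧ (∀ v : V, Even (S.filter (fun e => v ∈ ends e)).card) ∧
            ∀ T ⊆ S, T.Nonempty → (∀ v : V, Even (T.filter (fun e => v ∈ ends e)).card) → T = S) ∧
        (∀ e : E, ∃! S, S ∈ C₁ ∧ e ∈ S) ∧
        (∀ S ∈ C₂, S.Nonempty ∧ (∀ v : V, Even (S.filter (fun e => v ∈ ends e)).card) ∧
            ∀ T ⊆ S, T.Nonempty → (∀ v : V, Even (T.filter (fun e => v ∈ ends e)).card) → T = S) ∧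
        (∀ e : E, ∃! S, S ∈ C₂ ∧ e ∈ S) ∧
        (∀ v : V, ∀ S₁ ∈ C₁, ∀ S₂ ∈ C₂,
            ((S₁ ∩ S₂).filter (fun e => v ∈ ends e)).card ≤ 1) := by
  classical
  let W : Type := {S : Finset E // S ∈ 𝒯}
  have hstr : ∀ S : W, ∃ (x : Fin 3 → V) (ed : Fin 3 → E), Function.Injective x ∧
      (∀ e, e ∈ S.1 ↔ ∃ i, e = ed i) ∧ ∀ i, ends (ed i) = s(x (i + 1), x (i + 2)) := by
    rintro ⟨S, hS⟩
    obtain ⟨a, b, c, hab, hbc, hac, e₁, e₂, e₃, hSe, h1, h2, h3⟩ := htri S hS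
    refine ⟨![a, b, c], ![e₁, e₂, e₃], ?_, ?_, ?_⟩
    · intro i j hij
      fin_cases i <;> fin_cases j <;> simp_all
    · intro e
      show e ∈ S ↔ _
      rw [hSe, Finset.mem_insert, Finset.mem_insert, Finset.mem_singleton]
      constructor
      · rintro (h | h | h)
        · exact ⟨0, h⟩
        · exact ⟨1, h⟩
        · exact ⟨2, h⟩
      · rintro ⟨i, h⟩
        fin_cases i
        · exact Or.inl h
        · exact Or.inr (Or.inl h)
        · exact Or.inr (Or.inr h)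
    · intro i
      fin_cases i
      · exact h1
      · show ends e₂ = s(c, a)
        rw [h2, Sym2.eq_swap]
      · exact h3
  choose x ed hx hed hends using hstr
  have hedmem : ∀ (S : W) i, ed S i ∈ S.1 := fun S i => (hed S _).2 ⟨i, rfl⟩
  let ψ : W × Fin 3 → E := fun d => ed d.1 d.2
  have hedinj : ∀ S : W, Function.Injective (ed S) := by
    intro S i j hij
    have h1 := hends S i
    rw [hij, hends S j] at h1
    have h2 : j + 1 = i + 1 ∧ j + 2 = i + 2 ∨ j + 1 = i + 2 ∧ j + 2 = i + 1 := by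
      rcases Sym2.eq_iff.1 h1 with ⟨h3, h4⟩ | ⟨h3, h4⟩
      · exact Or.inl ⟨hx S h3, hx S h4⟩
      · exact Or.inr ⟨hx S h3, hx S h4⟩
    exact fin3_pair_eq i j h2
  have hψ : Function.Bijective ψ := by
    constructor
    · rintro ⟨S, i⟩ ⟨S', i'⟩ h
      have h0 : ed S i = ed S' i' := h
      obtain ⟨R, _, hR⟩ := hpart (ed S i)
      have h1 : S.1 = R := hR _ ⟨S.2, hedmem S i⟩
      have h2 : S'.1 = R := hR _ ⟨S'.2, by rw [h0]; exact hedmem S' i'⟩
      have h3 : S = S' := Subtype.ext (h1.trans h2.symm)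
      subst h3
      rw [hedinj S h0]
    · intro e
      obtain ⟨S, ⟨hS, heS⟩, _⟩ := hpart e
      obtain ⟨i, hi⟩ := (hed ⟨S, hS⟩ e).1 heS
      exact ⟨(⟨S, hS⟩, i), hi.symm⟩
  let g : W × Fin 3 ≃ E := Equiv.ofBijective ψ hψ
  have hgs : ∀ e, ends e = s(x (g.symm e).1 ((g.symm e).2 + 1), x (g.symm e).1 ((g.symm e).2 + 2)) := by
    intro e
    have h1 : ends (g (g.symm e)) = s(x (g.symm e).1 ((g.symm e).2 + 1), x (g.symm e).1 ((g.symm e).2 + 2)) :=
      hends _ _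
    rwa [Equiv.apply_symm_apply] at h1
  -- number of darts
  have hD : ∀ v : V, ((univ : Finset (W × Fin 3)).filter (fun d => x d.1 d.2 = v)).card = 2 := by
    intro v
    let s1 : W × Fin 3 ≃ W × Fin 3 := Equiv.prodCongr (Equiv.refl W) (Equiv.addRight (1 : Fin 3))
    let s2 : W × Fin 3 ≃ W × Fin 3 := Equiv.prodCongr (Equiv.refl W) (Equiv.addRight (2 : Fin 3))
    have h1 : (univ.filter (fun e : E => v ∈ ends e)).card =
        ((univ : Finset (W × Fin 3)).filter (fun d => x d.1 (d.2 + 1) = v ∨ x d.1 (d.2 + 2) = v)).card := by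
      symm
      refine Finset.card_bij (fun d _ => g d) ?_ ?_ ?_
      · intro d hd
        rw [Finset.mem_filter] at hd ⊢
        refine ⟨Finset.mem_univ _, ?_⟩
        have h : ends (g d) = s(x d.1 (d.2 + 1), x d.1 (d.2 + 2)) := hends _ _
        rw [h, Sym2.mem_iff]
        rcases hd.2 with h | h
        · exact Or.inl h.symm
        · exact Or.inr h.symm
      · intro d _ d' _ h
        exact g.injective h
      · intro e he
        refine ⟨g.symm e, ?_, Equiv.apply_symm_apply _ _⟩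
        rw [Finset.mem_filter] at he ⊢
        refine ⟨Finset.mem_univ _, ?_⟩
        have h := he.2
        rw [hgs e, Sym2.mem_iff] at h
        rcases h with h | h
        · exact Or.inl h.symm
        · exact Or.inr h.symm
    have h2 : ((univ : Finset (W × Fin 3)).filter (fun d => x d.1 (d.2 + 1) = v)).card =
        ((univ : Finset (W × Fin 3)).filter (fun d => x d.1 d.2 = v)).card := by
      refine Finset.card_bij (fun d _ => s1 d) ?_ ?_ ?_
      · intro d hd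
        rw [Finset.mem_filter] at hd ⊢
        exact ⟨Finset.mem_univ _, hd.2⟩
      · intro d _ d' _ h
        exact s1.injective h
      · intro d hd
        refine ⟨s1.symm d, ?_, Equiv.apply_symm_apply _ _⟩
        rw [Finset.mem_filter] at hd ⊢
        refine ⟨Finset.mem_univ _, ?_⟩
        have h : x (s1 (s1.symm d)).1 (s1 (s1.symm d)).2 = v := by
          rw [Equiv.apply_symm_apply]; exact hd.2
        exact h
    have h3 : ((univ : Finset (W × Fin 3)).filter (fun d => x d.1 (d.2 + 2) = v)).card =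
        ((univ : Finset (W × Fin 3)).filter (fun d => x d.1 d.2 = v)).card := by
      refine Finset.card_bij (fun d _ => s2 d) ?_ ?_ ?_
      · intro d hd
        rw [Finset.mem_filter] at hd ⊢
        exact ⟨Finset.mem_univ _, hd.2⟩
      · intro d _ d' _ h
        exact s2.injective h
      · intro d hd
        refine ⟨s2.symm d, ?_, Equiv.apply_symm_apply _ _⟩
        rw [Finset.mem_filter] at hd ⊢
        refine ⟨Finset.mem_univ _, ?_⟩
        have h : x (s2 (s2.symm d)).1 (s2 (s2.symm d)).2 = v := by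
          rw [Equiv.apply_symm_apply]; exact hd.2
        exact h
    have h4 : ((univ : Finset (W × Fin 3)).filter (fun d => x d.1 (d.2 + 1) = v ∨ x d.1 (d.2 + 2) = v)).card
        = ((univ : Finset (W × Fin 3)).filter (fun d => x d.1 (d.2 + 1) = v)).card +
          ((univ : Finset (W × Fin 3)).filter (fun d => x d.1 (d.2 + 2) = v)).card := by
      rw [Finset.filter_or, Finset.card_union_of_disjoint]
      rw [Finset.disjoint_filter]
      intro d _ h h'
      have h5 := hx d.1 (h.trans h'.symm)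
      exact absurd h5 ((fin3_other d.2).2.2)
    have h5 := hdeg v
    omega
  have hD2 : ∀ d : W × Fin 3, ∃ d' : W × Fin 3, x d'.1 d'.2 = x d.1 d.2 ∧ d' ≠ d ∧
      ∀ d'' : W × Fin 3, x d''.1 d''.2 = x d.1 d.2 → d'' = d ∨ d'' = d' := by
    intro d
    obtain ⟨p, q, hpq, hs⟩ := Finset.card_eq_two.1 (hD (x d.1 d.2))
    have hm : ∀ d'' : W × Fin 3, x d''.1 d''.2 = x d.1 d.2 ↔ d'' = p ∨ d'' = q := by
      intro d''
      have h : d'' ∈ (univ : Finset (W × Fin 3)).filter (fun d' => x d'.1 d'.2 = x d.1 d.2) ↔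
          d'' ∈ ({p, q} : Finset (W × Fin 3)) := by rw [hs]
      rw [Finset.mem_filter, Finset.mem_insert, Finset.mem_singleton] at h
      exact ⟨fun h' => h.1 ⟨Finset.mem_univ _, h'⟩, fun h' => (h.2 h').2⟩
    rcases (hm d).1 rfl with h | h
    · exact ⟨q, (hm q).2 (Or.inr rfl), fun h' => hpq (h.symm.trans h'.symm), fun d'' h' => by
        rcases (hm d'').1 h' with h'' | h''
        · exact Or.inl (h''.trans h.symm)
        · exact Or.inr h''⟩
    · exact ⟨p, (hm p).2 (Or.inl rfl), fun h' => hpq (h'.trans h), fun d'' h' => by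
        rcases (hm d'').1 h' with h'' | h''
        · exact Or.inr h''
        · exact Or.inl (h''.trans h.symm)⟩
  have hsurj : ∀ v, ∃ d : W × Fin 3, x d.1 d.2 = v := by
    intro v
    have h : 0 < ((univ : Finset (W × Fin 3)).filter (fun d => x d.1 d.2 = v)).card := by
      rw [hD v]; exact two_pos
    obtain ⟨d, hd⟩ := Finset.card_pos.1 h
    exact ⟨d, (Finset.mem_filter.1 hd).2⟩
  have hVne : Nonempty V := Fintype.card_pos_iff.1 (by omega)
  obtain ⟨v0⟩ := hVne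
  obtain ⟨d0, _⟩ := hsurj v0
  refine darts_fin x hx hD2 hsurj d0.1 ?_ g.symm ends hgs
  intro Y hY hY'
  by_contra hno
  -- all crossing vertices coincide
  obtain ⟨x0, hx0⟩ : ∃ x0 : V, ∀ d d' : W × Fin 3, x d.1 d.2 = x d'.1 d'.2 → d.1 ∈ Y → d'.1 ∉ Y →
      x d.1 d.2 = x0 := by
    by_cases hex : ∃ d d' : W × Fin 3, x d.1 d.2 = x d'.1 d'.2 ∧ d.1 ∈ Y ∧ d'.1 ∉ Y
    · obtain ⟨d, d', h1, h2, h3⟩ := hex
      refine ⟨x d.1 d.2, ?_⟩
      intro e e' h4 h5 h6
      by_contra h7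
      exact hno ⟨d, d', e, e', h1, h4, fun h => h7 h.symm, h2, h3, h5, h6⟩
    · exact ⟨v0, fun d d' h1 h2 h3 => absurd ⟨d, d', h1, h2, h3⟩ hex⟩
  obtain ⟨S, hS⟩ := hY
  obtain ⟨S', hS'⟩ : ∃ S', S' ∉ Y := by
    by_contra h
    push Not at h
    exact hY' (Finset.eq_univ_iff_forall.2 h)
  -- a vertex of a triangle different from x0
  have hex : ∀ R : W, ∃ i, x R i ≠ x0 := by
    intro R
    by_contra h
    push Not at h
    have := hx R ((h 0).trans (h 1).symm)
    exact absurd this (by decide)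
  obtain ⟨i, hi⟩ := hex S
  obtain ⟨i', hi'⟩ := hex S'
  have key := conn_set (hconn x0) (fun u => ∃ d : W × Fin 3, d.1 ∈ Y ∧ x d.1 d.2 = u.1) ⟨x S i, hi⟩
    ⟨(S, i), hS, rfl⟩ (by
      rintro ⟨u, hu⟩ ⟨v, hv⟩ ⟨d, hd, hdu⟩ hadj
      have hu' : u ≠ x0 := hu
      have hv' : v ≠ x0 := hv
      have hdu' : x d.1 d.2 = u := hdu
      have hadj' : (SimpleGraph.fromRel (fun u w : V => ∃ e, ends e = s(u, w))).Adj u v := hadj
      rw [SimpleGraph.fromRel_adj] at hadj'
      obtain ⟨_, h⟩ := hadj'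
      have h' : ∃ e, ends e = s(u, v) := by
        rcases h with h | ⟨e, h⟩
        · exact h
        · exact ⟨e, by rw [h, Sym2.eq_swap]⟩
      obtain ⟨e, he⟩ := h'
      rw [hgs e] at he
      obtain ⟨j, j', hj, hj'⟩ : ∃ j j', x (g.symm e).1 j = u ∧ x (g.symm e).1 j' = v := by
        rcases Sym2.eq_iff.1 he with ⟨h1, h2⟩ | ⟨h1, h2⟩
        · exact ⟨_, _, h1, h2⟩
        · exact ⟨_, _, h2, h1⟩
      by_cases hm : (g.symm e).1 ∈ Y
      · exact ⟨((g.symm e).1, j'), hm, hj'⟩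
      · exfalso
        apply hu'
        rw [← hdu']
        exact hx0 d ((g.symm e).1, j) (hdu'.trans hj.symm) hd hm)
  obtain ⟨d, hd, hd'⟩ := key ⟨x S' i', hi'⟩
  apply hi'
  have hd'' : x d.1 d.2 = x S' i' := hd'
  rw [← hd'']
  exact hx0 d (S', i') hd'' hd hS'

end Pool.Agent.Helper45.CCD
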