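import Mathlib
import Pool.Agent.Helper45.CCD.Fin

set_option autoImplicit false
set_option linter.all false

open Finset

namespace Pool.Agent.Helper45.CCD

theorem conn_cross {V : Type} {G : SimpleGraph V} (hG : G.Connected) (P : V → Prop) (a b : V)
    (ha : P a) (hb : ¬ P b) : ∃ u v, P u ∧ ¬ P v ∧ G.Adj u v := by
  by_contra h
  push Not at h
  exact hb (conn_set hG P a ha (fun u v hu huv => by
    by_contra hv
    exact h u v hu hv huv) b)

theorem fin3_pair : ∀ i j : Fin 3, i ≠ j → ∃ k : Fin 3, (k + 1 = i ∧ k + 2 = j) ∨ (k + 1 = j ∧ k + 2 = i) := by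
  decide

/-- line graphs of 2-connected cubic multigraphs -/
theorem cubic (W X : Type) [Fintype W] [DecidableEq W] [Fintype X] [DecidableEq X]
    (endsG : X → Sym2 W) (hloop : ∀ x, ¬ (endsG x).IsDiag)
    (hdeg : ∀ w : W, (Finset.univ.filter (fun x : X => w ∈ endsG x)).card = 3)
    (hconn : (SimpleGraph.fromRel (fun u w : W => ∃ x, endsG x = s(u, w))).Connected)
    (hconn' : ∀ w : W, ((SimpleGraph.fromRel (fun u v : W => ∃ x, endsG x = s(u, v))).induce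
      {u : W | u ≠ w}).Connected)
    (E : Type) [Fintype E] [DecidableEq E] (vtx : E → W) (ends : E → Sym2 X)
    (hE1 : ∀ e, ¬ (ends e).IsDiag ∧ ∀ x ∈ ends e, vtx e ∈ endsG x)
    (hE2 : ∀ (w : W) (z : Sym2 X), ¬ z.IsDiag → (∀ x ∈ z, w ∈ endsG x) → ∃! e, vtx e = w ∧ ends e = z) :
    ∃ C₁ C₂ : Finset (Finset E),
        (∀ S ∈ C₁, S.Nonempty ∧ (∀ v : X, Even (S.filter (fun e => v ∈ ends e)).card) ∧
            ∀ T ⊆ S, T.Nonempty → (∀ v : X, Even (T.filter (fun e => v ∈ ends e)).card) → T = S) ∧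
        (∀ e : E, ∃! S, S ∈ C₁ ∧ e ∈ S) ∧
        (∀ S ∈ C₂, S.Nonempty ∧ (∀ v : X, Even (S.filter (fun e => v ∈ ends e)).card) ∧
            ∀ T ⊆ S, T.Nonempty → (∀ v : X, Even (T.filter (fun e => v ∈ ends e)).card) → T = S) ∧
        (∀ e : E, ∃! S, S ∈ C₂ ∧ e ∈ S) ∧
        (∀ v : X, ∀ S₁ ∈ C₁, ∀ S₂ ∈ C₂,
            ((S₁ ∩ S₂).filter (fun e => v ∈ ends e)).card ≤ 1) := by
  classical
  have hstr : ∀ w : W, ∃ inc : Fin 3 → X, Function.Injective inc ∧ ∀ x, w ∈ endsG x ↔ ∃ i, inc i = x := by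
    intro w
    obtain ⟨a, b, c, hab, hac, hbc, hs⟩ := Finset.card_eq_three.1 (hdeg w)
    refine ⟨![a, b, c], ?_, ?_⟩
    · intro i j hij
      fin_cases i <;> fin_cases j <;> simp_all
    · intro x
      have h : x ∈ Finset.univ.filter (fun x : X => w ∈ endsG x) ↔ x ∈ ({a, b, c} : Finset X) := by
        rw [hs]
      rw [Finset.mem_filter, Finset.mem_insert, Finset.mem_insert, Finset.mem_singleton] at h
      constructor
      · intro hx
        rcases h.1 ⟨Finset.mem_univ _, hx⟩ with h' | h' | h'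
        · exact ⟨0, h'.symm⟩
        · exact ⟨1, h'.symm⟩
        · exact ⟨2, h'.symm⟩
      · rintro ⟨i, hi⟩
        refine (h.2 ?_).2
        fin_cases i
        · exact Or.inl hi.symm
        · exact Or.inr (Or.inl hi.symm)
        · exact Or.inr (Or.inr hi.symm)
  choose inc hinj hinc using hstr
  have hends2 : ∀ (x : X) (w : W), w ∈ endsG x → ∃ w', w' ≠ w ∧ endsG x = s(w, w') := by
    intro x w hw
    obtain ⟨w', hw'⟩ := hw
    refine ⟨w', ?_, hw'⟩
    rintro rfl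
    apply hloop x
    rw [hw']
    exact Sym2.mk_isDiag_iff.2 rfl
  have hother : ∀ d : W × Fin 3, ∃ d' : W × Fin 3, inc d'.1 d'.2 = inc d.1 d.2 ∧ d' ≠ d ∧
      ∀ d'' : W × Fin 3, inc d''.1 d''.2 = inc d.1 d.2 → d'' = d ∨ d'' = d' := by
    rintro ⟨w, i⟩
    obtain ⟨w', hw', he⟩ := hends2 (inc w i) w ((hinc w _).2 ⟨i, rfl⟩)
    obtain ⟨i', hi'⟩ := (hinc w' (inc w i)).1 (by rw [he]; exact Sym2.mem_mk_right _ _)
    refine ⟨(w', i'), hi', fun h => hw' (congrArg Prod.fst h), ?_⟩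
    rintro ⟨w'', i''⟩ h
    have h' : inc w'' i'' = inc w i := h
    have h1 : w'' ∈ endsG (inc w i) := (hinc w'' _).2 ⟨i'', h'⟩
    rw [he, Sym2.mem_iff] at h1
    rcases h1 with h1 | h1
    · left
      subst h1
      rw [hinj _ h']
    · right
      subst h1
      rw [hinj _ (h'.trans hi'.symm)]
  have hsurj : ∀ x, ∃ d : W × Fin 3, inc d.1 d.2 = x := by
    intro x
    obtain ⟨u, hu⟩ : ∃ u, u ∈ endsG x := by
      induction h : endsG x using Sym2.ind with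
      | _ u v => exact ⟨u, Sym2.mem_mk_left _ _⟩
    obtain ⟨i, hi⟩ := (hinc u x).1 hu
    exact ⟨(u, i), hi⟩
  obtain ⟨r⟩ := hconn.nonempty
  -- the edges
  have hψ : ∀ d : W × Fin 3, ∃! e, vtx e = d.1 ∧ ends e = s(inc d.1 (d.2 + 1), inc d.1 (d.2 + 2)) := by
    intro d
    apply hE2
    · rw [Sym2.mk_isDiag_iff]
      intro h
      exact (fin3_other d.2).2.2 (hinj _ h)
    · intro x hx
      rw [Sym2.mem_iff] at hx
      rcases hx with rfl | rfl
      · exact (hinc _ _).2 ⟨_, rfl⟩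
      · exact (hinc _ _).2 ⟨_, rfl⟩
  choose ψ hψ1 hψ2 using hψ
  have hbij : Function.Bijective ψ := by
    constructor
    · rintro ⟨w, i⟩ ⟨w', i'⟩ h
      have h1 : w = w' := by
        have e1 := (hψ1 (w, i)).1
        have e2 := (hψ1 (w', i')).1
        rw [h] at e1
        exact e1.symm.trans e2
      subst h1
      have h2 : s(inc w (i + 1), inc w (i + 2)) = s(inc w (i' + 1), inc w (i' + 2)) := by
        have e1 := (hψ1 (w, i)).2
        have e2 := (hψ1 (w, i')).2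
        rw [h] at e1
        exact e1.symm.trans e2
      have h3 : i + 1 = i' + 1 ∧ i + 2 = i' + 2 ∨ i + 1 = i' + 2 ∧ i + 2 = i' + 1 := by
        rcases Sym2.eq_iff.1 h2 with ⟨h3, h4⟩ | ⟨h3, h4⟩
        · exact Or.inl ⟨hinj _ h3, hinj _ h4⟩
        · exact Or.inr ⟨hinj _ h3, hinj _ h4⟩
      rw [fin3_pair_eq i' i h3]
    · intro e
      obtain ⟨h1, h2⟩ := hE1 e
      obtain ⟨x, y, hxy⟩ : ∃ x y, ends e = s(x, y) := by
        induction h : ends e using Sym2.ind with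
        | _ u v => exact ⟨u, v, rfl⟩
      rw [hxy] at h1 h2
      obtain ⟨i, hi⟩ := (hinc (vtx e) x).1 (h2 x (Sym2.mem_mk_left _ _))
      obtain ⟨j, hj⟩ := (hinc (vtx e) y).1 (h2 y (Sym2.mem_mk_right _ _))
      have hij : i ≠ j := by
        rintro rfl
        apply h1
        rw [Sym2.mk_isDiag_iff]
        exact hi.symm.trans hj
      obtain ⟨k, hk⟩ := fin3_pair i j hij
      refine ⟨(vtx e, k), ?_⟩
      symm
      apply hψ2
      refine ⟨rfl, ?_⟩
      show ends e = s(inc (vtx e) (k + 1), inc (vtx e) (k + 2))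
      rcases hk with ⟨h3, h4⟩ | ⟨h3, h4⟩
      · rw [h3, h4, hi, hj, hxy]
      · rw [h3, h4, hi, hj, hxy, Sym2.eq_swap]
  let g : W × Fin 3 ≃ E := Equiv.ofBijective ψ hbij
  have hgs : ∀ e, ends e = s(inc (g.symm e).1 ((g.symm e).2 + 1), inc (g.symm e).1 ((g.symm e).2 + 2)) := by
    intro e
    have h1 : ends (g (g.symm e)) = s(inc (g.symm e).1 ((g.symm e).2 + 1), inc (g.symm e).1 ((g.symm e).2 + 2)) :=
      (hψ1 _).2
    rwa [Equiv.apply_symm_apply] at h1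
  refine darts_fin inc hinj hother hsurj r ?_ g.symm ends hgs
  intro Y hY hY'
  -- darts of a crossing edge
  have hdart : ∀ x u v, endsG x = s(u, v) → ∃ i j, inc u i = x ∧ inc v j = x := by
    intro x u v h
    obtain ⟨i, hi⟩ := (hinc u x).1 (by rw [h]; exact Sym2.mem_mk_left _ _)
    obtain ⟨j, hj⟩ := (hinc v x).1 (by rw [h]; exact Sym2.mem_mk_right _ _)
    exact ⟨i, j, hi, hj⟩
  suffices hsuf : ∃ x y u v u' v', x ≠ y ∧ endsG x = s(u, v) ∧ endsG y = s(u', v') ∧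
      u ∈ Y ∧ v ∉ Y ∧ u' ∈ Y ∧ v' ∉ Y by
    obtain ⟨x, y, u, v, u', v', hxy, hx, hy, h1, h2, h3, h4⟩ := hsuf
    obtain ⟨i, j, hi, hj⟩ := hdart x u v hx
    obtain ⟨i', j', hi', hj'⟩ := hdart y u' v' hy
    exact ⟨(u, i), (v, j), (u', i'), (v', j'), hi.trans hj.symm, hi'.trans hj'.symm,
      fun h => hxy (hi.symm.trans (h.trans hi')), h1, h2, h3, h4⟩
  have hadj : ∀ u v, (SimpleGraph.fromRel (fun u w : W => ∃ x, endsG x = s(u, w))).Adj u v →
      ∃ x, endsG x = s(u, v) := by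
    intro u v h
    rw [SimpleGraph.fromRel_adj] at h
    rcases h.2 with h' | ⟨x, h'⟩
    · exact h'
    · exact ⟨x, by rw [h', Sym2.eq_swap]⟩
  obtain ⟨p, hp⟩ := hY
  obtain ⟨q, hq⟩ : ∃ q, q ∉ Y := by
    by_contra h
    push Not at h
    exact hY' (Finset.eq_univ_iff_forall.2 h)
  obtain ⟨u, v, hu, hv, huv⟩ := conn_cross hconn (fun z => z ∈ Y) p q hp hq
  obtain ⟨x, hx⟩ := hadj u v huv
  have huv' : v ≠ u := fun h => hv (h ▸ hu)
  by_cases hex : ∃ u', u' ∈ Y ∧ u' ≠ u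
  · obtain ⟨u1, hu1, hu1'⟩ := hex
    obtain ⟨⟨a, ha'⟩, ⟨b, hb'⟩, ha, hb, hab⟩ := conn_cross (hconn' u) (fun z => z.1 ∈ Y) ⟨u1, hu1'⟩ ⟨v, huv'⟩ hu1 hv
    have hab' : (SimpleGraph.fromRel (fun u w : W => ∃ x, endsG x = s(u, w))).Adj a b := hab
    obtain ⟨y, hy⟩ := hadj a b hab'
    refine ⟨x, y, u, v, a, b, ?_, hx, hy, hu, hv, ha, hb⟩
    rintro rfl
    have h1 : u ∈ endsG x := by rw [hx]; exact Sym2.mem_mk_left _ _
    rw [hy, Sym2.mem_iff] at h1
    rcases h1 with h1 | h1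
    · exact ha' h1.symm
    · exact hb' h1.symm
  · push Not at hex
    obtain ⟨i, hi⟩ : ∃ i, inc u i ≠ x := by
      by_contra h
      push Not at h
      exact absurd (hinj u ((h 0).trans (h 1).symm)) (by decide)
    obtain ⟨w', hw', he⟩ := hends2 (inc u i) u ((hinc u _).2 ⟨i, rfl⟩)
    exact ⟨x, inc u i, u, v, u, w', fun h => hi h.symm, hx, he, hu, hv, hu, fun h => hw' (hex w' h)⟩

end Pool.Agent.Helper45.CCD
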