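import Mathlib
import Pool.Agent.Helper45.CCD.Circ
import Pool.Agent.Helper45.CCD.Local

set_option autoImplicit false
set_option linter.all false

open Finset

namespace Pool.Agent.Helper45.CCD

section
variable {V E : Type} [Fintype V] [DecidableEq V] [Fintype E] [DecidableEq E]

theorem trans_of_labels {L : Type*} (ends : E → Sym2 V) (c : E → L)
    (h : ∀ x e, x ∈ ends e → ∃ f, f ≠ e ∧ x ∈ ends f ∧ c f = c e ∧
      ∀ f', f' ≠ e → x ∈ ends f' → c f' = c e → f' = f) :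
    Trans ends (fun x e f => x ∈ ends e ∧ x ∈ ends f ∧ e ≠ f ∧ c e = c f) c := by
  refine ⟨?_, ?_, ?_, ?_, ?_, ?_⟩
  · rintro v e f ⟨h1, h2, h3, h4⟩
    exact ⟨h2, h1, h3.symm, h4.symm⟩
  · rintro v e f ⟨h1, h2, h3, h4⟩
    exact ⟨h1, h3⟩
  · intro v e he
    obtain ⟨f, h1, h2, h3, _⟩ := h v e he
    exact ⟨f, he, h2, h1.symm, h3.symm⟩
  · rintro v e f f' ⟨h1, h2, h3, h4⟩ ⟨_, h2', h3', h4'⟩
    obtain ⟨g, _, _, _, hg⟩ := h v e h1
    rw [hg f h3.symm h2 h4.symm, hg f' h3'.symm h2' h4'.symm]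
  · rintro v e f ⟨_, _, _, h⟩
    exact h
  · intro v e f he hf hc
    by_cases hef : e = f
    · exact Or.inl hef
    · exact Or.inr ⟨he, hf, hef, hc⟩

theorem pair_of_labels {L L' : Type*} (ends : E → Sym2 V) (c : E → L) (c' : E → L')
    (h : ∀ x e, x ∈ ends e → ∃ f, f ≠ e ∧ x ∈ ends f ∧ c f = c e ∧
      ∀ f', f' ≠ e → x ∈ ends f' → c f' = c e → f' = f)
    (h' : ∀ x e, x ∈ ends e → ∃ f, f ≠ e ∧ x ∈ ends f ∧ c' f = c' e ∧
      ∀ f', f' ≠ e → x ∈ ends f' → c' f' = c' e → f' = f)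
    (hdis : ∀ x e f, x ∈ ends e → x ∈ ends f → e ≠ f → c e = c f → c' e ≠ c' f) :
    ∃ C₁ C₂ : Finset (Finset E),
        (∀ S ∈ C₁, S.Nonempty ∧ (∀ v : V, Even (S.filter (fun e => v ∈ ends e)).card) ∧
            ∀ T ⊆ S, T.Nonempty → (∀ v : V, Even (T.filter (fun e => v ∈ ends e)).card) → T = S) ∧
        (∀ e : E, ∃! S, S ∈ C₁ ∧ e ∈ S) ∧
        (∀ S ∈ C₂, S.Nonempty ∧ (∀ v : V, Even (S.filter (fun e => v ∈ ends e)).card) ∧
            ∀ T ⊆ S, T.Nonempty → (∀ v : V, Even (T.filter (fun e => v ∈ ends e)).card) → T = S) ∧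
        (∀ e : E, ∃! S, S ∈ C₂ ∧ e ∈ S) ∧
        (∀ v : V, ∀ S₁ ∈ C₁, ∀ S₂ ∈ C₂,
            ((S₁ ∩ S₂).filter (fun e => v ∈ ends e)).card ≤ 1) :=
  pair' ends _ _ c c' (trans_of_labels ends c h) (trans_of_labels ends c' h')
    (fun x e f h1 h2 => hdis x e f h1.1 h1.2.1 h1.2.2.1 h1.2.2.2 h2.2.2.2)

/-- tables for the complete graph on five vertices -/
def lab1 (i j : Fin 5) : Fin 3 :=
  ![![0, 0, 0, 1, 1], ![0, 0, 0, 2, 2], ![0, 0, 0, 1, 1], ![1, 2, 1, 0, 2], ![1, 2, 1, 2, 0]] i j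
def lab2 (i j : Fin 5) : Fin 3 :=
  ![![0, 0, 1, 0, 1], ![0, 0, 2, 0, 2], ![1, 2, 0, 1, 2], ![0, 0, 1, 0, 1], ![1, 2, 2, 1, 0]] i j

theorem lab1_symm : ∀ i j, lab1 i j = lab1 j i := by decide
theorem lab2_symm : ∀ i j, lab2 i j = lab2 j i := by decide
theorem lab1_ex : ∀ i j, j ≠ i → ∃ k, k ≠ i ∧ k ≠ j ∧ lab1 i k = lab1 i j ∧
    ∀ l, l ≠ i → l ≠ j → lab1 i l = lab1 i j → l = k := by decide
theorem lab2_ex : ∀ i j, j ≠ i → ∃ k, k ≠ i ∧ k ≠ j ∧ lab2 i k = lab2 i j ∧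
    ∀ l, l ≠ i → l ≠ j → lab2 i l = lab2 i j → l = k := by decide
theorem lab_dis : ∀ i j k, j ≠ i → k ≠ i → j ≠ k → lab1 i j = lab1 i k → lab2 i j ≠ lab2 i k := by
  decide

theorem case5_aux (ends : E → Sym2 V) (hloop : ∀ e, ¬ (ends e).IsDiag)
    (hE : ∀ x y, x ≠ y → ∃ e, ends e = s(x, y)) (hE' : ∀ e f, ends e = ends f → e = f)
    (p : V ≃ Fin 5) (lab : Fin 5 → Fin 5 → Fin 3) (hs : ∀ i j, lab i j = lab j i)
    (hex : ∀ i j, j ≠ i → ∃ k, k ≠ i ∧ k ≠ j ∧ lab i k = lab i j ∧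
      ∀ l, l ≠ i → l ≠ j → lab i l = lab i j → l = k)
    (c : E → Fin 3) (hc : ∀ e x y, ends e = s(x, y) → c e = lab (p x) (p y)) :
    ∀ x e, x ∈ ends e → ∃ f, f ≠ e ∧ x ∈ ends f ∧ c f = c e ∧
      ∀ f', f' ≠ e → x ∈ ends f' → c f' = c e → f' = f := by
  have hne : ∀ e x y, ends e = s(x, y) → y ≠ x := by
    rintro e x y h rfl
    apply hloop e
    rw [h]
    exact Sym2.mk_isDiag_iff.2 rfl
  rintro x e ⟨y, hy⟩
  obtain ⟨k, h1, h2, h3, h4⟩ := hex (p x) (p y) (fun h => hne _ _ _ hy (p.injective h))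
  obtain ⟨f, hf⟩ := hE x (p.symm k) (fun h => h1 (by rw [h, Equiv.apply_symm_apply]))
  refine ⟨f, ?_, ?_, ?_, ?_⟩
  · rintro rfl
    rw [hy] at hf
    rcases Sym2.eq_iff.1 hf with ⟨_, h⟩ | ⟨h, h'⟩
    · apply h2; rw [h, Equiv.apply_symm_apply]
    · exact hne _ _ _ hy h'
  · rw [hf]; exact Sym2.mem_mk_left _ _
  · rw [hc f _ _ hf, hc e _ _ hy, Equiv.apply_symm_apply]; exact h3
  · rintro f' hf' ⟨z, hz⟩ hcc
    rw [hc f' _ _ hz, hc e _ _ hy] at hcc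
    have h5 := h4 (p z) (fun h => hne _ _ _ hz (p.injective h)) (fun h => by
      apply hf'
      apply hE'
      rw [hz, hy, p.injective h]) hcc
    apply hE'
    rw [hz, hf, ← h5, Equiv.symm_apply_apply]

theorem case5 (ends : E → Sym2 V) (hloop : ∀ e, ¬ (ends e).IsDiag)
    (hE : ∀ x y, x ≠ y → ∃ e, ends e = s(x, y)) (hE' : ∀ e f, ends e = ends f → e = f)
    (hV : Fintype.card V = 5) :
    ∃ C₁ C₂ : Finset (Finset E),
        (∀ S ∈ C₁, S.Nonempty ∧ (∀ v : V, Even (S.filter (fun e => v ∈ ends e)).card) ∧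
            ∀ T ⊆ S, T.Nonempty → (∀ v : V, Even (T.filter (fun e => v ∈ ends e)).card) → T = S) ∧
        (∀ e : E, ∃! S, S ∈ C₁ ∧ e ∈ S) ∧
        (∀ S ∈ C₂, S.Nonempty ∧ (∀ v : V, Even (S.filter (fun e => v ∈ ends e)).card) ∧
            ∀ T ⊆ S, T.Nonempty → (∀ v : V, Even (T.filter (fun e => v ∈ ends e)).card) → T = S) ∧
        (∀ e : E, ∃! S, S ∈ C₂ ∧ e ∈ S) ∧
        (∀ v : V, ∀ S₁ ∈ C₁, ∀ S₂ ∈ C₂,
            ((S₁ ∩ S₂).filter (fun e => v ∈ ends e)).card ≤ 1) := by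
  classical
  have p : V ≃ Fin 5 := Fintype.equivFinOfCardEq hV
  have hab : ∀ e, ∃ a b, ends e = s(a, b) := by
    intro e
    induction h : ends e using Sym2.ind with
    | _ u v => exact ⟨u, v, rfl⟩
  choose a b hab using hab
  have hne : ∀ e x y, ends e = s(x, y) → y ≠ x := by
    rintro e x y h rfl
    apply hloop e
    rw [h]
    exact Sym2.mk_isDiag_iff.2 rfl
  have hc : ∀ (lab : Fin 5 → Fin 5 → Fin 3) (hs : ∀ i j, lab i j = lab j i) e x y,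
      ends e = s(x, y) → lab (p (a e)) (p (b e)) = lab (p x) (p y) := by
    intro lab hs e x y h
    rw [hab e] at h
    rcases Sym2.eq_iff.1 h with ⟨h1, h2⟩ | ⟨h1, h2⟩
    · rw [h1, h2]
    · rw [h1, h2, hs]
  refine pair_of_labels ends (fun e => lab1 (p (a e)) (p (b e))) (fun e => lab2 (p (a e)) (p (b e)))
    (case5_aux ends hloop hE hE' p lab1 lab1_symm lab1_ex _ (hc lab1 lab1_symm))
    (case5_aux ends hloop hE hE' p lab2 lab2_symm lab2_ex _ (hc lab2 lab2_symm)) ?_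
  rintro x e f ⟨y, hy⟩ ⟨z, hz⟩ hef h
  have h1 : lab1 (p x) (p y) = lab1 (p x) (p z) := by
    rw [← hc lab1 lab1_symm e x y hy, ← hc lab1 lab1_symm f x z hz]; exact h
  have h2 := lab_dis (p x) (p y) (p z) (fun h => hne _ _ _ hy (p.injective h))
    (fun h => hne _ _ _ hz (p.injective h)) (fun h => hef (hE' _ _ (by rw [hy, hz, p.injective h]))) h1
  show lab2 (p (a e)) (p (b e)) ≠ lab2 (p (a f)) (p (b f))
  rw [hc lab2 lab2_symm e x y hy, hc lab2 lab2_symm f x z hz]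
  exact h2

theorem g4_two (y : G4) : y + y = 0 := by revert y; decide
theorem g4_a (x y a : G4) (ha : a ≠ 0) (hxy : x ≠ y) (hx : x = 0 ∨ x = a) (hy : y = 0 ∨ y = a) :
    y = x + a := by
  rcases hx with rfl | rfl
  · rcases hy with rfl | rfl
    · exact absurd rfl hxy
    · rw [zero_add]
  · rcases hy with rfl | rfl
    · rw [g4_two]
    · exact absurd rfl hxy
theorem g4_b'' : ∀ x a : G4, x ≠ 0 → x ≠ a → a ≠ 0 → ∀ y : G4, y = x ∨ y = 0 ∨ y = a ∨ y = x + a := by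
  decide
theorem g4_b' (x y a : G4) (h : x ≠ y) (h1 : x ≠ 0) (h2 : x ≠ a) (h3 : y ≠ 0) (h4 : y ≠ a)
    (h5 : a ≠ 0) : y = x + a := by
  rcases g4_b'' x a h1 h2 h5 y with h6 | h6 | h6 | h6
  · exact absurd h6.symm h
  · exact absurd h6 h3
  · exact absurd h6 h4
  · exact h6
theorem g4_b (x y a : G4) (ha : a ≠ 0) (hxy : x ≠ y) (hx : ¬ (x = 0 ∨ x = a)) (hy : ¬ (y = 0 ∨ y = a)) :
    y = x + a := by
  push Not at hx hy
  exact g4_b' x y a hxy hx.1 hx.2 hy.1 hy.2 ha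
theorem g4_c : ∀ x a : G4, (x + a = 0 ∨ x + a = a) ↔ (x = 0 ∨ x = a) := by decide
theorem g4_d : ∀ x a : G4, a ≠ 0 → x + a ≠ x := by decide

theorem four_labels {W : Type} (ends : E → Sym2 V) (dl : E → G4) (vt : E → W)
    (hb : ∀ x (d : G4), ∃ e, x ∈ ends e ∧ dl e = d ∧ ∀ f, x ∈ ends f → dl f = d → f = e)
    (hv : ∀ x e f, x ∈ ends e → x ∈ ends f → dl e ≠ 0 → dl f ≠ 0 → vt e = vt f)
    (a : G4) (ha : a ≠ 0) (c : E → Option W)
    (hc1 : ∀ e, (dl e = 0 ∨ dl e = a) → c e = none)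
    (hc2 : ∀ e, ¬ (dl e = 0 ∨ dl e = a) → c e = some (vt e)) :
    (∀ x e, x ∈ ends e → ∃ f, f ≠ e ∧ x ∈ ends f ∧ c f = c e ∧
      ∀ f', f' ≠ e → x ∈ ends f' → c f' = c e → f' = f) ∧
    (∀ x e f, x ∈ ends e → x ∈ ends f → e ≠ f → c e = c f → dl f = dl e + a) := by
  have hinj : ∀ x e f, x ∈ ends e → x ∈ ends f → dl e = dl f → e = f := by
    intro x e f he hf h
    obtain ⟨g, _, _, hg⟩ := hb x (dl e)
    rw [hg e he rfl, hg f hf h.symm]
  have hdis : ∀ x e f, x ∈ ends e → x ∈ ends f → e ≠ f → c e = c f → dl f = dl e + a := by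
    intro x e f he hf hef hc
    have hne : dl e ≠ dl f := fun h => hef (hinj x e f he hf h)
    by_cases h1 : dl e = 0 ∨ dl e = a
    · by_cases h2 : dl f = 0 ∨ dl f = a
      · exact g4_a _ _ _ ha hne h1 h2
      · rw [hc1 e h1, hc2 f h2] at hc
        exact absurd hc (by simp)
    · by_cases h2 : dl f = 0 ∨ dl f = a
      · rw [hc2 e h1, hc1 f h2] at hc
        exact absurd hc (by simp)
      · exact g4_b _ _ _ ha hne h1 h2
  refine ⟨?_, hdis⟩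
  intro x e he
  obtain ⟨f, hf, hfd, hfu⟩ := hb x (dl e + a)
  refine ⟨f, ?_, hf, ?_, ?_⟩
  · rintro rfl
    exact g4_d _ _ ha hfd.symm
  · by_cases h1 : dl e = 0 ∨ dl e = a
    · have h2 : dl f = 0 ∨ dl f = a := by rw [hfd]; exact (g4_c _ _).2 h1
      rw [hc1 e h1, hc1 f h2]
    · have h2 : ¬ (dl f = 0 ∨ dl f = a) := by rw [hfd]; exact fun h => h1 ((g4_c _ _).1 h)
      rw [hc2 e h1, hc2 f h2, hv x f e hf he (fun h => h2 (Or.inl h)) (fun h => h1 (Or.inl h))]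
  · intro f' hf' hf'x hcc
    exact hfu f' hf'x (hdis x e f' he hf'x hf'.symm hcc.symm)

/-- the conclusion from a local labelling of the four edges at each vertex -/
theorem case_four {W : Type} (ends : E → Sym2 V) (dl : E → G4) (vt : E → W)
    (hb : ∀ x (d : G4), ∃ e, x ∈ ends e ∧ dl e = d ∧ ∀ f, x ∈ ends f → dl f = d → f = e)
    (hv : ∀ x e f, x ∈ ends e → x ∈ ends f → dl e ≠ 0 → dl f ≠ 0 → vt e = vt f) :
    ∃ C₁ C₂ : Finset (Finset E),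
        (∀ S ∈ C₁, S.Nonempty ∧ (∀ v : V, Even (S.filter (fun e => v ∈ ends e)).card) ∧
            ∀ T ⊆ S, T.Nonempty → (∀ v : V, Even (T.filter (fun e => v ∈ ends e)).card) → T = S) ∧
        (∀ e : E, ∃! S, S ∈ C₁ ∧ e ∈ S) ∧
        (∀ S ∈ C₂, S.Nonempty ∧ (∀ v : V, Even (S.filter (fun e => v ∈ ends e)).card) ∧
            ∀ T ⊆ S, T.Nonempty → (∀ v : V, Even (T.filter (fun e => v ∈ ends e)).card) → T = S) ∧
        (∀ e : E, ∃! S, S ∈ C₂ ∧ e ∈ S) ∧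
        (∀ v : V, ∀ S₁ ∈ C₁, ∀ S₂ ∈ C₂,
            ((S₁ ∩ S₂).filter (fun e => v ∈ ends e)).card ≤ 1) := by
  classical
  obtain ⟨h1, h2⟩ := four_labels ends dl vt hb hv (1, 0) (by decide)
    (fun e => if dl e = 0 ∨ dl e = (1, 0) then none else some (vt e))
    (fun e h => if_pos h) (fun e h => if_neg h)
  obtain ⟨h3, h4⟩ := four_labels ends dl vt hb hv (0, 1) (by decide)
    (fun e => if dl e = 0 ∨ dl e = (0, 1) then none else some (vt e))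
    (fun e h => if_pos h) (fun e h => if_neg h)
  refine pair_of_labels ends _ _ h1 h3 ?_
  intro x e f he hf hef hc hc'
  have h5 := h2 x e f he hf hef hc
  have h6 := h4 x e f he hf hef hc'
  rw [h5] at h6
  have h7 := add_left_cancel h6
  exact absurd h7 (by decide)

end

end Pool.Agent.Helper45.CCD
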