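import Mathlib
import Pool.Agent.Helper45.CCD.Fin
import Pool.Agent.Helper45.CCD.Labels

set_option autoImplicit false
set_option linter.all false

open Finset

namespace Pool.Agent.Helper45.CCD

theorem sym2_eq_of_mem {W : Type} {z : Sym2 W} {u v : W} (hu : u ∈ z) (hv : v ∈ z) (h : u ≠ v) :
    z = s(u, v) := (Sym2.mem_and_mem_iff h).1 ⟨hu, hv⟩

/-- 4-regular line graphs -/
theorem lineGraph4 (V E : Type) [Fintype V] [DecidableEq V] [Fintype E] [DecidableEq E]
    (ends : E → Sym2 V) (hloop : ∀ e, ¬ (ends e).IsDiag) (hcard : 3 ≤ Fintype.card V)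
    (hconn : (SimpleGraph.fromRel (fun u v : V => ∃ e, ends e = s(u, v))).Connected)
    (hconn' : ∀ v : V, ((SimpleGraph.fromRel (fun u w : V => ∃ e, ends e = s(u, w))).induce
          {w : V | w ≠ v}).Connected)
    (hdeg : ∀ v : V, (Finset.univ.filter (fun e : E => v ∈ ends e)).card = 4)
    (W : Type) (endsG : V → Sym2 W) (vtx : E → W) (hG : ∀ x, ¬ (endsG x).IsDiag)
    (hE1 : ∀ e, ∀ x ∈ ends e, vtx e ∈ endsG x)
    (hE2 : ∀ (w : W) (x y : V), x ≠ y → w ∈ endsG x → w ∈ endsG y →
      ∃! e, vtx e = w ∧ ends e = s(x, y)) :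
    ∃ C₁ C₂ : Finset (Finset E),
        (∀ S ∈ C₁, S.Nonempty ∧ (∀ v : V, Even (S.filter (fun e => v ∈ ends e)).card) ∧
            ∀ T ⊆ S, T.Nonempty → (∀ v : V, Even (T.filter (fun e => v ∈ ends e)).card) → T = S) ∧
        (∀ e : E, ∃! S, S ∈ C₁ ∧ e ∈ S) ∧
        (∀ S ∈ C₂, S.Nonempty ∧ (∀ v : V, Even (S.filter (fun e => v ∈ ends e)).card) ∧
            ∀ T ⊆ S, T.Nonempty → (∀ v : V, Even (T.filter (fun e => v ∈ ends e)).card) → T = S) ∧
        (∀ e : E, ∃! S, S ∈ C₂ ∧ e ∈ S) ∧
        (∀ v : V, ∀ S₁ ∈ C₁, ∀ S₂ ∈ C₂,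
            ((S₁ ∩ S₂).filter (fun e => v ∈ ends e)).card ≤ 1) := by
  classical
  let dg : W → ℕ := fun w => (univ.filter (fun x : V => w ∈ endsG x)).card
  have hne : ∀ e x y, ends e = s(x, y) → y ≠ x := by
    rintro e x y h rfl
    apply hloop e
    rw [h]
    exact Sym2.mk_isDiag_iff.2 rfl
  have hneG : ∀ x u v, endsG x = s(u, v) → v ≠ u := by
    rintro x u v h rfl
    apply hG x
    rw [h]
    exact Sym2.mk_isDiag_iff.2 rfl
  have huniq : ∀ w x y e f, x ≠ y → vtx e = w → ends e = s(x, y) → vtx f = w → ends f = s(x, y) → e = f := by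
    intro w x y e f hxy h1 h2 h3 h4
    have hx : w ∈ endsG x := by rw [← h1]; exact hE1 e x (by rw [h2]; exact Sym2.mem_mk_left _ _)
    have hy : w ∈ endsG y := by rw [← h1]; exact hE1 e y (by rw [h2]; exact Sym2.mem_mk_right _ _)
    obtain ⟨g, _, hg⟩ := hE2 w x y hxy hx hy
    rw [hg e ⟨h1, h2⟩, hg f ⟨h3, h4⟩]
  -- degrees
  have hA : ∀ x w, w ∈ endsG x →
      (univ.filter (fun e : E => x ∈ ends e ∧ vtx e = w)).card + 1 = dg w := by
    intro x w hw
    have h1 : (univ.filter (fun y : V => w ∈ endsG y ∧ y ≠ x)).card + 1 = dg w := by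
      have h2 : univ.filter (fun y : V => w ∈ endsG y) =
          insert x (univ.filter (fun y : V => w ∈ endsG y ∧ y ≠ x)) := by
        ext y
        simp only [Finset.mem_filter, Finset.mem_univ, true_and, Finset.mem_insert]
        constructor
        · intro h
          by_cases hyx : y = x
          · exact Or.inl hyx
          · exact Or.inr ⟨h, hyx⟩
        · rintro (rfl | h)
          · exact hw
          · exact h.1
      show _ = (univ.filter (fun y : V => w ∈ endsG y)).card
      rw [h2, Finset.card_insert_of_notMem]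
      simp
    rw [← h1]
    congr 1
    symm
    have hex : ∀ y, w ∈ endsG y ∧ y ≠ x → ∃ e, vtx e = w ∧ ends e = s(x, y) := by
      rintro y ⟨hy, hyx⟩
      obtain ⟨e, he, _⟩ := hE2 w x y hyx.symm hw hy
      exact ⟨e, he⟩
    have hEne : Nonempty E := by
      have h : 0 < (univ.filter (fun e : E => x ∈ ends e)).card := by rw [hdeg x]; decide
      obtain ⟨e, _⟩ := Finset.card_pos.1 h
      exact ⟨e⟩
    choose! F hF using hex
    refine Finset.card_bij (fun y _ => F y) ?_ ?_ ?_
    · intro y hy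
      have h := hF y (Finset.mem_filter.1 hy).2
      refine Finset.mem_filter.2 ⟨Finset.mem_univ _, ?_, h.1⟩
      rw [h.2]; exact Sym2.mem_mk_left _ _
    · intro y hy y' hy' h
      have e1 := (hF y (Finset.mem_filter.1 hy).2).2
      have e2 := (hF y' (Finset.mem_filter.1 hy').2).2
      rw [h, e2] at e1
      exact (Sym2.congr_right.1 e1).symm
    · intro e he
      obtain ⟨⟨y, hy⟩, hv⟩ := (Finset.mem_filter.1 he).2
      have hyx : y ≠ x := hne e x y hy
      have hyw : w ∈ endsG y := by rw [← hv]; exact hE1 e y (by rw [hy]; exact Sym2.mem_mk_right _ _)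
      refine ⟨y, Finset.mem_filter.2 ⟨Finset.mem_univ _, hyw, hyx⟩, ?_⟩
      have h := hF y ⟨hyw, hyx⟩
      exact huniq w x y _ _ hyx.symm h.1 h.2 hv hy
  have hds : ∀ x u v, endsG x = s(u, v) → dg u + dg v = 6 ∧ 1 ≤ dg u ∧ 1 ≤ dg v := by
    intro x u v h
    have h1 := hA x u (by rw [h]; exact Sym2.mem_mk_left _ _)
    have h2 := hA x v (by rw [h]; exact Sym2.mem_mk_right _ _)
    have h3 : univ.filter (fun e : E => x ∈ ends e) =
        univ.filter (fun e : E => x ∈ ends e ∧ vtx e = u) ∪
        univ.filter (fun e : E => x ∈ ends e ∧ vtx e = v) := by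
      ext e
      simp only [Finset.mem_filter, Finset.mem_univ, true_and, Finset.mem_union]
      constructor
      · intro he
        have h4 := hE1 e x he
        rw [h, Sym2.mem_iff] at h4
        rcases h4 with h4 | h4
        · exact Or.inl ⟨he, h4⟩
        · exact Or.inr ⟨he, h4⟩
      · rintro (h4 | h4)
        · exact h4.1
        · exact h4.1
    have h5 := hdeg x
    rw [h3, Finset.card_union_of_disjoint] at h5
    · omega
    · rw [Finset.disjoint_filter]
      intro e _ h6 h7
      exact hneG x u v h (h7.2.symm.trans h6.2)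
  have hoth : ∀ x w, w ∈ endsG x → ∃ w', endsG x = s(w, w') := fun x w h => h
  have hadj : ∀ u v, (SimpleGraph.fromRel (fun u w : V => ∃ e, ends e = s(u, w))).Adj u v →
      ∃ e, ends e = s(u, v) := by
    intro u v h
    rw [SimpleGraph.fromRel_adj] at h
    rcases h.2 with h' | ⟨x, h'⟩
    · exact h'
    · exact ⟨x, by rw [h', Sym2.eq_swap]⟩
  have hprop : ∀ S : ℕ → Prop, (∀ n, n ≤ 6 → S n → S (6 - n)) →
      (∃ x w, w ∈ endsG x ∧ S (dg w)) → ∀ x w, w ∈ endsG x → S (dg w) := by
    intro S hS hex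
    have hone : ∀ x w, w ∈ endsG x → S (dg w) → ∀ w' ∈ endsG x, S (dg w') := by
      intro x w hw h w' hw'
      by_cases hww : w = w'
      · rw [← hww]; exact h
      · have h1 := hds x w w' (sym2_eq_of_mem hw hw' hww)
        have h2 := hS (dg w) (by omega) h
        have h3 : 6 - dg w = dg w' := by omega
        rwa [h3] at h2
    obtain ⟨x0, w0, h0, h1⟩ := hex
    exact conn_set hconn (fun x => ∀ w ∈ endsG x, S (dg w)) x0 (hone x0 w0 h0 h1) (by
      intro u v hu huv
      obtain ⟨e, he⟩ := hadj u v huv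
      have e1 := hE1 e u (by rw [he]; exact Sym2.mem_mk_left _ _)
      have e2 := hE1 e v (by rw [he]; exact Sym2.mem_mk_right _ _)
      exact hone v (vtx e) e2 (hu _ e1))
  have hVne : Nonempty V := Fintype.card_pos_iff.1 (by omega)
  obtain ⟨x0⟩ := hVne
  obtain ⟨u0, v0, h0⟩ : ∃ u v, endsG x0 = s(u, v) := by
    induction h : endsG x0 using Sym2.ind with
    | _ u v => exact ⟨u, v, rfl⟩
  have h0u : u0 ∈ endsG x0 := by rw [h0]; exact Sym2.mem_mk_left _ _
  have h0v : v0 ∈ endsG x0 := by rw [h0]; exact Sym2.mem_mk_right _ _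
  obtain ⟨h06, h0a, h0b⟩ := hds x0 u0 v0 h0
  have hcases : dg u0 = 3 ∨ (dg u0 = 2 ∨ dg u0 = 4) ∨ (dg u0 = 1 ∨ dg u0 = 5) := by omega
  have hends : ∀ e, ∃ x y, ends e = s(x, y) := by
    intro e
    induction h : ends e using Sym2.ind with
    | _ u v => exact ⟨u, v, rfl⟩
  rcases hcases with h3 | h24 | h15
  · -- all degrees are three
    have hall := hprop (fun n => n = 3) (by intro n _ h; omega) ⟨x0, u0, h0u, h3⟩
    refine triangles V E ends hcard hconn' hdeg
      ((univ.image vtx).image (fun w => univ.filter (fun e : E => vtx e = w))) ?_ ?_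
    · intro e
      refine ⟨univ.filter (fun f : E => vtx f = vtx e), ⟨?_, ?_⟩, ?_⟩
      · exact Finset.mem_image.2 ⟨vtx e, Finset.mem_image.2 ⟨e, Finset.mem_univ _, rfl⟩, rfl⟩
      · exact Finset.mem_filter.2 ⟨Finset.mem_univ _, rfl⟩
      · rintro S ⟨hS, heS⟩
        obtain ⟨w, _, rfl⟩ := Finset.mem_image.1 hS
        rw [(Finset.mem_filter.1 heS).2]
    · intro S hS
      obtain ⟨w, hw, rfl⟩ := Finset.mem_image.1 hS
      obtain ⟨e0, _, rfl⟩ := Finset.mem_image.1 hw
      obtain ⟨x, y, hxy⟩ := hends e0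
      have h4 := hall x (vtx e0) (hE1 e0 x (by rw [hxy]; exact Sym2.mem_mk_left _ _))
      obtain ⟨a, b, c, hab, hac, hbc, hs⟩ := Finset.card_eq_three.1 h4
      have hmem : ∀ z, vtx e0 ∈ endsG z ↔ z = a ∨ z = b ∨ z = c := by
        intro z
        have h : z ∈ Finset.univ.filter (fun x : V => vtx e0 ∈ endsG x) ↔ z ∈ ({a, b, c} : Finset V) := by
          rw [hs]
        rw [Finset.mem_filter, Finset.mem_insert, Finset.mem_insert, Finset.mem_singleton] at h
        exact ⟨fun h' => h.1 ⟨Finset.mem_univ _, h'⟩, fun h' => (h.2 h').2⟩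
      have ha := (hmem a).2 (Or.inl rfl)
      have hb := (hmem b).2 (Or.inr (Or.inl rfl))
      have hc := (hmem c).2 (Or.inr (Or.inr rfl))
      obtain ⟨e₁, ⟨h11, h12⟩, h13⟩ := hE2 (vtx e0) b c hbc hb hc
      obtain ⟨e₂, ⟨h21, h22⟩, h23⟩ := hE2 (vtx e0) a c hac ha hc
      obtain ⟨e₃, ⟨h31, h32⟩, h33⟩ := hE2 (vtx e0) a b hab ha hb
      refine ⟨a, b, c, hab, hbc, hac, e₁, e₂, e₃, ?_, h12, h22, h32⟩
      ext e
      rw [Finset.mem_filter, Finset.mem_insert, Finset.mem_insert, Finset.mem_singleton]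
      constructor
      · rintro ⟨_, he⟩
        obtain ⟨p, q, hpq⟩ := hends e
        have hp := (hmem p).1 (by rw [← he]; exact hE1 e p (by rw [hpq]; exact Sym2.mem_mk_left _ _))
        have hq := (hmem q).1 (by rw [← he]; exact hE1 e q (by rw [hpq]; exact Sym2.mem_mk_right _ _))
        have hqp := hne e p q hpq
        rcases hp with rfl | rfl | rfl <;> rcases hq with rfl | rfl | rfl
        · exact absurd rfl hqp
        · exact Or.inr (Or.inr (h33 e ⟨he, hpq⟩))
        · exact Or.inr (Or.inl (h23 e ⟨he, hpq⟩))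
        · exact Or.inr (Or.inr (h33 e ⟨he, by rw [hpq, Sym2.eq_swap]⟩))
        · exact absurd rfl hqp
        · exact Or.inl (h13 e ⟨he, hpq⟩)
        · exact Or.inr (Or.inl (h23 e ⟨he, by rw [hpq, Sym2.eq_swap]⟩))
        · exact Or.inl (h13 e ⟨he, by rw [hpq, Sym2.eq_swap]⟩)
        · exact absurd rfl hqp
      · rintro (rfl | rfl | rfl)
        · exact ⟨Finset.mem_univ _, h11⟩
        · exact ⟨Finset.mem_univ _, h21⟩
        · exact ⟨Finset.mem_univ _, h31⟩
  · -- degrees two and four
    have hall := hprop (fun n => n = 2 ∨ n = 4) (by intro n _ h; omega) ⟨x0, u0, h0u, h24⟩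
    have hsb : ∀ x, ∃ u w, endsG x = s(u, w) ∧ dg u = 2 ∧ dg w = 4 := by
      intro x
      obtain ⟨u, v, h⟩ : ∃ u v, endsG x = s(u, v) := by
        induction h : endsG x using Sym2.ind with
        | _ u v => exact ⟨u, v, rfl⟩
      have h1 := hall x u (by rw [h]; exact Sym2.mem_mk_left _ _)
      have h2 := hds x u v h
      rcases h1 with h1 | h1
      · exact ⟨u, v, h, h1, by omega⟩
      · exact ⟨v, u, by rw [h, Sym2.eq_swap], by omega, h1⟩
    choose sm bg hsb hsm hbg using hsb
    have hps : ∀ w, ∃ ps : V → G4, dg w = 4 →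
        (∀ x y, w ∈ endsG x → w ∈ endsG y → ps x = ps y → x = y) ∧
        (∀ d : G4, ∃ x, w ∈ endsG x ∧ ps x = d) := by
      intro w
      by_cases hw : dg w = 4
      · have h1 : Fintype.card {x : V // w ∈ endsG x} = Fintype.card G4 := by
          rw [Fintype.card_subtype]
          rw [show (univ.filter (fun x : V => w ∈ endsG x)).card = 4 from hw]
          decide
        have ε : {x : V // w ∈ endsG x} ≃ G4 := Fintype.equivOfCardEq h1
        refine ⟨fun x => if h : w ∈ endsG x then ε ⟨x, h⟩ else 0, fun _ => ⟨?_, ?_⟩⟩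
        · intro x y hx hy h
          have h' : ε ⟨x, hx⟩ = ε ⟨y, hy⟩ := by
            have e1 : (if h : w ∈ endsG x then ε ⟨x, h⟩ else 0) = ε ⟨x, hx⟩ := dif_pos hx
            have e2 : (if h : w ∈ endsG y then ε ⟨y, h⟩ else 0) = ε ⟨y, hy⟩ := dif_pos hy
            rw [← e1, ← e2]; exact h
          exact congrArg Subtype.val (ε.injective h')
        · intro d
          refine ⟨(ε.symm d).1, (ε.symm d).2, ?_⟩
          have e1 : (if h : w ∈ endsG (ε.symm d).1 then ε ⟨(ε.symm d).1, h⟩ else 0) = ε (ε.symm d) :=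
            dif_pos (ε.symm d).2
          show (if h : w ∈ endsG (ε.symm d).1 then ε ⟨(ε.symm d).1, h⟩ else 0) = d
          rw [e1, Equiv.apply_symm_apply]
      · exact ⟨fun _ => 0, fun h => absurd h hw⟩
    choose ps hps using hps
    choose a b hab using hends
    let dl : E → G4 := fun e => if dg (vtx e) = 2 then 0 else ps (vtx e) (a e) + ps (vtx e) (b e)
    have hdl0 : ∀ e, dg (vtx e) = 2 → dl e = 0 := fun e h => if_pos h
    have hdl1 : ∀ e x y, dg (vtx e) = 4 → ends e = s(x, y) → dl e = ps (vtx e) x + ps (vtx e) y := by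
      intro e x y h1 h2
      have e1 : dl e = ps (vtx e) (a e) + ps (vtx e) (b e) := if_neg (by omega)
      rw [hab e] at h2
      rcases Sym2.eq_iff.1 h2 with ⟨h3, h4⟩ | ⟨h3, h4⟩
      · rw [e1, h3, h4]
      · rw [e1, h3, h4, add_comm]
    have hdl2 : ∀ e, dg (vtx e) = 4 → dl e ≠ 0 := by
      intro e h1 h2
      obtain ⟨x, hx⟩ : ∃ x, x ∈ ends e := ⟨a e, by rw [hab]; exact Sym2.mem_mk_left _ _⟩
      obtain ⟨y, hy⟩ := hx
      rw [hdl1 e x y h1 hy] at h2
      have h3 : ps (vtx e) x = ps (vtx e) y := by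
        have := congrArg (fun z => z + ps (vtx e) y) h2
        simpa [add_assoc, g4_two] using this
      exact hne e x y hy ((hps _ h1).1 x y (hE1 e x (by rw [hy]; exact Sym2.mem_mk_left _ _))
        (hE1 e y (by rw [hy]; exact Sym2.mem_mk_right _ _)) h3).symm
    have hvt : ∀ x e, x ∈ ends e → vtx e = sm x ∨ vtx e = bg x := by
      intro x e he
      have := hE1 e x he
      rw [hsb x, Sym2.mem_iff] at this
      exact this
    have hsmm : ∀ x, sm x ∈ endsG x := fun x => by rw [hsb x]; exact Sym2.mem_mk_left _ _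
    have hbgm : ∀ x, bg x ∈ endsG x := fun x => by
      have : bg x ∈ s(sm x, bg x) := Sym2.mem_mk_right _ _
      rwa [← hsb x] at this
    refine case_four ends dl vtx ?_ ?_
    · intro x d
      by_cases hd : d = 0
      · subst hd
        obtain ⟨p, q, hpq, hs⟩ := Finset.card_eq_two.1 (hsm x)
        have hmem : ∀ z, sm x ∈ endsG z ↔ z = p ∨ z = q := by
          intro z
          have h : z ∈ Finset.univ.filter (fun y : V => sm x ∈ endsG y) ↔ z ∈ ({p, q} : Finset V) := by
            rw [hs]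
          rw [Finset.mem_filter, Finset.mem_insert, Finset.mem_singleton] at h
          exact ⟨fun h' => h.1 ⟨Finset.mem_univ _, h'⟩, fun h' => (h.2 h').2⟩
        obtain ⟨y, hy1, hy2, hy3⟩ : ∃ y, y ≠ x ∧ sm x ∈ endsG y ∧ ∀ z, z ≠ x → sm x ∈ endsG z → z = y := by
          rcases (hmem x).1 (hsmm x) with h | h
          · refine ⟨q, fun h' => hpq (h.symm.trans h'.symm), (hmem q).2 (Or.inr rfl), ?_⟩
            intro z hz hz'
            rcases (hmem z).1 hz' with h' | h'
            · exact absurd (h'.trans h.symm) hz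
            · exact h'
          · refine ⟨p, fun h' => hpq (h'.trans h), (hmem p).2 (Or.inl rfl), ?_⟩
            intro z hz hz'
            rcases (hmem z).1 hz' with h' | h'
            · exact h'
            · exact absurd (h'.trans h.symm) hz
        obtain ⟨e, ⟨he1, he2⟩, _⟩ := hE2 (sm x) x y hy1.symm (hsmm x) hy2
        refine ⟨e, by rw [he2]; exact Sym2.mem_mk_left _ _, hdl0 e (by rw [he1]; exact hsm x), ?_⟩
        intro f hf hf0
        have hfv : vtx f = sm x := by
          rcases hvt x f hf with h | h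
          · exact h
          · exact absurd hf0 (hdl2 f (by rw [h]; exact hbg x))
        obtain ⟨z, hz⟩ := hf
        have hzx := hne f x z hz
        have hzy := hy3 z hzx (by rw [← hfv]; exact hE1 f z (by rw [hz]; exact Sym2.mem_mk_right _ _))
        subst hzy
        exact huniq (sm x) x z f e hzx.symm hfv hz he1 he2
      · obtain ⟨hp1, hp2⟩ := hps (bg x) (hbg x)
        obtain ⟨y, hy1, hy2⟩ := hp2 (ps (bg x) x + d)
        have hyx : y ≠ x := by
          rintro rfl
          apply hd
          have : ps (bg y) y + 0 = ps (bg y) y + d := by rw [add_zero]; exact hy2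
          exact (add_left_cancel this).symm
        obtain ⟨e, ⟨he1, he2⟩, _⟩ := hE2 (bg x) x y hyx.symm (hbgm x) hy1
        refine ⟨e, by rw [he2]; exact Sym2.mem_mk_left _ _, ?_, ?_⟩
        · rw [hdl1 e x y (by rw [he1]; exact hbg x) he2, he1, hy2, ← add_assoc, g4_two, zero_add]
        · intro f hf hfd
          have hfv : vtx f = bg x := by
            rcases hvt x f hf with h | h
            · exfalso
              apply hd
              rw [← hfd]
              exact hdl0 f (by rw [h]; exact hsm x)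
            · exact h
          obtain ⟨z, hz⟩ := hf
          have hzx := hne f x z hz
          have hzw : bg x ∈ endsG z := by
            rw [← hfv]; exact hE1 f z (by rw [hz]; exact Sym2.mem_mk_right _ _)
          rw [hdl1 f x z (by rw [hfv]; exact hbg x) hz, hfv] at hfd
          have hzy : z = y := by
            apply hp1 z y hzw hy1
            rw [hy2, ← hfd, ← add_assoc, g4_two, zero_add]
          subst hzy
          exact huniq (bg x) x z f e hzx.symm hfv hz he1 he2
    · intro x e f he hf hde hdf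
      have h1 : ∀ g, x ∈ ends g → dl g ≠ 0 → vtx g = bg x := by
        intro g hg hdg
        rcases hvt x g hg with h | h
        · exact absurd (hdl0 g (by rw [h]; exact hsm x)) hdg
        · exact h
      rw [h1 e he hde, h1 f hf hdf]
  · -- degrees one and five
    have hall := hprop (fun n => n = 1 ∨ n = 5) (by intro n _ h; omega) ⟨x0, u0, h0u, h15⟩
    obtain ⟨w, hw0, hw5⟩ : ∃ w, w ∈ endsG x0 ∧ dg w = 5 := by
      rcases h15 with h | h
      · exact ⟨v0, h0v, by omega⟩
      · exact ⟨u0, h0u, h⟩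
    have hkey : ∀ e x, x ∈ ends e → w ∈ endsG x → vtx e = w := by
      rintro e x ⟨y, hy⟩ hwx
      have hyx := hne e x y hy
      have e1 := hE1 e x (by rw [hy]; exact Sym2.mem_mk_left _ _)
      have e2 := hE1 e y (by rw [hy]; exact Sym2.mem_mk_right _ _)
      have h2 : 2 ≤ dg (vtx e) := by
        show 2 ≤ (univ.filter (fun x : V => vtx e ∈ endsG x)).card
        have h3 : ({x, y} : Finset V) ⊆ univ.filter (fun x : V => vtx e ∈ endsG x) := by
          intro z hz
          rw [Finset.mem_insert, Finset.mem_singleton] at hz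
          rcases hz with rfl | rfl
          · exact Finset.mem_filter.2 ⟨Finset.mem_univ _, e1⟩
          · exact Finset.mem_filter.2 ⟨Finset.mem_univ _, e2⟩
        have h4 := Finset.card_le_card h3
        rwa [Finset.card_pair hyx.symm] at h4
      by_contra hcon
      have h5 := hds x _ _ (sym2_eq_of_mem e1 hwx hcon)
      have h6 := hall x _ e1
      omega
    have hallw : ∀ x, w ∈ endsG x :=
      conn_set hconn (fun x => w ∈ endsG x) x0 hw0 (by
        intro u v hu huv
        obtain ⟨e, he⟩ := hadj u v huv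
        have h1 := hkey e u (by rw [he]; exact Sym2.mem_mk_left _ _) hu
        rw [← h1]
        exact hE1 e v (by rw [he]; exact Sym2.mem_mk_right _ _))
    refine case5 ends hloop ?_ ?_ ?_
    · intro x y hxy
      obtain ⟨e, he, _⟩ := hE2 w x y hxy (hallw x) (hallw y)
      exact ⟨e, he.2⟩
    · intro e f hef
      obtain ⟨x, y, hxy⟩ := hends e
      have h1 : ends f = s(x, y) := by rw [← hef]; exact hxy
      exact huniq w x y e f (hne e x y hxy).symm
        (hkey e x (by rw [hxy]; exact Sym2.mem_mk_left _ _) (hallw x)) hxy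
        (hkey f x (by rw [h1]; exact Sym2.mem_mk_left _ _) (hallw x)) h1
    · rw [← hw5]
      show Fintype.card V = (univ.filter (fun x : V => w ∈ endsG x)).card
      rw [Finset.filter_true_of_mem (fun x _ => hallw x)]
      rfl

end Pool.Agent.Helper45.CCD
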